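import Mathlib

/-!
# Quadratic characters of the multiplicative group of a number field separating conjugates
-/

open IsDedekindDomain NumberField

open scoped WithZero

namespace Pool.Agent.MPab1e31

/-- The parity of a discrete valuation. -/
noncomputable def parity {L : Type*} [Field L] (w : Valuation L ℤᵐ⁰) : Lˣ →* ℤˣ where
  toFun u := (WithZero.log (w u)).negOnePow
  map_one' := by simp
  map_mul' a b := by
    have ha : w (a : L) ≠ 0 := (Valuation.ne_zero_iff w).mpr a.ne_zero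
    have hb : w (b : L) ≠ 0 := (Valuation.ne_zero_iff w).mpr b.ne_zero
    rw [Units.val_mul, map_mul, WithZero.log_mul ha hb, Int.negOnePow_add]

lemma parity_apply {L : Type*} [Field L] (w : Valuation L ℤᵐ⁰) (u : Lˣ) :
    parity w u = (WithZero.log (w u)).negOnePow := rfl

section Prime

variable {L : Type*} [Field L] [NumberField L]

/-- A nonunit of the form `1 - a t`. -/
lemma exists_not_isUnit (a : 𝓞 L) (ha : a ≠ 0) : ∃ t : ℕ, ¬ IsUnit (1 - a * (t : 𝓞 L)) := by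
  have haL : (a : L) ≠ 0 := RingOfIntegers.coe_ne_zero_iff.mpr ha
  have hpos : ∀ w : InfinitePlace L, 0 < w (a : L) := fun w => w.pos_iff.mpr haL
  have hex : ∀ w : InfinitePlace L, ∃ t : ℕ, 3 ≤ (t : ℝ) * w (a : L) := by
    intro w
    obtain ⟨t, ht⟩ := exists_nat_ge (3 / w (a : L))
    exact ⟨t, (div_le_iff₀ (hpos w)).mp ht⟩
  choose T hT using hex
  set t : ℕ := ∑ w, T w with ht
  have hTt : ∀ w, T w ≤ t := fun w => Finset.single_le_sum (fun _ _ => Nat.zero_le _)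
    (Finset.mem_univ w)
  refine ⟨t, fun hu => ?_⟩
  rw [NumberField.isUnit_iff_norm] at hu
  have h1 : ((RingOfIntegers.norm ℚ (1 - a * (t : 𝓞 L)) : 𝓞 ℚ) : ℚ) =
      Algebra.norm ℚ ((1 : L) - a * t) := by
    rw [RingOfIntegers.coe_norm]
    congr 1
  rw [h1] at hu
  have h2 := InfinitePlace.prod_eq_abs_norm ((1 : L) - a * t)
  rw [hu] at h2
  have h3 : ∀ w : InfinitePlace L, 2 ≤ w ((1 : L) - a * t) := by
    intro w
    have h4 : w ((a : L) * t) ≤ w ((1 : L) - a * t) + 1 := by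
      have h5 : (a : L) * t = 1 - ((1 : L) - a * t) := by ring
      have h6 : w ((a : L) * t) ≤ w 1 + w ((1 : L) - a * t) := by
        conv_lhs => rw [h5]
        rw [sub_eq_add_neg]
        refine (w.1.add_le' _ _).trans ?_
        have h7 : w.1 (-((1 : L) - a * t)) = w ((1 : L) - a * t) := w.1.map_neg _
        exact le_of_eq (by rw [← h7]; rfl)
      rw [map_one] at h6
      linarith
    have h8 : w ((a : L) * t) = w (a : L) * t := by
      rw [map_mul]
      congr 1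
      rw [← InfinitePlace.norm_embedding_eq w, map_natCast, Complex.norm_natCast]
    have h9 : (T w : ℝ) * w (a : L) ≤ (t : ℝ) * w (a : L) :=
      mul_le_mul_of_nonneg_right (by exact_mod_cast hTt w) (hpos w).le
    have h10 := hT w
    rw [h8] at h4
    linarith
  have h4 : (1 : ℝ) < ∏ w : InfinitePlace L, w ((1 : L) - a * t) ^ w.mult := by
    have h5 : ∏ _w : InfinitePlace L, (2 : ℝ) ≤
        ∏ w : InfinitePlace L, w ((1 : L) - a * t) ^ w.mult := by
      refine Finset.prod_le_prod (fun _ _ => by norm_num) fun w _ => ?_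
      calc (2 : ℝ) ≤ w ((1 : L) - a * t) := h3 w
        _ ≤ w ((1 : L) - a * t) ^ w.mult :=
          le_self_pow₀ (by linarith [h3 w]) InfinitePlace.mult_pos.ne'
    rw [Finset.prod_const] at h5
    refine lt_of_lt_of_le ?_ h5
    exact one_lt_pow₀ (by norm_num) (Finset.card_pos.mpr Finset.univ_nonempty).ne'
  rw [h2] at h4
  exact absurd h4 (by norm_num)

/-- A prime of a number field avoiding a given nonzero element at which `θ` is congruent to a
rational integer. -/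
lemma exists_prime_aux (B θ : 𝓞 L) (hB : B ≠ 0) (hθ : θ ≠ 0) :
    ∃ (P : HeightOneSpectrum (𝓞 L)) (n : ℤ), B ∉ P.asIdeal ∧ θ - n ∈ P.asIdeal := by
  have hI : ∀ x : 𝓞 L, x ≠ 0 → ∃ (m : ℤ) (x' : 𝓞 L), m ≠ 0 ∧ (m : 𝓞 L) = x * x' := by
    intro x hx
    have h1 := Ideal.absNorm_mem (Ideal.span {x})
    obtain ⟨x', hx'⟩ := Ideal.mem_span_singleton.mp h1
    refine ⟨(Ideal.absNorm (Ideal.span {x}) : ℤ), x', ?_, ?_⟩
    · intro h0
      have h2 : Ideal.absNorm (Ideal.span {x}) = 0 := by exact_mod_cast h0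
      rw [Ideal.absNorm_eq_zero_iff, Ideal.span_singleton_eq_bot] at h2
      exact hx h2
    · rw [← hx']
      simp
  obtain ⟨m, B', hm, hmB⟩ := hI B hB
  obtain ⟨c, θ', hc, hcθ⟩ := hI θ hθ
  have hθ' : θ' ≠ 0 := by
    rintro rfl
    rw [mul_zero] at hcθ
    exact hc (by exact_mod_cast hcθ)
  have hm' : (m : 𝓞 L) ≠ 0 := by exact_mod_cast hm
  obtain ⟨t, ht⟩ := exists_not_isUnit (θ' * (m : 𝓞 L)) (mul_ne_zero hθ' hm')
  obtain ⟨M, hM, hmem⟩ := exists_max_ideal_of_mem_nonunits (a := 1 - θ' * m * (t : 𝓞 L)) ht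
  have hMbot : M ≠ ⊥ := Ring.ne_bot_of_isMaximal_of_not_isField hM
    (NumberField.RingOfIntegers.not_isField L)
  refine ⟨⟨M, hM.isPrime, hMbot⟩, c * m * t, ?_, ?_⟩
  · intro hBM
    have hBM' : B ∈ M := hBM
    have h1 : (m : 𝓞 L) ∈ M := by
      rw [hmB]
      exact M.mul_mem_right _ hBM'
    have h2 : (1 : 𝓞 L) ∈ M := by
      have h3 : (1 : 𝓞 L) = (1 - θ' * m * (t : 𝓞 L)) + (θ' * t) * m := by ring
      rw [h3]
      exact M.add_mem hmem (M.mul_mem_left _ h1)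
    exact hM.ne_top ((Ideal.eq_top_iff_one M).mpr h2)
  · show θ - ((c * m * t : ℤ) : 𝓞 L) ∈ M
    have h3 : θ - ((c * m * t : ℤ) : 𝓞 L) = θ * (1 - θ' * m * (t : 𝓞 L)) := by
      push_cast
      rw [hcθ]
      ring
    rw [h3]
    exact M.mul_mem_left _ hmem

lemma exists_prime (B θ : 𝓞 L) (hB : B ≠ 0) :
    ∃ (P : HeightOneSpectrum (𝓞 L)) (n : ℤ), B ∉ P.asIdeal ∧ θ - n ∈ P.asIdeal := by
  by_cases hθ : θ = 0
  · obtain ⟨P, n, h1, h2⟩ := exists_prime_aux B 1 hB one_ne_zero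
    obtain ⟨Q, k, h3, h4⟩ := exists_prime_aux B (θ + 1) hB (by rw [hθ, zero_add]; exact one_ne_zero)
    refine ⟨Q, k - 1, h3, ?_⟩
    have h5 : θ - ((k - 1 : ℤ) : 𝓞 L) = θ + 1 - k := by
      push_cast
      ring
    rw [h5]
    exact h4
  · exact exists_prime_aux B θ hB hθ

end Prime

section Char

variable {F₀ L : Type*} [Field F₀] [Field L] [NumberField L] [Algebra F₀ L]
    [FiniteDimensional F₀ L]

omit [NumberField L] [FiniteDimensional F₀ L] in
lemma exists_coe_eq (σ : L ≃ₐ[F₀] L) (x : 𝓞 L) : ∃ y : 𝓞 L, (y : L) = σ (x : L) := by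
  have h1 : IsIntegral ℤ (σ (x : L)) := by
    have h2 : IsIntegral ℤ (x : L) := x.2
    exact h2.map ((σ : L →+* L).toIntAlgHom)
  exact ⟨⟨_, h1⟩, rfl⟩

omit [FiniteDimensional F₀ L] in
/-- An integral element with distinct conjugates. -/
lemma exists_theta : ∃ θ : 𝓞 L, ∀ σ : L ≃ₐ[F₀] L, σ ≠ 1 → σ (θ : L) ≠ θ := by
  obtain ⟨α, hα⟩ := Field.exists_primitive_element ℚ L
  obtain ⟨n, hn0, hn⟩ : ∃ n : ℤ, n ≠ 0 ∧ IsIntegral ℤ (n • α) := by
    have h1 : IsAlgebraic ℤ α := (IsFractionRing.isAlgebraic_iff ℤ ℚ L).mpr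
      (Algebra.IsAlgebraic.isAlgebraic α)
    obtain ⟨n, hn, h⟩ := h1.exists_integral_multiple
    exact ⟨n, hn, h⟩
  refine ⟨⟨n • α, hn⟩, fun σ hσ h => hσ ?_⟩
  have h1 : σ (n • α) = n • α := h
  rw [map_zsmul] at h1
  have h2 : σ α = α := smul_right_injective L hn0 h1
  -- `σ` is the identity on `ℚ(α) = L`
  have h3 : ∀ x : L, x ∈ (⊤ : IntermediateField ℚ L) → σ x = x := by
    intro x hx
    rw [← hα] at hx
    induction hx using IntermediateField.adjoin_induction with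
    | mem x hx =>
      rw [Set.mem_singleton_iff] at hx
      rw [hx, h2]
    | algebraMap x => exact map_ratCast σ x
    | add x y _ _ hx hy => rw [map_add, hx, hy]
    | inv x _ hx => rw [map_inv₀, hx]
    | mul x y _ _ hx hy => rw [map_mul, hx, hy]
  ext x
  exact h3 x IntermediateField.mem_top

/-- Module Char. For finitely many units there is a quadratic character `χ` trivial on them and a
unit `π` with `χ (π) = -1` and `χ (σ π) = 1` for all nontrivial `σ`. -/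
theorem exists_char (Z : Finset Lˣ) :
    ∃ (χ : Lˣ →* ℤˣ) (π : Lˣ), (∀ z ∈ Z, χ z = 1) ∧ χ π = -1 ∧
      ∀ σ : L ≃ₐ[F₀] L, σ ≠ 1 → χ (Units.map (σ : L →* L) π) = 1 := by
  classical
  obtain ⟨θ, hθ⟩ := exists_theta (F₀ := F₀) (L := L)
  choose S hS using fun σ : L ≃ₐ[F₀] L => exists_coe_eq σ θ
  set D : 𝓞 L := ∏ σ ∈ (Finset.univ.erase (1 : L ≃ₐ[F₀] L)), (θ - S σ) with hD
  have hD0 : D ≠ 0 := by
    rw [hD, Finset.prod_ne_zero_iff]
    intro σ hσ h0
    apply hθ σ (Finset.ne_of_mem_erase hσ)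
    rw [← hS σ, ← sub_eq_zero.mp h0]
  have hfr : ∀ z : Lˣ, ∃ a b : 𝓞 L, a ≠ 0 ∧ b ≠ 0 ∧ (z : L) = (a : L) / (b : L) := by
    intro z
    obtain ⟨a, b, hb, hab⟩ := IsFractionRing.div_surjective (A := 𝓞 L) (z : L)
    refine ⟨a, b, ?_, nonZeroDivisors.ne_zero hb, hab.symm⟩
    rintro rfl
    rw [map_zero, zero_div] at hab
    exact z.ne_zero hab.symm
  choose a b ha hb hab using hfr
  set B : 𝓞 L := D * ∏ z ∈ Z, (a z * b z) with hB
  have hB0 : B ≠ 0 := by
    refine mul_ne_zero hD0 (Finset.prod_ne_zero_iff.mpr fun z _ => mul_ne_zero (ha z) (hb z))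
  obtain ⟨P, n, hBP, hn⟩ := exists_prime B θ hB0
  set v := P.valuation L with hv
  set q : 𝓞 L := θ - n with hq
  have hint : ∀ x : 𝓞 L, v (x : L) ≤ 1 := fun x => P.valuation_le_one x
  have hintσ : ∀ (σ : L ≃ₐ[F₀] L) (x : 𝓞 L), v (σ (x : L)) ≤ 1 := by
    intro σ x
    obtain ⟨y, hy⟩ := exists_coe_eq σ x
    rw [← hy]
    exact hint y
  have hunit : ∀ x : 𝓞 L, x ∉ P.asIdeal → v (x : L) = 1 := fun x hx =>
    (P.valuation_eq_one_iff_notMem (K := L)).mpr hx
  have hvq : v (q : L) < 1 := (P.valuation_lt_one_iff_mem (K := L) q).mpr hn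
  have hBZ : ∀ z ∈ Z, a z * b z ∉ P.asIdeal := by
    intro z hz h
    apply hBP
    rw [hB]
    exact P.asIdeal.mul_mem_left _ (P.asIdeal.mem_of_dvd (Finset.dvd_prod_of_mem _ hz) h)
  have hqσ : ∀ σ : L ≃ₐ[F₀] L, σ ≠ 1 → v (σ (q : L)) = 1 := by
    intro σ hσ
    have h1 : ((S σ - (n : 𝓞 L) : 𝓞 L) : L) = σ (q : L) := by
      have h2 : ((S σ - (n : 𝓞 L) : 𝓞 L) : L) = (S σ : L) - (n : L) :=
        (map_sub (algebraMap (𝓞 L) L) (S σ) (n : 𝓞 L)).trans (by rw [map_intCast])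
      have h3 : (q : L) = (θ : L) - (n : L) :=
        (map_sub (algebraMap (𝓞 L) L) θ (n : 𝓞 L)).trans (by rw [map_intCast])
      rw [h2, h3, map_sub, map_intCast, hS]
    rw [← h1]
    apply hunit
    intro h
    apply hBP
    rw [hB]
    refine P.asIdeal.mul_mem_right _ ?_
    have h4 : θ - S σ ∈ P.asIdeal := by
      have h5 : θ - S σ = q - (S σ - (n : 𝓞 L)) := by rw [hq]; ring
      rw [h5]
      exact P.asIdeal.sub_mem hn h
    exact P.asIdeal.mem_of_dvd
      (Finset.dvd_prod_of_mem (fun σ => θ - S σ) (Finset.mem_erase.mpr ⟨hσ, Finset.mem_univ σ⟩)) h4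
  -- uniformizer
  obtain ⟨ϖ, hϖ⟩ := P.intValuation_exists_uniformizer
  have hvϖ : v (ϖ : L) = WithZero.exp (-1 : ℤ) := by
    rw [hv, ← hϖ]
    exact P.valuation_of_algebraMap ϖ
  set π₁ : L := (ϖ : L) * ∏ τ ∈ (Finset.univ.erase (1 : L ≃ₐ[F₀] L)), τ (q : L) with hπ₁
  have hvπ₁ : v π₁ = WithZero.exp (-1 : ℤ) := by
    rw [hπ₁, map_mul, hvϖ, map_prod, Finset.prod_eq_one, mul_one]
    intro τ hτ
    exact hqσ τ (Finset.ne_of_mem_erase hτ)
  have hq2 : v ((q : L) ^ 2) < WithZero.exp (-1 : ℤ) := by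
    rw [map_pow]
    rcases eq_or_ne (v (q : L)) 0 with h0 | h0
    · rw [h0, zero_pow two_ne_zero]
      exact WithZero.exp_pos
    · have h1 : WithZero.log (v (q : L)) < 0 := by
        rw [WithZero.log_lt_iff_lt_exp h0, WithZero.exp_zero]
        exact hvq
      have h2 : v (q : L) ^ 2 = WithZero.exp (2 * WithZero.log (v (q : L))) := by
        conv_lhs => rw [← WithZero.exp_log h0]
        rw [← WithZero.exp_nsmul]
        simp
      rw [h2, WithZero.exp_lt_exp]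
      omega
  have hvπ : v (π₁ + (q : L) ^ 2) = WithZero.exp (-1 : ℤ) := by
    rw [Valuation.map_add_eq_of_lt_left v (by rw [hvπ₁]; exact hq2), hvπ₁]
  have hπ0 : π₁ + (q : L) ^ 2 ≠ 0 := by
    intro h0
    rw [h0, map_zero] at hvπ
    exact WithZero.exp_ne_zero hvπ.symm
  refine ⟨parity v, Units.mk0 _ hπ0, ?_, ?_, ?_⟩
  · intro z hz
    have h1 : v (z : L) = 1 := by
      rw [hab z, map_div₀, hunit, hunit, div_one]
      · exact fun h => hBZ z hz (P.asIdeal.mul_mem_left _ h)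
      · exact fun h => hBZ z hz (P.asIdeal.mul_mem_right _ h)
    rw [parity_apply, h1, WithZero.log_one, Int.negOnePow_zero]
  · rw [parity_apply, Units.val_mk0, hvπ, WithZero.log_exp]
    rfl
  · intro σ hσ
    have h1 : ((Units.map (σ : L →* L) (Units.mk0 _ hπ0) : Lˣ) : L) = σ π₁ + (σ (q : L)) ^ 2 := by
      show σ (π₁ + (q : L) ^ 2) = _
      rw [map_add, map_pow]
    have h2 : v ((σ (q : L)) ^ 2) = 1 := by rw [map_pow, hqσ σ hσ, one_pow]
    have h3 : v (σ π₁) < 1 := by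
      rw [hπ₁, map_mul, map_mul, map_prod, map_prod]
      have hmem : σ⁻¹ ∈ Finset.univ.erase (1 : L ≃ₐ[F₀] L) := by
        rw [Finset.mem_erase]
        exact ⟨fun h => hσ (inv_eq_one.mp h), Finset.mem_univ _⟩
      rw [← Finset.mul_prod_erase _ _ hmem]
      have h4 : σ (σ⁻¹ (q : L)) = (q : L) := AlgEquiv.apply_symm_apply σ _
      rw [h4]
      have h5 : ∏ x ∈ (Finset.univ.erase (1 : L ≃ₐ[F₀] L)).erase σ⁻¹, v (σ (x (q : L))) ≤ 1 := by
        refine Finset.prod_le_one' fun τ _ => ?_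
        exact hintσ (σ * τ) q
      calc v (σ (ϖ : L)) * (v (q : L) *
            ∏ x ∈ (Finset.univ.erase (1 : L ≃ₐ[F₀] L)).erase σ⁻¹, v (σ (x (q : L))))
          ≤ 1 * (v (q : L) * 1) := mul_le_mul' (hintσ σ ϖ) (mul_le_mul' le_rfl h5)
        _ = v (q : L) := by rw [one_mul, mul_one]
        _ < 1 := hvq
    rw [parity_apply, h1, Valuation.map_add_eq_of_lt_right v (by rw [h2]; exact h3), h2,
      WithZero.log_one, Int.negOnePow_zero]

end Char

end Pool.Agent.MPab1e31
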