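import Mathlib

/-!
# Topologically finitely generated groups
-/

namespace Pool.Agent.MPab1e31

/-- A topological group is topologically finitely generated if some finite subset generates a
dense subgroup. -/
def IsTopFG (G : Type*) [Group G] [TopologicalSpace G] : Prop :=
  ∃ S : Finset G, Dense ((Subgroup.closure (S : Set G) : Subgroup G) : Set G)

end Pool.Agent.MPab1e31
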