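import Mathlib

/-!
# Points with a large abscissa are not torsion (duplication formula at a place above 2)
-/

open scoped WithZero

open WeierstrassCurve

namespace Pool.Agent.MPab1e31

section Field

variable {F : Type*} [Field F] [DecidableEq F] (E : WeierstrassCurve F)

/-- The numerator of the duplication formula. -/
def dblN {R : Type*} [CommRing R] (E : WeierstrassCurve R) (x : R) : R :=
  x ^ 4 - E.b₄ * x ^ 2 - 2 * E.b₆ * x - E.b₈

/-- The denominator of the duplication formula. -/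
def dblD {R : Type*} [CommRing R] (E : WeierstrassCurve R) (x : R) : R :=
  4 * x ^ 3 + E.b₂ * x ^ 2 + 2 * E.b₄ * x + E.b₆

omit [DecidableEq F] in
lemma dblD_eq {x y : F} (h : E.toAffine.Equation x y) :
    (y - E.toAffine.negY x y) ^ 2 = dblD E x := by
  rw [Affine.equation_iff] at h
  rw [dblD, Affine.negY, b₂, b₄, b₆]
  linear_combination 4 * h

lemma two_smul_some {x y : F} (h : E.toAffine.Nonsingular x y) (hD : dblD E x ≠ 0) :
    ∃ (y' : F) (h' : E.toAffine.Nonsingular (dblN E x / dblD E x) y'),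
      (2 : ℤ) • (Affine.Point.some _ _ h : E.toAffine.Point) = Affine.Point.some _ _ h' := by
  have hne : y ≠ E.toAffine.negY x y := by
    intro h0
    apply hD
    rw [← dblD_eq E h.1, sub_eq_zero.mpr h0]
    ring
  have hd : y - E.toAffine.negY x y ≠ 0 := sub_ne_zero.mpr hne
  have h1 := Affine.Point.add_self_of_Y_ne (W := E.toAffine) (h₁ := h) hne
  have hx : E.toAffine.addX x x (E.toAffine.slope x x y y) = dblN E x / dblD E x := by
    rw [Affine.slope_of_Y_ne rfl hne, ← dblD_eq E h.1, Affine.addX, dblN,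
      eq_div_iff (pow_ne_zero 2 hd)]
    have heq := (Affine.equation_iff x y).mp h.1
    have hneg : E.toAffine.negY x y = -y - E.a₁ * x - E.a₃ := rfl
    field_simp
    rw [hneg, b₄, b₆, b₈]
    linear_combination (-(E.a₁ ^ 2 + 4 * E.a₂ + 8 * x)) * heq
  rw [two_smul, h1]
  refine ⟨E.toAffine.addY x x y (E.toAffine.slope x x y y), ?_, ?_⟩
  · rw [← hx]
    exact Affine.nonsingular_add h h fun hxy => hne hxy.right
  · rw [Affine.Point.some.injEq]
    exact ⟨hx, rfl⟩

end Field

section Valuation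

variable {L : Type*} [Field L] [CharZero L] (W : WeierstrassCurve L) (w : Valuation L ℤᵐ⁰)

/-- The bound. -/
lemma exists_bound (hw : w 2 < 1) :
    ∃ C : ℤᵐ⁰, ∀ x : L, C < w x → dblD W x ≠ 0 ∧ w x < w (dblN W x / dblD W x) := by
  have h4 : w (4 : L) < 1 := by
    have : (4 : L) = 2 * 2 := by norm_num
    rw [this, map_mul]
    exact mul_lt_one_of_nonneg_of_lt_one_left zero_le hw hw.le
  have h40 : w (4 : L) ≠ 0 := by
    rw [Ne, map_eq_zero]
    norm_num
  have h2 : w (2 : L) ≤ 1 := hw.le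
  set b : ℤᵐ⁰ := 1 ⊔ w W.b₂ ⊔ w W.b₄ ⊔ w W.b₆ ⊔ w W.b₈ with hb
  have hb1 : 1 ≤ b := by
    rw [hb]; exact le_sup_of_le_left (le_sup_of_le_left (le_sup_of_le_left le_sup_left))
  have hb2 : w W.b₂ ≤ b := by
    rw [hb]; exact le_sup_of_le_left (le_sup_of_le_left (le_sup_of_le_left le_sup_right))
  have hb4 : w W.b₄ ≤ b := by
    rw [hb]; exact le_sup_of_le_left (le_sup_of_le_left le_sup_right)
  have hb6 : w W.b₆ ≤ b := by
    rw [hb]; exact le_sup_of_le_left le_sup_right
  have hb8 : w W.b₈ ≤ b := by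
    rw [hb]; exact le_sup_right
  refine ⟨b / w 4, fun x hx => ?_⟩
  set X := w x with hX
  have hbX : b < w 4 * X := by
    rw [div_lt_iff₀ (zero_lt_iff.mpr h40)] at hx
    rwa [mul_comm] at hx
  have hX1 : 1 < X := by
    by_contra hle
    push Not at hle
    have h5 : w 4 * X ≤ 1 * 1 := mul_le_mul' h4.le hle
    rw [one_mul] at h5
    exact absurd (hb1.trans_lt hbX) (not_lt.mpr h5)
  have hX0 : 0 < X := zero_lt_one.trans hX1
  have hbX' : b < X := by
    refine hbX.trans_le ?_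
    calc w 4 * X ≤ 1 * X := mul_le_mul_left h4.le X
      _ = X := one_mul X
  have hX2 : X ≤ X ^ 2 := by
    calc X = X ^ 1 := (pow_one X).symm
      _ ≤ X ^ 2 := pow_le_pow_right₀ hX1.le (by norm_num)
  have hX12 : 1 ≤ X ^ 2 := one_le_pow₀ hX1.le
  -- lower terms
  have hlow : ∀ a c : L, w a ≤ b → w c ≤ X ^ 2 → w (a * c) ≤ b * X ^ 2 := by
    intro a c ha hc
    rw [map_mul]
    exact mul_le_mul' ha hc
  have hw2x : w (2 * x) ≤ X ^ 2 := by
    rw [map_mul]
    calc w 2 * w x ≤ 1 * X := mul_le_mul' h2 le_rfl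
      _ = X := one_mul X
      _ ≤ X ^ 2 := hX2
  have hwx2 : w (x ^ 2) ≤ X ^ 2 := by rw [map_pow]
  have hw1 : w 1 ≤ X ^ 2 := by rw [map_one]; exact hX12
  have hN : w (dblN W x) = X ^ 4 := by
    have hrest : w (W.b₄ * x ^ 2 + W.b₆ * (2 * x) + W.b₈ * 1) ≤ b * X ^ 2 := by
      refine (w.map_add _ _).trans (max_le ((w.map_add _ _).trans (max_le ?_ ?_)) ?_)
      · exact hlow _ _ hb4 hwx2
      · exact hlow _ _ hb6 hw2x
      · exact hlow _ _ hb8 hw1
    have hlt : w (W.b₄ * x ^ 2 + W.b₆ * (2 * x) + W.b₈ * 1) < w (x ^ 4) := by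
      refine hrest.trans_lt ?_
      rw [map_pow]
      calc b * X ^ 2 < X * X ^ 2 := by
            exact mul_lt_mul_of_pos_right hbX' (pow_pos hX0 2)
        _ = X ^ 3 := by rw [← pow_succ']
        _ ≤ X ^ 4 := pow_le_pow_right₀ hX1.le (by norm_num)
    have h6 : dblN W x = x ^ 4 - (W.b₄ * x ^ 2 + W.b₆ * (2 * x) + W.b₈ * 1) := by
      rw [dblN]; ring
    rw [h6, Valuation.map_sub_eq_of_lt_left w hlt, map_pow]
  have hD : w (dblD W x) = w 4 * X ^ 3 := by
    have hrest : w (W.b₂ * x ^ 2 + W.b₄ * (2 * x) + W.b₆ * 1) ≤ b * X ^ 2 := by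
      refine (w.map_add _ _).trans (max_le ((w.map_add _ _).trans (max_le ?_ ?_)) ?_)
      · exact hlow _ _ hb2 hwx2
      · exact hlow _ _ hb4 hw2x
      · exact hlow _ _ hb6 hw1
    have hlt : w (W.b₂ * x ^ 2 + W.b₄ * (2 * x) + W.b₆ * 1) < w (4 * x ^ 3) := by
      refine hrest.trans_lt ?_
      rw [map_mul, map_pow]
      calc b * X ^ 2 < (w 4 * X) * X ^ 2 := by
            exact mul_lt_mul_of_pos_right hbX (pow_pos hX0 2)
        _ = w 4 * X ^ 3 := by rw [mul_assoc, ← pow_succ']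
    have h6 : dblD W x = 4 * x ^ 3 + (W.b₂ * x ^ 2 + W.b₄ * (2 * x) + W.b₆ * 1) := by
      rw [dblD]; ring
    rw [h6, Valuation.map_add_eq_of_lt_left w hlt, map_mul, map_pow]
  have hD0 : dblD W x ≠ 0 := by
    intro h0
    rw [h0, map_zero] at hD
    exact (mul_ne_zero h40 (pow_ne_zero 3 hX0.ne')) hD.symm
  refine ⟨hD0, ?_⟩
  rw [map_div₀, hN, hD, lt_div_iff₀ (zero_lt_iff.mpr (mul_ne_zero h40 (pow_ne_zero 3 hX0.ne')))]
  calc X * (w 4 * X ^ 3) = w 4 * X ^ 4 := by
        rw [mul_left_comm, ← pow_succ']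
    _ < 1 * X ^ 4 := mul_lt_mul_of_pos_right h4 (pow_pos hX0 4)
    _ = X ^ 4 := one_mul _

/-- Module NonTors. -/
theorem exists_bound_nontorsion {Ω : Type*} [Field Ω] [Algebra L Ω]
    [DecidableEq Ω] (hw : w 2 < 1) :
    ∃ C : ℤᵐ⁰, ∀ x : L, C < w x → ∀ (y : Ω)
      (h : (W.baseChange Ω).toAffine.Nonsingular (algebraMap L Ω x) y) (n : ℤ), n ≠ 0 →
      n • (WeierstrassCurve.Affine.Point.some _ _ h) ≠ 0 := by
  obtain ⟨C, hC⟩ := exists_bound W w hw
  refine ⟨C, fun x hx y h n hn h0 => ?_⟩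
  set P : (W.baseChange Ω).toAffine.Point := Affine.Point.some _ _ h with hP
  set D : L → L := fun x => dblN W x / dblD W x with hD
  have hmapN : ∀ x : L, dblN (W.baseChange Ω) (algebraMap L Ω x) = algebraMap L Ω (dblN W x) := by
    intro x
    simp only [dblN, WeierstrassCurve.baseChange, map_b₄, map_b₆, map_b₈, map_sub, map_mul,
      map_pow, map_ofNat]
  have hmapD : ∀ x : L, dblD (W.baseChange Ω) (algebraMap L Ω x) = algebraMap L Ω (dblD W x) := by
    intro x
    simp only [dblD, WeierstrassCurve.baseChange, map_b₂, map_b₄, map_b₆, map_add, map_mul,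
      map_pow, map_ofNat]
  have hbig : ∀ k : ℕ, C < w (D^[k] x) := by
    intro k
    induction k with
    | zero => exact hx
    | succ k ih =>
      rw [Function.iterate_succ_apply']
      exact ih.trans (hC _ ih).2
  have hmono : StrictMono fun k : ℕ => w (D^[k] x) := by
    refine strictMono_nat_of_lt_succ fun k => ?_
    rw [Function.iterate_succ_apply']
    exact (hC _ (hbig k)).2
  have hpts : ∀ k : ℕ, ∃ (y' : Ω)
      (h' : (W.baseChange Ω).toAffine.Nonsingular (algebraMap L Ω (D^[k] x)) y'),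
      ((2 : ℤ) ^ k) • P = Affine.Point.some _ _ h' := by
    intro k
    induction k with
    | zero => exact ⟨y, h, by rw [pow_zero, one_smul]; rfl⟩
    | succ k ih =>
      obtain ⟨y', h', e'⟩ := ih
      have hne : dblD (W.baseChange Ω) (algebraMap L Ω (D^[k] x)) ≠ 0 := by
        rw [hmapD, Ne, map_eq_zero]
        exact (hC _ (hbig k)).1
      obtain ⟨y'', h'', e''⟩ := two_smul_some (W.baseChange Ω) h' hne
      have hx' : dblN (W.baseChange Ω) (algebraMap L Ω (D^[k] x)) /
          dblD (W.baseChange Ω) (algebraMap L Ω (D^[k] x)) = algebraMap L Ω (D^[k + 1] x) := by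
        rw [hmapN, hmapD, ← map_div₀, Function.iterate_succ_apply']
      have h3 : (W.baseChange Ω).toAffine.Nonsingular (algebraMap L Ω (D^[k + 1] x)) y'' := by
        rw [← hx']; exact h''
      refine ⟨y'', h3, ?_⟩
      rw [pow_succ', mul_smul, e', e'', Affine.Point.some.injEq]
      exact ⟨hx', rfl⟩
  -- finiteness
  have hfin : IsOfFinAddOrder P := by
    rw [isOfFinAddOrder_iff_zsmul_eq_zero]
    exact ⟨n, hn, h0⟩
  have hfin2 : (Set.range fun k : ℕ => ((2 : ℤ) ^ k) • P).Finite := by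
    have h5 : Finite (AddSubgroup.zmultiples P) := finite_zmultiples.mpr hfin
    refine (Set.toFinite (AddSubgroup.zmultiples P : Set _)).subset ?_
    rintro _ ⟨k, rfl⟩
    exact AddSubgroup.zsmul_mem _ (AddSubgroup.mem_zmultiples P) _
  have hinj : Function.Injective fun k : ℕ => ((2 : ℤ) ^ k) • P := by
    intro i j hij
    obtain ⟨y1, h1, e1⟩ := hpts i
    obtain ⟨y2, h2, e2⟩ := hpts j
    have h6 : ((2 : ℤ) ^ i) • P = ((2 : ℤ) ^ j) • P := hij
    rw [e1, e2, Affine.Point.some.injEq] at h6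
    have h7 := (algebraMap L Ω).injective h6.1
    exact hmono.injective (congrArg w h7)
  exact (Set.infinite_range_of_injective hinj) hfin2

end Valuation

end Pool.Agent.MPab1e31
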