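import Pool.Agent.MPab1e31.Main
import Pool.Agent.MPab1e31.NonTors

/-!
# Infinite rank of elliptic curves over fields with topologically finitely generated Galois group
-/

open scoped WithZero TensorProduct

open WeierstrassCurve NumberField IsDedekindDomain Polynomial

namespace Pool.Agent.MPab1e31

section Rank

/-- Arbitrarily large independent families give infinite rank. -/
lemma not_finite_of_independent {A : Type*} [AddCommGroup A]
    (h : ∀ m : ℕ, ∃ v : Fin m → A, LinearIndependent ℤ v) :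
    ¬ Module.Finite ℚ (ℚ ⊗[ℤ] A) := by
  intro hfin
  obtain ⟨v, hv⟩ := h (Module.finrank ℚ (ℚ ⊗[ℤ] A) + 1)
  have : IsLocalizedModule (nonZeroDivisors ℤ) (TensorProduct.mk ℤ ℚ A 1) :=
    (isLocalizedModule_iff_isBaseChange (nonZeroDivisors ℤ) ℚ _).mpr
      (TensorProduct.isBaseChange ℤ A ℚ)
  have h1 := hv.of_isLocalizedModule ℚ (nonZeroDivisors ℤ) (TensorProduct.mk ℤ ℚ A 1)
  have h2 := h1.fintype_card_le_finrank
  rw [Fintype.card_fin] at h2
  omega

end Rank

section Valuation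

/-- A discrete valuation above 2. -/
lemma exists_valuation_two (L : Type*) [Field L] [NumberField L] :
    ∃ (w : Valuation L ℤᵐ⁰) (ϖ : L), w ϖ = WithZero.exp (-1) ∧ w 2 < 1 := by
  have h2 : ¬ IsUnit (2 : 𝓞 L) := by
    intro hu
    rw [NumberField.isUnit_iff_norm] at hu
    have h1 : ((RingOfIntegers.norm ℚ (2 : 𝓞 L) : 𝓞 ℚ) : ℚ) = 2 ^ Module.finrank ℚ L := by
      rw [RingOfIntegers.coe_norm]
      have h3 : ((2 : 𝓞 L) : L) = algebraMap ℚ L 2 := by
        rw [map_ofNat]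
        rfl
      rw [h3, Algebra.norm_algebraMap]
    rw [h1, abs_of_pos (by positivity)] at hu
    have h4 : Module.finrank ℚ L ≠ 0 := Module.finrank_pos.ne'
    exact absurd hu (one_lt_pow₀ (by norm_num) h4).ne'
  obtain ⟨M, hM, hmem⟩ := exists_max_ideal_of_mem_nonunits (a := (2 : 𝓞 L)) h2
  have hMbot : M ≠ ⊥ := Ring.ne_bot_of_isMaximal_of_not_isField hM
    (NumberField.RingOfIntegers.not_isField L)
  set P : HeightOneSpectrum (𝓞 L) := ⟨M, hM.isPrime, hMbot⟩ with hP
  obtain ⟨ϖ, hϖ⟩ := P.valuation_exists_uniformizer L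
  refine ⟨P.valuation L, ϖ, hϖ, ?_⟩
  have h5 := (P.valuation_lt_one_iff_mem (K := L) (2 : 𝓞 L)).mpr hmem
  have h6 : algebraMap (𝓞 L) L (2 : 𝓞 L) = 2 := map_ofNat (algebraMap (𝓞 L) L) 2
  rw [← h6]
  exact h5

end Valuation

section Curve

variable {F₀ K Ω : Type*} [Field F₀] [NumberField F₀] [Field K] [Field Ω]
    [Algebra F₀ K] [Algebra K Ω] [Algebra F₀ Ω] [IsScalarTower F₀ K Ω]
    [Algebra.IsAlgebraic F₀ K] [IsAlgClosed Ω] [Algebra.IsAlgebraic K Ω]

/-- The action of automorphisms on the points. -/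
noncomputable def galAct (W : WeierstrassCurve F₀) [DecidableEq Ω] :
    (Ω ≃ₐ[F₀] Ω) →* AddMonoid.End (W.baseChange Ω).toAffine.Point where
  toFun g := Affine.Point.map (W' := W) (g : Ω →ₐ[F₀] Ω)
  map_one' := by
    ext P
    rcases P with _ | ⟨x, y, h⟩ <;> rfl
  map_mul' g h := by
    ext P
    rcases P with _ | ⟨x, y, h⟩ <;> rfl

end Curve

section Pt

variable {Ω : Type*} [Field Ω] [CharZero Ω] (E : WeierstrassCurve Ω) [E.IsElliptic]

omit [E.IsElliptic] in
lemma equation_of_sq {x s : Ω}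
    (h : 4 * s ^ 2 = 4 * x ^ 3 + E.b₂ * x ^ 2 + 2 * E.b₄ * x + E.b₆) :
    E.toAffine.Equation x (s - (E.a₁ * x + E.a₃) / 2) := by
  rw [Affine.equation_iff]
  rw [b₂, b₄, b₆] at h
  linear_combination h / 4

open Classical in
/-- The point with abscissa `x` and `2 y + a₁ x + a₃ = 2 s`. -/
noncomputable def pt (x s : Ω) : E.toAffine.Point :=
  if h : 4 * s ^ 2 = 4 * x ^ 3 + E.b₂ * x ^ 2 + 2 * E.b₄ * x + E.b₆ then
    Affine.Point.mk (equation_of_sq E h)
  else 0

lemma pt_pos {x s : Ω} (h : 4 * s ^ 2 = 4 * x ^ 3 + E.b₂ * x ^ 2 + 2 * E.b₄ * x + E.b₆) :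
    pt E x s = Affine.Point.mk (equation_of_sq E h) := dif_pos h

lemma pt_neg {x s : Ω} (h : 4 * s ^ 2 = 4 * x ^ 3 + E.b₂ * x ^ 2 + 2 * E.b₄ * x + E.b₆) :
    pt E x (-s) = -pt E x s := by
  have h' : 4 * (-s) ^ 2 = 4 * x ^ 3 + E.b₂ * x ^ 2 + 2 * E.b₄ * x + E.b₆ := by
    rw [neg_sq, h]
  rw [pt_pos E h, pt_pos E h', Affine.Point.mk, Affine.Point.mk, Affine.Point.neg_some,
    Affine.Point.some.injEq]
  refine ⟨rfl, ?_⟩
  rw [Affine.negY]
  ring

end Pt

section Main

variable {F₀ K Ω : Type*} [Field F₀] [NumberField F₀] [Field K] [Field Ω]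
    [Algebra F₀ K] [Algebra K Ω] [Algebra F₀ Ω] [IsScalarTower F₀ K Ω]
    [Algebra.IsAlgebraic F₀ K] [IsAlgClosed Ω] [Algebra.IsAlgebraic K Ω]

omit [NumberField F₀] [IsAlgClosed Ω] in
lemma bound_baseChange {L : Type*} [Field L] [Algebra F₀ L] [Algebra L Ω] [IsScalarTower F₀ L Ω]
    [CharZero L] [DecidableEq Ω]
    (W : WeierstrassCurve F₀) (w : Valuation L ℤᵐ⁰) (hw : w 2 < 1) :
    ∃ C : ℤᵐ⁰, ∀ x : L, C < w x → ∀ (y : Ω)
      (h : (W.baseChange Ω).toAffine.Nonsingular (algebraMap L Ω x) y) (n : ℤ), n ≠ 0 →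
      n • (Affine.Point.some _ _ h) ≠ 0 := by
  have key : ∀ E : WeierstrassCurve Ω, E = (W.baseChange L).baseChange Ω →
      ∃ C : ℤᵐ⁰, ∀ x : L, C < w x → ∀ (y : Ω)
      (h : E.toAffine.Nonsingular (algebraMap L Ω x) y) (n : ℤ), n ≠ 0 →
      n • (Affine.Point.some _ _ h) ≠ 0 := by
    rintro E rfl
    exact exists_bound_nontorsion (W.baseChange L) w (Ω := Ω) hw
  refine key _ ?_
  rw [WeierstrassCurve.baseChange, WeierstrassCurve.baseChange, WeierstrassCurve.baseChange,
    WeierstrassCurve.map_map, ← IsScalarTower.algebraMap_eq]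

/-- Independent points fixed by the Galois group, over the algebraic closure. -/
theorem exists_points (hfg : IsTopFG (Ω ≃ₐ[K] Ω)) [DecidableEq Ω] (W : WeierstrassCurve F₀)
    [W.IsElliptic] (m : ℕ) :
    ∃ v : Fin m → (W.baseChange Ω).toAffine.Point, LinearIndependent ℤ v ∧
      ∀ (k : Fin m) (γ : Ω ≃ₐ[K] Ω), galAct W (γ.restrictScalars F₀) (v k) = v k := by
  have : Algebra.IsAlgebraic F₀ Ω := Algebra.IsAlgebraic.trans F₀ K Ω
  have : CharZero Ω := charZero_of_injective_algebraMap (algebraMap F₀ Ω).injective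
  have : (W.baseChange Ω).IsElliptic := inferInstanceAs (W.map (algebraMap F₀ Ω)).IsElliptic
  set L : IntermediateField F₀ Ω := IntermediateField.adjoin F₀ (W.Ψ₂Sq.rootSet Ω) with hL
  have hsplit : W.Ψ₂Sq.IsSplittingField F₀ L :=
    IntermediateField.adjoin_rootSet_isSplittingField (IsAlgClosed.splits _)
  have : FiniteDimensional F₀ L := Polynomial.IsSplittingField.finiteDimensional L W.Ψ₂Sq
  have : Normal F₀ L := Normal.of_isSplittingField W.Ψ₂Sq
  have : NumberField L := NumberField.of_module_finite F₀ L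
  set p : L[X] := W.Ψ₂Sq.map (algebraMap F₀ L) with hp
  have hps : p.Splits := Polynomial.IsSplittingField.splits L W.Ψ₂Sq
  have h4 : (4 : F₀) ≠ 0 := by norm_num
  have hdeg : p.natDegree = 3 := by
    rw [hp, Polynomial.natDegree_map]
    exact W.natDegree_Ψ₂Sq h4
  have hlead : p.leadingCoeff = 4 := by
    rw [Polynomial.leadingCoeff, hdeg, hp, Polynomial.coeff_map, W.coeff_Ψ₂Sq, map_ofNat]
  have hcard : Odd (Multiset.card p.roots) := by
    rw [← hps.natDegree_eq_card_roots, hdeg]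
    decide
  -- the value of the cubic
  have hval : ∀ (x : L) (s : Ω), s ^ 2 = (p.roots.map fun e : L => (x : Ω) - (e : Ω)).prod →
      4 * s ^ 2 = 4 * (x : Ω) ^ 3 + (W.baseChange Ω).b₂ * (x : Ω) ^ 2 +
        2 * (W.baseChange Ω).b₄ * (x : Ω) + (W.baseChange Ω).b₆ := by
    intro x s hs
    have h1 : (p.roots.map fun e : L => (x : Ω) - (e : Ω)).prod =
        algebraMap L Ω ((p.roots.map (x - ·)).prod) := by
      rw [map_multiset_prod, Multiset.map_map]
      rfl
    have h2 := hps.eval_eq_prod_roots x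
    rw [hlead] at h2
    have h3 := congrArg (algebraMap L Ω) h2
    rw [map_mul, ← h1, ← hs, map_ofNat] at h3
    rw [← h3, hp, Polynomial.eval_map, Polynomial.hom_eval₂, WeierstrassCurve.Ψ₂Sq]
    have h5 : (algebraMap L Ω).comp (algebraMap F₀ L) = algebraMap F₀ Ω :=
      (IsScalarTower.algebraMap_eq F₀ L Ω).symm
    rw [h5]
    simp only [WeierstrassCurve.baseChange, map_b₂, map_b₄, map_b₆, Polynomial.eval₂_add,
      Polynomial.eval₂_mul, Polynomial.eval₂_pow, Polynomial.eval₂_C, Polynomial.eval₂_X, map_mul,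
      map_ofNat, Polynomial.eval₂_ofNat]
    rfl
  obtain ⟨w, ϖ, hϖ, hw⟩ := exists_valuation_two L
  obtain ⟨C, hC⟩ := bound_baseChange (Ω := Ω) W w hw
  refine exists_independent (galAct W) L hfg p.roots hcard (pt (W.baseChange Ω)) ?_ ?_ w ϖ hϖ C ?_ m
  · intro x s hs
    exact pt_neg _ (hval x s hs)
  · intro g hg x s hs
    have h1 := hval x s hs
    have hgx : g (x : Ω) = x := hg x x.2
    have hs2 : (g s) ^ 2 = (p.roots.map fun e : L => (x : Ω) - (e : Ω)).prod := by
      rw [← map_pow, hs, map_multiset_prod, Multiset.map_map]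
      congr 1
      refine Multiset.map_congr rfl fun e _ => ?_
      show g ((x : Ω) - (e : Ω)) = _
      rw [map_sub, hgx, hg e e.2]
    have h2 := hval x (g s) hs2
    rw [pt_pos _ h1, pt_pos _ h2]
    show Affine.Point.some _ _ _ = Affine.Point.some _ _ _
    rw [Affine.Point.some.injEq]
    refine ⟨hgx, ?_⟩
    have ha1 : (W.baseChange Ω).a₁ = algebraMap F₀ Ω W.a₁ := rfl
    have ha3 : (W.baseChange Ω).a₃ = algebraMap F₀ Ω W.a₃ := rfl
    show g (s - ((W.baseChange Ω).a₁ * (x : Ω) + (W.baseChange Ω).a₃) / 2) = _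
    rw [ha1, ha3, map_sub, map_div₀, map_add, map_mul, hgx, AlgEquiv.commutes, AlgEquiv.commutes,
      map_ofNat]
  · intro x hx s hs n hn
    rw [pt_pos _ (hval x s hs)]
    exact hC x hx _ _ n hn

omit [NumberField F₀] [Algebra.IsAlgebraic F₀ K] in
/-- Points fixed by the Galois group are rational. -/
lemma exists_rational [CharZero K] [DecidableEq Ω] [DecidableEq K] (W : WeierstrassCurve F₀)
    (P : (W.baseChange Ω).toAffine.Point)
    (hP : ∀ γ : Ω ≃ₐ[K] Ω, galAct W (γ.restrictScalars F₀) P = P) :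
    ∃ Q : (W.baseChange K).toAffine.Point,
      Affine.Point.map (W' := W) (IsScalarTower.toAlgHom F₀ K Ω) Q = P := by
  have : IsAlgClosure K Ω := ⟨inferInstance, inferInstance⟩
  have : Normal K Ω := IsAlgClosure.normal K Ω
  have : IsGalois K Ω := ⟨⟩
  rcases P with _ | ⟨x, y, h⟩
  · exact ⟨0, rfl⟩
  · have h1 : ∀ γ : Ω ≃ₐ[K] Ω, γ x = x ∧ γ y = y := by
      intro γ
      have h2 := hP γ
      have h3 : Affine.Point.map (W' := W) ((γ.restrictScalars F₀ : Ω ≃ₐ[F₀] Ω) : Ω →ₐ[F₀] Ω)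
        (Affine.Point.some x y h) = Affine.Point.some x y h := h2
      rw [Affine.Point.map_some, Affine.Point.some.injEq] at h3
      exact h3
    obtain ⟨a, ha⟩ := (InfiniteGalois.mem_range_algebraMap_iff_fixed (k := K) (K := Ω) x).mpr
      fun γ => (h1 γ).1
    obtain ⟨b, hb⟩ := (InfiniteGalois.mem_range_algebraMap_iff_fixed (k := K) (K := Ω) y).mpr
      fun γ => (h1 γ).2
    have h4 : (W.baseChange K).toAffine.Nonsingular a b := by
      refine (Affine.baseChange_nonsingular (W := W) (f := IsScalarTower.toAlgHom F₀ K Ω)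
        (IsScalarTower.toAlgHom F₀ K Ω).injective a b).mp ?_
      show (W.baseChange Ω).toAffine.Nonsingular (algebraMap K Ω a) (algebraMap K Ω b)
      rw [ha, hb]
      exact h
    refine ⟨Affine.Point.some a b h4, ?_⟩
    rw [Affine.Point.map_some, Affine.Point.some.injEq]
    exact ⟨ha, hb⟩

/-- Independent rational points. -/
theorem exists_rational_points [CharZero K] (hfg : IsTopFG (Ω ≃ₐ[K] Ω)) [DecidableEq K]
    (W : WeierstrassCurve F₀) [W.IsElliptic] (m : ℕ) :
    ∃ v : Fin m → (W.baseChange K).toAffine.Point, LinearIndependent ℤ v := by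
  classical
  obtain ⟨v, hv, hγ⟩ := exists_points (K := K) hfg W m
  choose u hu using fun k => exists_rational W (v k) (hγ k)
  refine ⟨u, ?_⟩
  have h1 : (fun k => (Affine.Point.map (W' := W) (IsScalarTower.toAlgHom F₀ K Ω)).toIntLinearMap
      (u k)) = v := by
    funext k
    exact hu k
  refine LinearIndependent.of_comp
    (Affine.Point.map (W' := W) (IsScalarTower.toAlgHom F₀ K Ω)).toIntLinearMap ?_
  show LinearIndependent ℤ (fun k => (Affine.Point.map (W' := W)
    (IsScalarTower.toAlgHom F₀ K Ω)).toIntLinearMap (u k))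
  rw [h1]
  exact hv

end Main

section Result

/-- An elliptic curve over an algebraic extension of `ℚ` is defined over a number field. -/
lemma exists_model (K : Type*) [Field K] [CharZero K] [Algebra.IsAlgebraic ℚ K]
    (W : WeierstrassCurve K) :
    ∃ (F₀ : IntermediateField ℚ K) (_ : FiniteDimensional ℚ F₀) (W₀ : WeierstrassCurve F₀),
      W₀.baseChange K = W := by
  set F₀ : IntermediateField ℚ K := IntermediateField.adjoin ℚ {W.a₁, W.a₂, W.a₃, W.a₄, W.a₆}
    with hF₀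
  have hfin : FiniteDimensional ℚ F₀ :=
    IntermediateField.finiteDimensional_adjoin (S := ({W.a₁, W.a₂, W.a₃, W.a₄, W.a₆} : Set K))
      fun x _ => (Algebra.IsAlgebraic.isAlgebraic (R := ℚ) x).isIntegral
  have hmem : ∀ x ∈ ({W.a₁, W.a₂, W.a₃, W.a₄, W.a₆} : Set K), x ∈ F₀ := fun x hx =>
    IntermediateField.subset_adjoin ℚ _ hx
  refine ⟨F₀, hfin, ⟨⟨W.a₁, hmem _ (by simp)⟩, ⟨W.a₂, hmem _ (by simp)⟩, ⟨W.a₃, hmem _ (by simp)⟩,
    ⟨W.a₄, hmem _ (by simp)⟩, ⟨W.a₆, hmem _ (by simp)⟩⟩, rfl⟩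

/-- **Infinite rank.** Let `K` be an algebraic extension of `ℚ` whose absolute Galois group is
topologically finitely generated and `E` an elliptic curve over `K`. Then `E(K) ⊗ ℚ` is infinite
dimensional. -/
theorem infinite_rank (K : Type*) [Field K] [CharZero K] [Algebra.IsAlgebraic ℚ K]
    (hK : IsTopFG (AlgebraicClosure K ≃ₐ[K] AlgebraicClosure K)) [DecidableEq K]
    (W : WeierstrassCurve K) [hW : W.IsElliptic] :
    ¬ Module.Finite ℚ (ℚ ⊗[ℤ] W.toAffine.Point) := by
  obtain ⟨F₀, hfin, W₀, rfl⟩ := exists_model K W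
  have : NumberField F₀ := ⟨⟩
  have : Algebra.IsAlgebraic F₀ K := Algebra.IsAlgebraic.tower_top (K := ℚ) F₀
  have : W₀.IsElliptic := by
    refine ⟨?_⟩
    have h1 := hW.isUnit
    rw [WeierstrassCurve.baseChange, WeierstrassCurve.map_Δ] at h1
    rw [isUnit_iff_ne_zero] at h1 ⊢
    intro h0
    rw [h0, map_zero] at h1
    exact h1 rfl
  exact not_finite_of_independent fun m =>
    exists_rational_points (F₀ := F₀) (Ω := AlgebraicClosure K) hK W₀ m

end Result

end Pool.Agent.MPab1e31
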