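import Mathlib

/-!
# The coordinate ring `k[X][y]/(y² = f)` and Galois descent
-/

open Polynomial

namespace Pool.Agent.MPab1e31

/-- The coordinate ring `k[X][y]/(y² = f)`; its elements are `re + im * y`. -/
abbrev QA (k : Type*) [Field k] (f : k[X]) := QuadraticAlgebra k[X] f 0

section Domain

variable {k : Type*} [Field k] {f : k[X]}

lemma qa_norm_eq (z : QA k f) : z.norm = z.re ^ 2 - f * z.im ^ 2 := by
  rw [QuadraticAlgebra.norm_def]
  ring

lemma qa_eq_zero_of_norm (hf : Odd f.natDegree) {z : QA k f} (hz : z.norm = 0) : z = 0 := by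
  rw [qa_norm_eq, sub_eq_zero] at hz
  have hf0 : f ≠ 0 := by
    rintro rfl
    rw [natDegree_zero] at hf
    exact absurd hf (by decide)
  by_cases him : z.im = 0
  · rw [him, zero_pow two_ne_zero, mul_zero] at hz
    have hre : z.re = 0 := pow_eq_zero_iff two_ne_zero |>.mp hz
    exact QuadraticAlgebra.ext hre him
  · exfalso
    have h1 := congrArg natDegree hz
    rw [natDegree_pow, natDegree_mul hf0 (pow_ne_zero 2 him), natDegree_pow] at h1
    obtain ⟨m, hm⟩ := hf
    omega

lemma qa_isDomain (hf : Odd f.natDegree) : IsDomain (QA k f) := by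
  have : NoZeroDivisors (QA k f) := by
    refine ⟨fun {a b} hab => ?_⟩
    have h1 : a.norm * b.norm = 0 := by
      rw [← map_mul, hab]
      exact QuadraticAlgebra.norm_zero
    rcases mul_eq_zero.mp h1 with h | h
    · exact Or.inl (qa_eq_zero_of_norm hf h)
    · exact Or.inr (qa_eq_zero_of_norm hf h)
  exact NoZeroDivisors.to_isDomain _

end Domain

section Map

variable {k k' k'' : Type*} [Field k] [Field k'] [Field k'']

/-- Coefficientwise map. -/
noncomputable def qmap (g : k →+* k') {f : k[X]} {f' : k'[X]} (h : f.map g = f') : QA k f →+* QA k' f' where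
  toFun z := ⟨z.re.map g, z.im.map g⟩
  map_one' := by
    ext <;> simp [QuadraticAlgebra.re_one, QuadraticAlgebra.im_one]
  map_zero' := by
    ext <;> simp
  map_add' a b := by
    ext <;> simp
  map_mul' a b := by
    subst h
    ext <;> simp

variable (g : k →+* k') {f : k[X]} {f' : k'[X]} (h : f.map g = f')

@[simp] lemma qmap_re (z : QA k f) : (qmap g h z).re = z.re.map g := rfl

@[simp] lemma qmap_im (z : QA k f) : (qmap g h z).im = z.im.map g := rfl

lemma qmap_injective : Function.Injective (qmap g h) := by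
  intro a b hab
  have h1 := congrArg QuadraticAlgebra.re hab
  have h2 := congrArg QuadraticAlgebra.im hab
  exact QuadraticAlgebra.ext (Polynomial.map_injective g g.injective h1)
    (Polynomial.map_injective g g.injective h2)

lemma qmap_qmap (g' : k' →+* k'') {f'' : k''[X]} (h' : f'.map g' = f'') (z : QA k f) :
    qmap g' h' (qmap g h z) =
      qmap (g'.comp g) (by rw [← Polynomial.map_map, h, h']) z := by
  ext <;> simp [Polynomial.map_map]

end Map

section Descent

variable {K Ω : Type*} [Field K] [Field Ω] [Algebra K Ω]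

/-- Coefficientwise linear map. -/
noncomputable def cwl {M : Type*} [Field M] [Algebra K M] (π : M →ₗ[K] K) (p : M[X]) : K[X] :=
  ∑ n ∈ p.support, monomial n (π (p.coeff n))

lemma coeff_cwl {M : Type*} [Field M] [Algebra K M] (π : M →ₗ[K] K) (p : M[X]) (n : ℕ) :
    (cwl π p).coeff n = π (p.coeff n) := by
  rw [cwl, finsetSum_coeff]
  simp only [coeff_monomial]
  rw [Finset.sum_ite_eq' p.support n]
  split_ifs with h
  · rfl
  · rw [notMem_support_iff.mp h, map_zero]

variable (f : K[X])

/-- Elements with coefficients in a finite Galois extension lie in the span of their traces. -/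
lemma descent_aux {M : Type*} [Field M] [Algebra K M] [FiniteDimensional K M] [IsGalois K M]
    [Algebra M Ω] [IsScalarTower K M Ω] [Normal K Ω]
    (I : Ideal (QA Ω (f.map (algebraMap K Ω))))
    (hI : ∀ (γ : Ω ≃ₐ[K] Ω) (h : (f.map (algebraMap K Ω)).map (γ : Ω →+* Ω) =
      f.map (algebraMap K Ω)), ∀ z ∈ I, qmap (γ : Ω →+* Ω) h z ∈ I)
    (hM : (f.map (algebraMap K M)).map (algebraMap M Ω) = f.map (algebraMap K Ω))
    (z : QA M (f.map (algebraMap K M))) (hz : qmap (algebraMap M Ω) hM z ∈ I) :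
    qmap (algebraMap M Ω) hM z ∈ (I.comap (qmap (algebraMap K Ω) rfl)).map
      (qmap (algebraMap K Ω) rfl : QA K f →+* QA Ω (f.map (algebraMap K Ω))) := by
  classical
  set b := Module.finBasis K M with hb
  set B := Algebra.traceForm K M with hB
  have hBn : B.Nondegenerate := traceForm_nondegenerate K M
  set d := B.dualBasis hBn b with hd
  set π : Fin (Module.finrank K M) → (M →ₗ[K] K) := fun i => B.flip (b i) with hπ
  have hπv : ∀ i x, π i x = Algebra.trace K M (x * b i) := fun i x => rfl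
  set zi : Fin (Module.finrank K M) → QA K f := fun i => ⟨cwl (π i) z.re, cwl (π i) z.im⟩ with hzi
  -- Claim 1
  have hγ : ∀ γ : Ω ≃ₐ[K] Ω, (f.map (algebraMap K Ω)).map (γ : Ω →+* Ω) =
      f.map (algebraMap K Ω) := by
    intro γ
    rw [Polynomial.map_map]
    congr 1
    ext x
    exact γ.commutes x
  have key : ∀ (p : M[X]) (i : Fin (Module.finrank K M)), (cwl (π i) p).map (algebraMap K Ω) =
      ∑ σ : M ≃ₐ[K] M, C (algebraMap M Ω (σ (b i))) *
        (p.map (algebraMap M Ω)).map ((σ.liftNormal Ω : Ω ≃ₐ[K] Ω) : Ω →+* Ω) := by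
    intro p i
    ext n
    rw [coeff_map, coeff_cwl, hπv, finsetSum_coeff, IsScalarTower.algebraMap_apply K M Ω,
      trace_eq_sum_automorphisms, map_sum]
    refine Finset.sum_congr rfl fun σ _ => ?_
    rw [coeff_C_mul, coeff_map, coeff_map, map_mul, map_mul, mul_comm]
    congr 1
    exact (AlgEquiv.liftNormal_commutes σ Ω (p.coeff n)).symm
  have h1 : ∀ i, qmap (algebraMap K Ω) rfl (zi i) = ∑ σ : M ≃ₐ[K] M,
      (QuadraticAlgebra.C (C (algebraMap M Ω (σ (b i)))) : QA Ω (f.map (algebraMap K Ω))) *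
        qmap ((σ.liftNormal Ω : Ω ≃ₐ[K] Ω) : Ω →+* Ω) (hγ _) (qmap (algebraMap M Ω) hM z) := by
    intro i
    have hre : ∀ (s : Finset (M ≃ₐ[K] M)) (F : (M ≃ₐ[K] M) → QA Ω (f.map (algebraMap K Ω))),
        (∑ σ ∈ s, F σ).re = ∑ σ ∈ s, (F σ).re := fun s F =>
      map_sum (QuadraticAlgebra.reₗ (f.map (algebraMap K Ω)) 0) F s
    have him : ∀ (s : Finset (M ≃ₐ[K] M)) (F : (M ≃ₐ[K] M) → QA Ω (f.map (algebraMap K Ω))),
        (∑ σ ∈ s, F σ).im = ∑ σ ∈ s, (F σ).im := fun s F =>
      map_sum (QuadraticAlgebra.imₗ (f.map (algebraMap K Ω)) 0) F s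
    refine QuadraticAlgebra.ext ?_ ?_
    · rw [hre, qmap_re, key]
      refine Finset.sum_congr rfl fun σ _ => ?_
      rw [QuadraticAlgebra.re_mul, QuadraticAlgebra.re_C, QuadraticAlgebra.im_C]
      simp
    · rw [him, qmap_im, key]
      refine Finset.sum_congr rfl fun σ _ => ?_
      rw [QuadraticAlgebra.im_mul, QuadraticAlgebra.re_C, QuadraticAlgebra.im_C]
      simp
  have h2 : ∀ i, zi i ∈ I.comap (qmap (algebraMap K Ω) rfl) := by
    intro i
    rw [Ideal.mem_comap, h1]
    exact Ideal.sum_mem _ fun σ _ => Ideal.mul_mem_left _ _ (hI _ _ _ hz)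
  -- Claim 2
  have key2 : ∀ p : M[X], p.map (algebraMap M Ω) =
      ∑ i, C (algebraMap M Ω (d i)) * (cwl (π i) p).map (algebraMap K Ω) := by
    intro p
    ext n
    rw [coeff_map, finsetSum_coeff]
    have h3 := d.sum_repr (p.coeff n)
    conv_lhs => rw [← h3]
    rw [map_sum]
    refine Finset.sum_congr rfl fun i _ => ?_
    rw [coeff_C_mul, coeff_map, coeff_cwl, hd, LinearMap.BilinForm.dualBasis_repr_apply,
      Algebra.smul_def, map_mul, ← IsScalarTower.algebraMap_apply K M Ω, mul_comm]
    rfl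
  have h4 : qmap (algebraMap M Ω) hM z = ∑ i,
      (QuadraticAlgebra.C (C (algebraMap M Ω (d i))) : QA Ω (f.map (algebraMap K Ω))) *
        qmap (algebraMap K Ω) rfl (zi i) := by
    have hre : ∀ (s : Finset (Fin (Module.finrank K M)))
        (F : Fin (Module.finrank K M) → QA Ω (f.map (algebraMap K Ω))),
        (∑ σ ∈ s, F σ).re = ∑ σ ∈ s, (F σ).re := fun s F =>
      map_sum (QuadraticAlgebra.reₗ (f.map (algebraMap K Ω)) 0) F s
    have him : ∀ (s : Finset (Fin (Module.finrank K M)))
        (F : Fin (Module.finrank K M) → QA Ω (f.map (algebraMap K Ω))),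
        (∑ σ ∈ s, F σ).im = ∑ σ ∈ s, (F σ).im := fun s F =>
      map_sum (QuadraticAlgebra.imₗ (f.map (algebraMap K Ω)) 0) F s
    refine QuadraticAlgebra.ext ?_ ?_
    · rw [hre, qmap_re, key2]
      refine Finset.sum_congr rfl fun i _ => ?_
      rw [QuadraticAlgebra.re_mul, QuadraticAlgebra.re_C, QuadraticAlgebra.im_C]
      simp [hzi]
    · rw [him, qmap_im, key2]
      refine Finset.sum_congr rfl fun i _ => ?_
      rw [QuadraticAlgebra.im_mul, QuadraticAlgebra.re_C, QuadraticAlgebra.im_C]
      simp [hzi]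
  rw [h4]
  exact Ideal.sum_mem _ fun i _ => Ideal.mul_mem_left _ _ (Ideal.mem_map_of_mem _ (h2 i))

/-- **Galois descent of ideals.** -/
theorem descent_ideal [IsGalois K Ω] (I : Ideal (QA Ω (f.map (algebraMap K Ω))))
    (hI : ∀ (γ : Ω ≃ₐ[K] Ω) (h : (f.map (algebraMap K Ω)).map (γ : Ω →+* Ω) =
      f.map (algebraMap K Ω)), ∀ z ∈ I, qmap (γ : Ω →+* Ω) h z ∈ I) :
    (I.comap (qmap (algebraMap K Ω) rfl)).map
      (qmap (algebraMap K Ω) rfl : QA K f →+* QA Ω (f.map (algebraMap K Ω))) = I := by
  classical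
  refine le_antisymm Ideal.map_comap_le fun z hz => ?_
  set s : Finset Ω := z.re.coeffs ∪ z.im.coeffs with hs
  set M := FiniteGaloisIntermediateField.adjoin K (s : Set Ω) with hMdef
  have hsM : ∀ x ∈ s, x ∈ M.toIntermediateField := fun x hx =>
    FiniteGaloisIntermediateField.subset_adjoin K (s : Set Ω) hx
  have hlift : ∀ p : Polynomial Ω, (∀ n, p.coeff n ∈ M.toIntermediateField) →
      ∃ q : Polynomial M.toIntermediateField, q.map (algebraMap M.toIntermediateField Ω) = p := by
    intro p hp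
    have h1 : p ∈ Polynomial.lifts (algebraMap M.toIntermediateField Ω) := by
      rw [Polynomial.lifts_iff_coeff_lifts]
      intro n
      exact ⟨⟨p.coeff n, hp n⟩, rfl⟩
    exact Polynomial.mem_lifts _ |>.mp h1
  have hco : ∀ p : Polynomial Ω, p.coeffs ⊆ s → ∀ n, p.coeff n ∈ M.toIntermediateField := by
    intro p hp n
    by_cases h0 : p.coeff n = 0
    · rw [h0]
      exact zero_mem _
    · exact hsM _ (hp (Polynomial.coeff_mem_coeffs h0))
  obtain ⟨a, ha⟩ := hlift z.re (hco _ Finset.subset_union_left)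
  obtain ⟨b, hb⟩ := hlift z.im (hco _ Finset.subset_union_right)
  have hM : (f.map (algebraMap K M.toIntermediateField)).map (algebraMap M.toIntermediateField Ω) =
      f.map (algebraMap K Ω) := by
    rw [Polynomial.map_map, ← IsScalarTower.algebraMap_eq]
  have h1 : qmap (algebraMap M.toIntermediateField Ω) hM
      (⟨a, b⟩ : QA M.toIntermediateField (f.map (algebraMap K M.toIntermediateField))) = z :=
    QuadraticAlgebra.ext ha hb
  rw [← h1] at hz ⊢
  exact descent_aux f I hI hM _ hz

/-- Ideals are contracted from their extensions. -/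
theorem comap_map_qmap (I : Ideal (QA K f)) :
    (I.map (qmap (algebraMap K Ω) rfl : QA K f →+* QA Ω (f.map (algebraMap K Ω)))).comap
      (qmap (algebraMap K Ω) rfl) = I := by
  classical
  refine le_antisymm (fun w hw => ?_) Ideal.le_comap_map
  obtain ⟨π, hπ⟩ := (Algebra.linearMap K Ω).exists_leftInverse_of_injective
    (LinearMap.ker_eq_bot.mpr (algebraMap K Ω).injective)
  have hπ1 : ∀ x : K, π (algebraMap K Ω x) = x := fun x => LinearMap.congr_fun hπ x
  have hadd : ∀ p q : Polynomial Ω, cwl π (p + q) = cwl π p + cwl π q := by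
    intro p q
    ext n
    simp [coeff_cwl]
  have hmul : ∀ (p : Polynomial Ω) (q : K[X]), cwl π (p * q.map (algebraMap K Ω)) = cwl π p * q := by
    intro p q
    ext n
    rw [coeff_cwl, coeff_mul, coeff_mul, map_sum]
    refine Finset.sum_congr rfl fun x _ => ?_
    rw [coeff_map, coeff_cwl, mul_comm, ← Algebra.smul_def, map_smul, smul_eq_mul, mul_comm]
  have hid : ∀ q : K[X], cwl π (q.map (algebraMap K Ω)) = q := by
    intro q
    ext n
    rw [coeff_cwl, coeff_map, hπ1]
  have hzero : cwl π (0 : Polynomial Ω) = 0 := by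
    ext n
    simp [coeff_cwl]
  set P : QA Ω (f.map (algebraMap K Ω)) → QA K f := fun z => ⟨cwl π z.re, cwl π z.im⟩ with hP
  have hPmul : ∀ (z : QA Ω (f.map (algebraMap K Ω))) (w : QA K f),
      P (z * qmap (algebraMap K Ω) rfl w) = P z * w := by
    intro z w
    refine QuadraticAlgebra.ext ?_ ?_
    · show cwl π (z * qmap (algebraMap K Ω) rfl w).re = (P z * w).re
      rw [QuadraticAlgebra.re_mul, QuadraticAlgebra.re_mul, qmap_re, qmap_im, hadd, hmul,
        mul_comm (f.map (algebraMap K Ω)) (z.im), mul_assoc, ← Polynomial.map_mul, hmul]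
      show cwl π z.re * w.re + cwl π z.im * (f * w.im) = cwl π z.re * w.re + f * cwl π z.im * w.im
      ring
    · show cwl π (z * qmap (algebraMap K Ω) rfl w).im = (P z * w).im
      rw [QuadraticAlgebra.im_mul, QuadraticAlgebra.im_mul, qmap_re, qmap_im, zero_mul, zero_mul,
        zero_mul, add_zero, zero_mul, add_zero, hadd, hmul, hmul]
  have hPadd : ∀ z z' : QA Ω (f.map (algebraMap K Ω)), P (z + z') = P z + P z' := by
    intro z z'
    refine QuadraticAlgebra.ext ?_ ?_
    · exact hadd _ _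
    · exact hadd _ _
  have hPid : ∀ w : QA K f, P (qmap (algebraMap K Ω) rfl w) = w := fun w =>
    QuadraticAlgebra.ext (hid _) (hid _)
  have hP0 : P 0 = 0 := QuadraticAlgebra.ext hzero hzero
  have key : ∀ z ∈ I.map (qmap (algebraMap K Ω) rfl : QA K f →+* QA Ω (f.map (algebraMap K Ω))),
      ∀ t, P (t * z) ∈ I := by
    intro z hz
    refine Submodule.span_induction ?_ ?_ ?_ ?_ hz
    · rintro _ ⟨w, hw, rfl⟩ t
      rw [hPmul]
      exact Ideal.mul_mem_left _ _ hw
    · intro t
      rw [mul_zero, hP0]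
      exact zero_mem _
    · intro a b _ _ ha hb t
      rw [mul_add, hPadd]
      exact add_mem (ha t) (hb t)
    · intro a b _ hb t
      rw [smul_eq_mul, ← mul_assoc]
      exact hb _
  have h1 := key _ (Ideal.mem_comap.mp hw) 1
  rwa [one_mul, hPid] at h1

end Descent

end Pool.Agent.MPab1e31
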