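import Pool.Agent.MPab1e31.ICl
import Pool.Agent.MPab1e31.QAlg

/-!
# Galois invariant ideal classes are, up to a multiple, extended from the base
-/

open Polynomial

namespace Pool.Agent.MPab1e31

section

variable {K Ω : Type*} [Field K] [Field Ω] [Algebra K Ω] (f : K[X])

lemma map_aut (γ : Ω ≃ₐ[K] Ω) : (f.map (algebraMap K Ω)).map (γ : Ω →+* Ω) =
    f.map (algebraMap K Ω) := by
  rw [Polynomial.map_map]
  congr 1
  ext x
  exact γ.commutes x

/-- The Galois action on the coordinate ring. -/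
noncomputable def act (γ : Ω ≃ₐ[K] Ω) :
    QA Ω (f.map (algebraMap K Ω)) →+* QA Ω (f.map (algebraMap K Ω)) :=
  qmap (γ : Ω →+* Ω) (map_aut f γ)

lemma act_injective (γ : Ω ≃ₐ[K] Ω) : Function.Injective (act f γ) := qmap_injective _ _

lemma act_mul (γ γ' : Ω ≃ₐ[K] Ω) : act f (γ * γ') = (act f γ).comp (act f γ') := by
  refine RingHom.ext fun z => ?_
  rw [RingHom.comp_apply, act, act, act, qmap_qmap]
  rfl

/-- The extension of scalars. -/
noncomputable def ext : QA K f →+* QA Ω (f.map (algebraMap K Ω)) := qmap (algebraMap K Ω) rfl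

lemma ext_injective : Function.Injective (ext f : QA K f →+* QA Ω (f.map (algebraMap K Ω))) :=
  qmap_injective _ _

lemma exists_ext_of_fixed [IsGalois K Ω] (z : QA Ω (f.map (algebraMap K Ω)))
    (hz : ∀ γ : Ω ≃ₐ[K] Ω, act f γ z = z) : ∃ w : QA K f, ext f w = z := by
  have key : ∀ p : Polynomial Ω, (∀ γ : Ω ≃ₐ[K] Ω, p.map (γ : Ω →+* Ω) = p) →
      ∃ q : K[X], q.map (algebraMap K Ω) = p := by
    intro p hp
    have h1 : p ∈ Polynomial.lifts (algebraMap K Ω) := by
      rw [Polynomial.lifts_iff_coeff_lifts]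
      intro n
      refine (InfiniteGalois.mem_range_algebraMap_iff_fixed (k := K) (K := Ω) (p.coeff n)).mpr
        fun γ => ?_
      have h2 := congrArg (fun q => Polynomial.coeff q n) (hp γ)
      simp only [coeff_map] at h2
      exact h2
    exact (Polynomial.mem_lifts _).mp h1
  obtain ⟨a, ha⟩ := key z.re fun γ => congrArg QuadraticAlgebra.re (hz γ)
  obtain ⟨b, hb⟩ := key z.im fun γ => congrArg QuadraticAlgebra.im (hz γ)
  exact ⟨⟨a, b⟩, QuadraticAlgebra.ext ha hb⟩

/-- A finite Galois extension containing the coefficients of finitely many elements. -/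
lemma exists_finite_galois [IsGalois K Ω] (s : Finset (QA Ω (f.map (algebraMap K Ω)))) :
    ∃ M : FiniteGaloisIntermediateField K Ω, ∀ z ∈ s, ∀ γ γ' : Ω ≃ₐ[K] Ω,
      (∀ x ∈ M.toIntermediateField, γ x = γ' x) → act f γ z = act f γ' z := by
  classical
  set t : Finset Ω := s.biUnion fun z => z.re.coeffs ∪ z.im.coeffs with ht
  refine ⟨FiniteGaloisIntermediateField.adjoin K (t : Set Ω), fun z hz γ γ' h => ?_⟩
  have h1 : ∀ x ∈ t, γ x = γ' x := fun x hx =>
    h x (FiniteGaloisIntermediateField.subset_adjoin K (t : Set Ω) hx)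
  have key : ∀ p : Polynomial Ω, p.coeffs ⊆ t → p.map (γ : Ω →+* Ω) = p.map (γ' : Ω →+* Ω) := by
    intro p hp
    ext n
    rw [coeff_map, coeff_map]
    by_cases h0 : p.coeff n = 0
    · rw [h0, map_zero, map_zero]
    · exact h1 _ (hp (Polynomial.coeff_mem_coeffs h0))
  have hsub : z.re.coeffs ∪ z.im.coeffs ⊆ t :=
    Finset.subset_biUnion_of_mem (fun z : QA Ω (f.map (algebraMap K Ω)) =>
      z.re.coeffs ∪ z.im.coeffs) hz
  exact QuadraticAlgebra.ext (key _ (Finset.subset_union_left.trans hsub))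
    (key _ (Finset.subset_union_right.trans hsub))

lemma qa_noetherian (k : Type*) [Field k] (g : k[X]) : IsNoetherianRing (QA k g) := by
  have h1 : IsNoetherian k[X] (QA k g) := inferInstance
  exact isNoetherian_of_tower k[X] h1

section Norm

variable (M : FiniteGaloisIntermediateField K Ω)

/-- The norm of an ideal. -/
noncomputable def nrmI [IsGalois K Ω] (I : Ideal (QA Ω (f.map (algebraMap K Ω)))) :
    Ideal (QA Ω (f.map (algebraMap K Ω))) :=
  ∏ σ : M.toIntermediateField ≃ₐ[K] M.toIntermediateField, I.map (act f (σ.liftNormal Ω))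

/-- The norm of an element. -/
noncomputable def nrmE [IsGalois K Ω] (z : QA Ω (f.map (algebraMap K Ω))) :
    QA Ω (f.map (algebraMap K Ω)) :=
  ∏ σ : M.toIntermediateField ≃ₐ[K] M.toIntermediateField, act f (σ.liftNormal Ω) z

lemma lift_mul_agree [IsGalois K Ω] (γ : Ω ≃ₐ[K] Ω)
    (σ : M.toIntermediateField ≃ₐ[K] M.toIntermediateField) :
    ∀ x ∈ M.toIntermediateField, (γ * σ.liftNormal Ω) x =
      (((γ.restrictNormal M.toIntermediateField) * σ).liftNormal Ω) x := by
  intro x hx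
  have h1 := AlgEquiv.liftNormal_commutes σ Ω (⟨x, hx⟩ : M.toIntermediateField)
  have h2 := AlgEquiv.liftNormal_commutes ((γ.restrictNormal M.toIntermediateField) * σ) Ω
    (⟨x, hx⟩ : M.toIntermediateField)
  have h3 := AlgEquiv.restrictNormal_commutes γ M.toIntermediateField (σ ⟨x, hx⟩)
  have h4 : algebraMap M.toIntermediateField Ω ⟨x, hx⟩ = x := rfl
  rw [h4] at h1 h2
  rw [h2, AlgEquiv.mul_apply, AlgEquiv.mul_apply, h3, h1]

lemma act_nrmE [IsGalois K Ω] (z : QA Ω (f.map (algebraMap K Ω)))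
    (hM : ∀ γ γ' : Ω ≃ₐ[K] Ω,
      (∀ x ∈ M.toIntermediateField, γ x = γ' x) → act f γ z = act f γ' z) (γ : Ω ≃ₐ[K] Ω) :
    act f γ (nrmE f M z) = nrmE f M z := by
  rw [nrmE, map_prod]
  refine Fintype.prod_equiv (Equiv.mulLeft (γ.restrictNormal M.toIntermediateField)) _ _ fun σ => ?_
  rw [Equiv.coe_mulLeft, ← hM _ _ (lift_mul_agree M γ σ), act_mul]
  rfl

lemma map_act_eq (s : Set (QA Ω (f.map (algebraMap K Ω)))) (γ γ' : Ω ≃ₐ[K] Ω)
    (h : ∀ z ∈ s, act f γ z = act f γ' z) :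
    (Ideal.span s).map (act f γ) = (Ideal.span s).map (act f γ') := by
  rw [Ideal.map_span, Ideal.map_span, Set.image_congr h]

lemma map_nrmI [IsGalois K Ω] (s : Set (QA Ω (f.map (algebraMap K Ω))))
    (hM : ∀ z ∈ s, ∀ γ γ' : Ω ≃ₐ[K] Ω,
      (∀ x ∈ M.toIntermediateField, γ x = γ' x) → act f γ z = act f γ' z) (γ : Ω ≃ₐ[K] Ω) :
    (nrmI f M (Ideal.span s)).map (act f γ) = nrmI f M (Ideal.span s) := by
  rw [nrmI]
  have h0 := map_prod (Ideal.mapHom (act f γ))
    (fun σ : M.toIntermediateField ≃ₐ[K] M.toIntermediateField =>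
      (Ideal.span s).map (act f (σ.liftNormal Ω))) Finset.univ
  refine Eq.trans h0 ?_
  refine Fintype.prod_equiv (Equiv.mulLeft (γ.restrictNormal M.toIntermediateField)) _ _ fun σ => ?_
  rw [Equiv.coe_mulLeft]
  show ((Ideal.span s).map (act f (σ.liftNormal Ω))).map (act f γ) = _
  rw [Ideal.map_map, ← act_mul]
  exact map_act_eq f s _ _ fun z hz => hM z hz _ _ (lift_mul_agree M γ σ)

end Norm

variable [IsDomain (QA K f)] [IsDomain (QA Ω (f.map (algebraMap K Ω)))]

/-- The Galois action on ideal classes. -/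
noncomputable def actCl (γ : Ω ≃ₐ[K] Ω) :
    ICl (QA Ω (f.map (algebraMap K Ω))) →* ICl (QA Ω (f.map (algebraMap K Ω))) :=
  clMap (act f γ) (act_injective f γ)

/-- The extension map on ideal classes. -/
noncomputable def extCl : ICl (QA K f) →* ICl (QA Ω (f.map (algebraMap K Ω))) :=
  clMap (ext f) (ext_injective f)

/-- A positive power of a Galois invariant ideal class comes from the base. -/
theorem exists_pow_of_fixed [IsGalois K Ω] (c : ICl (QA Ω (f.map (algebraMap K Ω))))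
    (hc : ∀ γ : Ω ≃ₐ[K] Ω, actCl f γ c = c) :
    ∃ n : ℕ, 0 < n ∧ ∃ d : ICl (QA K f), extCl f d = c ^ n := by
  classical
  obtain ⟨I, hI, rfl⟩ := cls_surj c
  obtain ⟨J, h, hh, hIJ⟩ := hI
  have hnoeth := qa_noetherian Ω (f.map (algebraMap K Ω))
  obtain ⟨s, hs⟩ := (isNoetherianRing_iff_ideal_fg _).mp hnoeth I
  obtain ⟨t, ht⟩ := (isNoetherianRing_iff_ideal_fg _).mp hnoeth J
  have hs' : Ideal.span (s : Set (QA Ω (f.map (algebraMap K Ω)))) = I := hs
  have ht' : Ideal.span (t : Set (QA Ω (f.map (algebraMap K Ω)))) = J := ht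
  obtain ⟨M, hM⟩ := exists_finite_galois f (s ∪ t ∪ {h})
  have hMs : ∀ z ∈ (s : Set (QA Ω (f.map (algebraMap K Ω)))), ∀ γ γ' : Ω ≃ₐ[K] Ω,
      (∀ x ∈ M.toIntermediateField, γ x = γ' x) → act f γ z = act f γ' z := fun z hz =>
    hM z (by
      rw [Finset.mem_union, Finset.mem_union]
      exact Or.inl (Or.inl hz))
  have hMt : ∀ z ∈ (t : Set (QA Ω (f.map (algebraMap K Ω)))), ∀ γ γ' : Ω ≃ₐ[K] Ω,
      (∀ x ∈ M.toIntermediateField, γ x = γ' x) → act f γ z = act f γ' z := fun z hz =>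
    hM z (by
      rw [Finset.mem_union, Finset.mem_union]
      exact Or.inl (Or.inr hz))
  have hMh := hM h (by simp)
  -- the norms
  obtain ⟨h₀, hh₀⟩ := exists_ext_of_fixed f (nrmE f M h) (act_nrmE f M h hMh)
  have hne : nrmE f M h ≠ 0 := by
    rw [nrmE]
    exact Finset.prod_ne_zero_iff.mpr fun σ _ => (map_ne_zero_iff _ (act_injective f _)).mpr hh
  have hh₀0 : h₀ ≠ 0 := by
    rintro rfl
    rw [map_zero] at hh₀
    exact hne hh₀.symm
  have hprod : nrmI f M I * nrmI f M J = Ideal.span {nrmE f M h} := by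
    rw [nrmI, nrmI, nrmE, ← Finset.prod_mul_distrib]
    have h1 : ∀ σ ∈ (Finset.univ : Finset (M.toIntermediateField ≃ₐ[K] M.toIntermediateField)),
        I.map (act f (σ.liftNormal Ω)) * J.map (act f (σ.liftNormal Ω)) =
        Ideal.span {act f (σ.liftNormal Ω) h} := by
      intro σ _
      rw [← Ideal.map_mul, hIJ, Ideal.map_span, Set.image_singleton]
    rw [Finset.prod_congr rfl h1, Ideal.prod_span_singleton]
  have hstab : ∀ (S : Set (QA Ω (f.map (algebraMap K Ω)))),
      (∀ z ∈ S, ∀ γ γ' : Ω ≃ₐ[K] Ω,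
      (∀ x ∈ M.toIntermediateField, γ x = γ' x) → act f γ z = act f γ' z) →
      ((nrmI f M (Ideal.span S)).comap (ext f)).map (ext f) = nrmI f M (Ideal.span S) := by
    intro S hS
    refine descent_ideal f _ fun γ _ z hz => ?_
    rw [← map_nrmI f M S hS γ]
    exact Ideal.mem_map_of_mem _ hz
  have hI0 := hstab _ hMs
  have hJ0 := hstab _ hMt
  rw [hs'] at hI0
  rw [ht'] at hJ0
  set I₀ := (nrmI f M I).comap (ext f) with hI₀
  set J₀ := (nrmI f M J).comap (ext f) with hJ₀
  have hprod0 : I₀ * J₀ = Ideal.span {h₀} := by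
    have h1 : (I₀ * J₀).map (ext f) = (Ideal.span {h₀}).map
        (ext f : QA K f →+* QA Ω (f.map (algebraMap K Ω))) := by
      rw [Ideal.map_mul, hI0, hJ0, hprod, Ideal.map_span, Set.image_singleton, hh₀]
    have h2 := congrArg (Ideal.comap (ext f)) h1
    rw [ext, comap_map_qmap, comap_map_qmap] at h2
    exact h2
  have hI₀mem : I₀ ∈ InvIdeals (QA K f) := ⟨J₀, h₀, hh₀0, hprod0⟩
  refine ⟨Fintype.card (M.toIntermediateField ≃ₐ[K] M.toIntermediateField), Fintype.card_pos,
    cls I₀ hI₀mem, ?_⟩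
  rw [extCl, clMap_cls]
  have hIm : I ∈ InvIdeals (QA Ω (f.map (algebraMap K Ω))) := ⟨J, h, hh, hIJ⟩
  have h3 : ∀ γ : Ω ≃ₐ[K] Ω, cls (I.map (act f γ)) (map_mem_invIdeals _ (act_injective f γ) hIm) =
      cls I hIm := fun γ => hc γ
  have h4 := cls_prod (Finset.univ : Finset (M.toIntermediateField ≃ₐ[K] M.toIntermediateField))
    (fun σ => I.map (act f (σ.liftNormal Ω)))
    (fun σ => map_mem_invIdeals _ (act_injective f _) hIm)
  have h5 : ∏ σ : M.toIntermediateField ≃ₐ[K] M.toIntermediateField,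
      cls (I.map (act f (σ.liftNormal Ω))) (map_mem_invIdeals _ (act_injective f _) hIm) =
      cls I hIm ^ Fintype.card (M.toIntermediateField ≃ₐ[K] M.toIntermediateField) :=
    (Finset.prod_congr rfl fun σ _ => h3 (σ.liftNormal Ω)).trans
      ((Finset.prod_const _).trans (by rw [Finset.card_univ]))
  refine Eq.trans ?_ (h4.trans h5)
  congr 1

end

end Pool.Agent.MPab1e31
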