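import Mathlib

/-!
# Automorphisms flipping one square root and fixing others
-/

namespace Pool.Agent.MPab1e31

section Quad

variable {L Ω : Type*} [Field L] [Field Ω] [Algebra L Ω]

/-- The field `M(r)` for `r² ∈ M`. -/
def quadExt (M : IntermediateField L Ω) (r : Ω) (hr : r ^ 2 ∈ M) : IntermediateField L Ω where
  carrier := {y | ∃ a ∈ M, ∃ b ∈ M, y = a + b * r}
  mul_mem' := by
    rintro _ _ ⟨a, ha, b, hb, rfl⟩ ⟨c, hc, d, hd, rfl⟩
    refine ⟨a * c + b * d * r ^ 2, add_mem (mul_mem ha hc) (mul_mem (mul_mem hb hd) hr),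
      a * d + b * c, add_mem (mul_mem ha hd) (mul_mem hb hc), ?_⟩
    ring
  one_mem' := ⟨1, one_mem M, 0, zero_mem M, by ring⟩
  add_mem' := by
    rintro _ _ ⟨a, ha, b, hb, rfl⟩ ⟨c, hc, d, hd, rfl⟩
    exact ⟨a + c, add_mem ha hc, b + d, add_mem hb hd, by ring⟩
  zero_mem' := ⟨0, zero_mem M, 0, zero_mem M, by ring⟩
  algebraMap_mem' l := ⟨algebraMap L Ω l, M.algebraMap_mem l, 0, zero_mem M, by ring⟩
  inv_mem' := by
    rintro _ ⟨a, ha, b, hb, rfl⟩
    by_cases h0 : a - b * r = 0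
    · have h1 : a + b * r = 2 * a := by linear_combination -h0
      exact ⟨(2 * a)⁻¹, inv_mem (mul_mem (ofNat_mem M 2) ha), 0, zero_mem M, by rw [h1]; ring⟩
    by_cases h1 : a + b * r = 0
    · exact ⟨0, zero_mem M, 0, zero_mem M, by rw [h1, inv_zero]; ring⟩
    have h2 : a ^ 2 - b ^ 2 * r ^ 2 ≠ 0 := by
      have : a ^ 2 - b ^ 2 * r ^ 2 = (a - b * r) * (a + b * r) := by ring
      rw [this]
      exact mul_ne_zero h0 h1
    have h3 : (a ^ 2 - b ^ 2 * r ^ 2)⁻¹ ∈ M :=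
      inv_mem (sub_mem (pow_mem ha 2) (mul_mem (pow_mem hb 2) hr))
    refine ⟨a * (a ^ 2 - b ^ 2 * r ^ 2)⁻¹, mul_mem ha h3, -b * (a ^ 2 - b ^ 2 * r ^ 2)⁻¹,
      mul_mem (neg_mem hb) h3, ?_⟩
    have h4 : a * (a ^ 2 - b ^ 2 * r ^ 2)⁻¹ + -b * (a ^ 2 - b ^ 2 * r ^ 2)⁻¹ * r =
        (a - b * r) * (a ^ 2 - b ^ 2 * r ^ 2)⁻¹ := by ring
    rw [h4]
    rw [eq_mul_inv_iff_mul_eq₀ h2, inv_mul_eq_iff_eq_mul₀ h1]
    ring

lemma mem_quadExt (M : IntermediateField L Ω) (r : Ω) (hr : r ^ 2 ∈ M) (y : Ω) :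
    y ∈ quadExt M r hr ↔ ∃ a ∈ M, ∃ b ∈ M, y = a + b * r := Iff.rfl

end Quad

section Flip

variable {L Ω : Type*} [Field L] [CharZero L] [Field Ω] [Algebra L Ω]

lemma exists_field (χ : Lˣ →* ℤˣ) (Z : Finset Lˣ) (hZ : ∀ z ∈ Z, χ z = 1) :
    ∃ M : IntermediateField L Ω,
      (∀ z ∈ Z, ∀ r : Ω, r ^ 2 = algebraMap L Ω z → r ∈ M) ∧
      ∀ c : Lˣ, ∀ v ∈ M, v ^ 2 = algebraMap L Ω c → χ c = 1 := by
  classical
  have : CharZero Ω := charZero_of_injective_algebraMap (algebraMap L Ω).injective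
  induction Z using Finset.induction_on with
  | empty =>
    refine ⟨⊥, fun z hz => absurd hz (Finset.notMem_empty z), ?_⟩
    intro c v hv hvc
    rw [IntermediateField.mem_bot] at hv
    obtain ⟨l, rfl⟩ := hv
    rw [← map_pow] at hvc
    have h1 : l ^ 2 = c := (algebraMap L Ω).injective hvc
    have hl : l ≠ 0 := by
      rintro rfl
      rw [zero_pow two_ne_zero] at h1
      exact c.ne_zero h1.symm
    have h2 : c = (Units.mk0 l hl) ^ 2 := by
      ext
      rw [Units.val_pow_eq_pow_val, Units.val_mk0, h1]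
    rw [h2, map_pow, Int.units_sq]
  | insert z Z hz ih =>
    obtain ⟨M, hM1, hM2⟩ := ih fun z' hz' => hZ z' (Finset.mem_insert_of_mem hz')
    by_cases hex : ∃ r : Ω, r ^ 2 = algebraMap L Ω z
    swap
    · refine ⟨M, ?_, hM2⟩
      intro z' hz' r hr
      rcases Finset.mem_insert.mp hz' with rfl | hz'
      · exact absurd ⟨r, hr⟩ hex
      · exact hM1 z' hz' r hr
    obtain ⟨r, hr⟩ := hex
    have hrM : r ^ 2 ∈ M := by rw [hr]; exact M.algebraMap_mem _
    by_cases hrm : r ∈ M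
    · refine ⟨M, ?_, hM2⟩
      intro z' hz' r' hr'
      rcases Finset.mem_insert.mp hz' with rfl | hz'
      · have h1 : r' ^ 2 = r ^ 2 := by rw [hr, hr']
        rcases sq_eq_sq_iff_eq_or_eq_neg.mp h1 with rfl | rfl
        · exact hrm
        · exact neg_mem hrm
      · exact hM1 z' hz' r' hr'
    refine ⟨quadExt M r hrM, ?_, ?_⟩
    · intro z' hz' r' hr'
      rcases Finset.mem_insert.mp hz' with rfl | hz'
      · have h1 : r' ^ 2 = r ^ 2 := by rw [hr, hr']
        rcases sq_eq_sq_iff_eq_or_eq_neg.mp h1 with rfl | rfl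
        · exact ⟨0, zero_mem M, 1, one_mem M, by ring⟩
        · exact ⟨0, zero_mem M, -1, neg_mem (one_mem M), by ring⟩
      · exact ⟨r', hM1 z' hz' r' hr', 0, zero_mem M, by ring⟩
    · intro c v hv hvc
      obtain ⟨a, ha, b, hb, rfl⟩ := hv
      by_cases hab : a * b = 0
      · rcases mul_eq_zero.mp hab with rfl | rfl
        · have h1 : b ^ 2 = algebraMap L Ω ((c * z⁻¹ : Lˣ) : L) := by
            have hz0 : algebraMap L Ω z ≠ 0 := by
              rw [Ne, map_eq_zero]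
              exact z.ne_zero
            rw [Units.val_mul, map_mul, ← hvc, Units.val_inv_eq_inv_val, map_inv₀, ← hr,
              zero_add, mul_pow]
            have hr0 : r ≠ 0 := by
              rintro rfl
              rw [zero_pow two_ne_zero] at hr
              exact hz0 hr.symm
            field_simp
          have h2 := hM2 _ b hb h1
          rw [map_mul, map_inv, hZ z (Finset.mem_insert_self z Z), inv_one, mul_one] at h2
          exact h2
        · refine hM2 c a ha ?_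
          rw [zero_mul, add_zero] at hvc
          exact hvc
      · exfalso
        apply hrm
        have h1 : r = (algebraMap L Ω c - a ^ 2 - b ^ 2 * r ^ 2) * (2 * (a * b))⁻¹ := by
          rw [← hvc]
          have : (2 : Ω) ≠ 0 := two_ne_zero
          have ha0 : a ≠ 0 := left_ne_zero_of_mul hab
          have hb0 : b ≠ 0 := right_ne_zero_of_mul hab
          field_simp
          ring
        rw [h1]
        refine mul_mem (sub_mem (sub_mem (M.algebraMap_mem _) (pow_mem ha 2))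
          (mul_mem (pow_mem hb 2) hrM)) (inv_mem (mul_mem (ofNat_mem M 2) (mul_mem ha hb)))

/-- Module Flip. -/
theorem exists_flip [IsAlgClosed Ω]
    [Algebra.IsAlgebraic L Ω] (χ : Lˣ →* ℤˣ) (Z : Finset Lˣ) (hZ : ∀ z ∈ Z, χ z = 1) (u : Lˣ)
    (hu : χ u = -1) (s : Ω) (hs : s ^ 2 = algebraMap L Ω u) :
    ∃ g : Ω ≃ₐ[L] Ω, g s = -s ∧ ∀ z ∈ Z, ∀ r : Ω, r ^ 2 = algebraMap L Ω z → g r = r := by
  obtain ⟨M, hM1, hM2⟩ := exists_field (Ω := Ω) χ Z hZ
  have hsM : s ∉ M := by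
    intro h
    have h1 := hM2 u s h hs
    rw [hu] at h1
    exact absurd h1 (by decide)
  have : IsAlgClosure L Ω := ⟨inferInstance, inferInstance⟩
  have : Normal L Ω := IsAlgClosure.normal L Ω
  have : IsGalois L Ω := ⟨⟩
  have hfix := InfiniteGalois.fixedField_fixingSubgroup M
  rw [← hfix, IntermediateField.mem_fixedField_iff] at hsM
  push Not at hsM
  obtain ⟨g, hg, hgs⟩ := hsM
  rw [IntermediateField.mem_fixingSubgroup_iff] at hg
  refine ⟨g, ?_, fun z hz r hr => hg r (hM1 z hz r hr)⟩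
  have h1 : (g s) ^ 2 = s ^ 2 := by
    rw [← map_pow, hs, AlgEquiv.commutes]
  rcases sq_eq_sq_iff_eq_or_eq_neg.mp h1 with h2 | h2
  · exact absurd h2 hgs
  · exact h2

end Flip

end Pool.Agent.MPab1e31
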