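import Mathlib

/-!
# Shifts in a coset of a subgroup of finite index (Hales-Jewett / Gallai)
-/

namespace Pool.Agent.MPab1e31

lemma aux_comm {G : Type*} [CommGroup G] (g z a r t : G) :
    g⁻¹ * (z * (a * r)⁻¹) = (z⁻¹ * t)⁻¹ * (r⁻¹ * (t * g⁻¹ * a⁻¹)) := by
  have h8 : (z⁻¹ * t)⁻¹ * (r⁻¹ * (t * g⁻¹ * a⁻¹)) = (t⁻¹ * t) * (g⁻¹ * (z * (a * r)⁻¹)) := by
    simp only [mul_inv, inv_inv]
    ac_rfl
  rw [h8, inv_mul_cancel, one_mul]

/-- Module HJ. In a field of characteristic zero, for a subgroup `H` of finite index of the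
multiplicative group, a finite set `S` and `g ≠ 0` there is `x` with `x + s ∈ g H` for all
`s ∈ S`. -/
theorem exists_shift {L : Type*} [Field L] [CharZero L] (H : Subgroup Lˣ) [H.FiniteIndex]
    (S : Finset L) (g : Lˣ) : ∃ x : L, ∀ s ∈ S, ∃ h ∈ H, x + s = ((g * h : Lˣ) : L) := by
  classical
  have : Finite (Lˣ ⧸ H) := inferInstance
  have := Fintype.ofFinite (Lˣ ⧸ H)
  -- colour
  set c : L → Option (Lˣ ⧸ H) := fun v =>
    if hv : v = 0 then none else some (QuotientGroup.mk (Units.mk0 v hv)) with hc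
  set S' : Finset L := (Finset.univ : Finset (Lˣ ⧸ H)).biUnion
    (fun q => (insert 0 (insert 1 S)).image (fun s => (Quotient.out q : Lˣ) * s)) with hS'
  obtain ⟨a, ha, b, col, hcol⟩ := Combinatorics.exists_mono_homothetic_copy S' c
  have ha0 : (a : L) ≠ 0 := by exact_mod_cast ha.ne'
  have hmem : ∀ q : Lˣ ⧸ H, ∀ s ∈ insert 0 (insert 1 S), c (a • ((Quotient.out q : Lˣ) * s) + b) = col := by
    intro q s hs
    exact hcol _ (Finset.mem_biUnion.mpr ⟨q, Finset.mem_univ _, Finset.mem_image_of_mem _ hs⟩)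
  -- the colour is not none
  have hcol0 : col ≠ none := by
    intro h0
    set q0 : Lˣ ⧸ H := QuotientGroup.mk 1
    have h1 := hmem q0 0 (by simp)
    have h2 := hmem q0 1 (by simp)
    rw [h0] at h1 h2
    have h3 : ∀ v : L, c v = none → v = 0 := by
      intro v hv
      by_contra hne
      rw [hc] at hv
      simp only [hne, dite_false] at hv
      exact absurd hv (by simp)
    have h4 := h3 _ h1
    have h5 := h3 _ h2
    rw [mul_zero, smul_zero, zero_add] at h4
    rw [h4, add_zero, mul_one, nsmul_eq_mul] at h5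
    exact (mul_ne_zero ha0 (Units.ne_zero _)) h5
  obtain ⟨q1, hq1⟩ := Option.ne_none_iff_exists'.mp hcol0
  -- choose the right coset
  set t : Lˣ := Quotient.out q1 with ht
  set aU : Lˣ := Units.mk0 (a : L) ha0 with haU
  set q : Lˣ ⧸ H := QuotientGroup.mk (t * g⁻¹ * aU⁻¹) with hq
  set r : Lˣ := Quotient.out q with hr
  have hrq : (QuotientGroup.mk r : Lˣ ⧸ H) = QuotientGroup.mk (t * g⁻¹ * aU⁻¹) := by
    rw [hr, ← hq]
    exact QuotientGroup.out_eq' q
  refine ⟨b / (a * r), fun s hs => ?_⟩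
  have h1 := hmem q s (by simp [hs])
  rw [hq1] at h1
  have hne : a • ((Quotient.out q : Lˣ) * s) + b ≠ 0 := by
    intro h0
    rw [hc] at h1
    simp only [h0, dite_true] at h1
    exact absurd h1 (by simp)
  rw [hc] at h1
  simp only [hne, dite_false] at h1
  have h2 := Option.some_injective _ h1
  have h3 : (QuotientGroup.mk (Units.mk0 _ hne) : Lˣ ⧸ H) = QuotientGroup.mk t := by
    rw [h2, ht]
    exact (QuotientGroup.out_eq' q1).symm
  -- the element
  set z : Lˣ := Units.mk0 _ hne with hz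
  refine ⟨g⁻¹ * (z * (aU * r)⁻¹), ?_, ?_⟩
  · have h4 : z⁻¹ * t ∈ H := QuotientGroup.eq.mp h3
    have h6 : r⁻¹ * (t * g⁻¹ * aU⁻¹) ∈ H := QuotientGroup.eq.mp hrq
    have h7 := aux_comm g z aU r t
    rw [h7]
    exact H.mul_mem (H.inv_mem h4) h6
  · have h5 : ((g * (g⁻¹ * (z * (aU * r)⁻¹)) : Lˣ) : L) = (z : L) / (a * r) := by
      have haU' : (aU : L) = a := rfl
      rw [mul_inv_cancel_left, Units.val_mul, Units.val_inv_eq_inv_val, Units.val_mul, haU',
        div_eq_mul_inv]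
    rw [h5, hz, Units.val_mk0, nsmul_eq_mul]
    have hr0 : (r : L) ≠ 0 := r.ne_zero
    rw [← hr]
    field_simp
    ring

end Pool.Agent.MPab1e31
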