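import Mathlib

/-!
Gauss norm tools for the non-torsion lemma on hyperelliptic Jacobians.
-/

namespace Pool.Agent.MPab1e31.Hyp

open Polynomial

section

variable {E : Type*} [Field E] {v : AbsoluteValue E ℝ} (hv : IsNonarchimedean v)

/-- The Gauss norm. -/
noncomputable def gn (v : AbsoluteValue E ℝ) (p : E[X]) : ℝ := p.gaussNorm v 1

theorem gn_nonneg (p : E[X]) : 0 ≤ gn v p := gaussNorm_nonneg v p zero_le_one

theorem gn_zero : gn v (0 : E[X]) = 0 := by simp [gn]

theorem gn_eq_zero {p : E[X]} : gn v p = 0 ↔ p = 0 :=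
  gaussNorm_eq_zero_iff v p (fun _ hx => (AbsoluteValue.eq_zero v).mp hx) one_pos

theorem gn_pos {p : E[X]} (hp : p ≠ 0) : 0 < gn v p :=
  lt_of_le_of_ne (gn_nonneg p) fun h => hp (gn_eq_zero.mp h.symm)

include hv in
theorem gn_mul (p q : E[X]) : gn v (p * q) = gn v p * gn v q := gaussNorm_mul hv one_pos p q

include hv in
theorem gn_add (p q : E[X]) : gn v (p + q) ≤ max (gn v p) (gn v q) :=
  isNonarchimedean_gaussNorm v hv zero_le_one p q

theorem gn_C (a : E) : gn v (C a) = v a := gaussNorm_C v 1 a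

theorem gn_one : gn v (1 : E[X]) = 1 := by
  rw [← C_1, gn_C, map_one]

theorem gn_X_pow (k : ℕ) : gn v (X ^ k : E[X]) = 1 := by
  rw [← monomial_one_right_eq_X_pow]
  simp [gn]

theorem coeff_le (p : E[X]) (i : ℕ) : v (p.coeff i) ≤ gn v p := by
  have := le_gaussNorm v p zero_le_one i
  rwa [one_pow, mul_one] at this

theorem exists_coeff_eq (p : E[X]) : ∃ i, gn v p = v (p.coeff i) := by
  obtain ⟨i, hi⟩ := exists_eq_gaussNorm v 1 p
  exact ⟨i, by rw [gn, hi, one_pow, mul_one]⟩

theorem gn_le {p : E[X]} {M : ℝ} (h : ∀ i, v (p.coeff i) ≤ M) : gn v p ≤ M := by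
  obtain ⟨i, hi⟩ := exists_coeff_eq (v := v) p
  rw [hi]; exact h i

theorem gn_neg (p : E[X]) : gn v (-p) = gn v p := by
  apply le_antisymm
  · exact gn_le fun i => by rw [coeff_neg, v.map_neg]; exact coeff_le p i
  · refine gn_le fun i => ?_
    have := coeff_le (v := v) (-p) i
    rwa [coeff_neg, v.map_neg] at this

include hv in
theorem gn_sub (p q : E[X]) : gn v (p - q) ≤ max (gn v p) (gn v q) := by
  rw [sub_eq_add_neg, ← gn_neg q]
  exact gn_add hv p (-q)

include hv in
theorem gn_pow (p : E[X]) (n : ℕ) : gn v (p ^ n) = gn v p ^ n := by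
  induction n with
  | zero => rw [pow_zero, pow_zero, gn_one]
  | succ n ih => rw [pow_succ, pow_succ, gn_mul hv, ih]

include hv in
theorem v_natCast_le (n : ℕ) : v (n : E) ≤ 1 := by
  induction n with
  | zero => simp
  | succ n ih =>
    rw [Nat.cast_succ]
    exact (hv _ _).trans (max_le ih (map_one v).le)

include hv in
theorem v_add_eq_of_lt {a b : E} (h : v b < v a) : v (a + b) = v a := by
  refine le_antisymm ((hv a b).trans (max_le le_rfl h.le)) ?_
  have h3 : v ((a + b) + -b) ≤ max (v (a + b)) (v (-b)) := hv _ _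
  rw [add_neg_cancel_right, v.map_neg] at h3
  rcases le_max_iff.mp h3 with h4 | h4
  · exact h4
  · exact absurd h4 (not_le.mpr h)

include hv in
theorem gn_add_eq_of_lt {p q : E[X]} (h : gn v q < gn v p) : gn v (p + q) = gn v p := by
  refine le_antisymm ((gn_add hv p q).trans (max_le le_rfl h.le)) ?_
  have h3 := gn_add hv (p + q) (-q)
  rw [add_neg_cancel_right, gn_neg] at h3
  rcases le_max_iff.mp h3 with h4 | h4
  · exact h4
  · exact absurd h4 (not_le.mpr h)

include hv in
theorem v_two_mul_add_one (h2 : v 2 < 1) (m : ℕ) : v ((2 * m + 1 : ℕ) : E) = 1 := by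
  have h1 : ((2 * m + 1 : ℕ) : E) = 1 + 2 * (m : E) := by push_cast; ring
  rw [h1, v_add_eq_of_lt hv, map_one]
  rw [map_one, map_mul]
  calc v 2 * v (m : E) ≤ v 2 * 1 := mul_le_mul_of_nonneg_left (v_natCast_le hv m) (v.nonneg _)
    _ < 1 := by rw [mul_one]; exact h2

include hv in
theorem gn_derivative_le (p : E[X]) : gn v (derivative p) ≤ gn v p := by
  refine gn_le fun i => ?_
  rw [coeff_derivative, map_mul]
  have h1 : v ((i : E) + 1) ≤ 1 := by
    have := v_natCast_le hv (i + 1)
    rwa [Nat.cast_succ] at this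
  calc v (p.coeff (i + 1)) * v ((i : E) + 1) ≤ gn v p * 1 :=
        mul_le_mul (coeff_le p _) h1 (v.nonneg _) (gn_nonneg p)
    _ = gn v p := mul_one _

/-- `i` is the last index at which the Gauss norm is attained. -/
def Top (v : AbsoluteValue E ℝ) (p : E[X]) (i : ℕ) : Prop :=
  v (p.coeff i) = gn v p ∧ ∀ k, i < k → v (p.coeff k) < gn v p

theorem exists_top {p : E[X]} (hp : p ≠ 0) : ∃ i, Top v p i := by
  classical
  obtain ⟨i₀, hi₀⟩ := exists_coeff_eq (v := v) p
  let S := (Finset.range (p.natDegree + 1)).filter fun i => v (p.coeff i) = gn v p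
  have hgp : 0 < gn v p := gn_pos hp
  have hdeg : ∀ i, v (p.coeff i) = gn v p → i ≤ p.natDegree := by
    intro i hi
    by_contra hlt
    push Not at hlt
    rw [coeff_eq_zero_of_natDegree_lt hlt, map_zero] at hi
    linarith
  have hS : S.Nonempty := ⟨i₀, by
    simp only [S, Finset.mem_filter, Finset.mem_range]
    exact ⟨Nat.lt_succ_of_le (hdeg i₀ hi₀.symm), hi₀.symm⟩⟩
  refine ⟨S.max' hS, (Finset.mem_filter.mp (S.max'_mem hS)).2, ?_⟩
  intro k hk
  refine lt_of_le_of_ne (coeff_le p k) fun heq => ?_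
  have hkS : k ∈ S := by
    simp only [S, Finset.mem_filter, Finset.mem_range]
    exact ⟨Nat.lt_succ_of_le (hdeg k heq), heq⟩
  exact absurd (S.le_max' k hkS) (not_le.mpr hk)

include hv in
/-- ultrametric bound for finite sums. -/
theorem v_sum_lt {ι : Type*} (s : Finset ι) (g : ι → E) {M : ℝ} (hM : 0 < M)
    (h : ∀ i ∈ s, v (g i) < M) : v (∑ i ∈ s, g i) < M := by
  classical
  induction s using Finset.induction_on with
  | empty => simpa using hM
  | insert a s ha ih =>
    rw [Finset.sum_insert ha]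
    exact lt_of_le_of_lt (hv _ _) (max_lt (h a (Finset.mem_insert_self _ _))
      (ih fun i hi => h i (Finset.mem_insert_of_mem hi)))

include hv in
theorem v_sum_le {ι : Type*} (s : Finset ι) (g : ι → E) {M : ℝ} (hM : 0 ≤ M)
    (h : ∀ i ∈ s, v (g i) ≤ M) : v (∑ i ∈ s, g i) ≤ M := by
  classical
  induction s using Finset.induction_on with
  | empty => simpa using hM
  | insert a s ha ih =>
    rw [Finset.sum_insert ha]
    exact (hv _ _).trans (max_le (h a (Finset.mem_insert_self _ _))
      (ih fun i hi => h i (Finset.mem_insert_of_mem hi)))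

include hv in
theorem Top.mul {p q : E[X]} {i j : ℕ} (hp : p ≠ 0) (hq : q ≠ 0) (hi : Top v p i)
    (hj : Top v q j) : Top v (p * q) (i + j) := by
  classical
  have hgp := gn_pos (v := v) hp
  have hgq := gn_pos (v := v) hq
  have hpos : 0 < gn v p * gn v q := mul_pos hgp hgq
  have hlt : ∀ a b : ℕ, (i < a ∨ j < b) → v (p.coeff a * q.coeff b) < gn v p * gn v q := by
    intro a b hab
    rw [map_mul]
    rcases hab with h | h
    · calc v (p.coeff a) * v (q.coeff b) ≤ v (p.coeff a) * gn v q :=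
            mul_le_mul_of_nonneg_left (coeff_le q b) (v.nonneg _)
        _ < gn v p * gn v q := mul_lt_mul_of_pos_right (hi.2 a h) hgq
    · calc v (p.coeff a) * v (q.coeff b) ≤ gn v p * v (q.coeff b) :=
            mul_le_mul_of_nonneg_right (coeff_le p a) (v.nonneg _)
        _ < gn v p * gn v q := mul_lt_mul_of_pos_left (hj.2 b h) hgp
  refine ⟨?_, ?_⟩
  · rw [gn_mul hv, coeff_mul]
    have hmem : (i, j) ∈ Finset.HasAntidiagonal.antidiagonal (i + j) := by simp
    rw [← Finset.add_sum_erase _ _ hmem]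
    have h1 : v (p.coeff i * q.coeff j) = gn v p * gn v q := by rw [map_mul, hi.1, hj.1]
    have h2 : v (∑ x ∈ (Finset.HasAntidiagonal.antidiagonal (i + j)).erase (i, j),
        p.coeff x.1 * q.coeff x.2) < gn v p * gn v q := by
      apply v_sum_lt hv _ _ hpos
      rintro ⟨a, b⟩ hab
      obtain ⟨hne, hmem'⟩ := Finset.mem_erase.mp hab
      rw [Finset.HasAntidiagonal.mem_antidiagonal] at hmem'
      apply hlt
      by_contra hcon
      push Not at hcon
      apply hne
      simp only at hmem' hcon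
      rw [Prod.mk.injEq]
      omega
    rw [v_add_eq_of_lt hv]
    · exact h1
    · simp only
      rw [h1]; exact h2
  · intro k hk
    rw [gn_mul hv, coeff_mul]
    apply v_sum_lt hv _ _ hpos
    rintro ⟨a, b⟩ hab
    rw [Finset.HasAntidiagonal.mem_antidiagonal] at hab
    apply hlt
    simp only at hab
    omega

include hv in
theorem Top.pow {p : E[X]} {i : ℕ} (hp : p ≠ 0) (hi : Top v p i) (n : ℕ) :
    Top v (p ^ n) (n * i) := by
  induction n with
  | zero =>
    rw [pow_zero, zero_mul]
    refine ⟨by simp [gn_one], ?_⟩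
    intro k hk
    rw [coeff_one, if_neg (by omega), map_zero, gn_one]
    exact one_pos
  | succ n ih =>
    rw [pow_succ, Nat.succ_mul]
    exact Top.mul hv (pow_ne_zero n hp) hp ih hi

end

end Pool.Agent.MPab1e31.Hyp
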