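import Mathlib
import Pool.Agent.MPab1e31.HypGauss

/-!
The linear functional used in the non-torsion lemma on hyperelliptic Jacobians.
-/

namespace Pool.Agent.MPab1e31.Hyp

open Polynomial

section

variable {E : Type*} [Field E]

/-- The values of the functional on monomials. -/
noncomputable def phi (f : E[X]) (g : ℕ) (k : ℕ) : E :=
  if k < 2 * g - 1 then 0
  else if k = 2 * g - 1 then 1
  else -(∑ j : Fin (2 * g + 1), f.coeff j * ((j + 2 * (k - 2 * g) : ℕ) : E) *
    phi f g (j + (k - 2 * g) - 1)) / ((2 * (g + (k - 2 * g)) + 1 : ℕ) : E)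
termination_by k
decreasing_by
  have := j.2
  omega

theorem phi_lt (f : E[X]) (g k : ℕ) (h : k < 2 * g - 1) : phi f g k = 0 := by
  rw [phi, if_pos h]

theorem phi_mid (f : E[X]) (g : ℕ) : phi f g (2 * g - 1) = 1 := by
  rw [phi, if_neg (lt_irrefl _), if_pos rfl]

theorem phi_rec (f : E[X]) (g : ℕ) (hg : 1 ≤ g) (m : ℕ) :
    phi f g (2 * g + m) = -(∑ j : Fin (2 * g + 1), f.coeff j * ((j + 2 * m : ℕ) : E) *
      phi f g (j + m - 1)) / ((2 * (g + m) + 1 : ℕ) : E) := by
  rw [phi, if_neg (by omega), if_neg (by omega), Nat.add_sub_cancel_left]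

theorem v_phi_le {v : AbsoluteValue E ℝ} (hv : IsNonarchimedean v) (h2 : v 2 < 1) (f : E[X])
    (hf : ∀ i, v (f.coeff i) ≤ 1) (g : ℕ) (hg : 1 ≤ g) (k : ℕ) : v (phi f g k) ≤ 1 := by
  induction k using Nat.strong_induction_on with
  | _ k ih =>
    by_cases h1 : k < 2 * g - 1
    · rw [phi_lt f g k h1, map_zero]; exact zero_le_one
    · by_cases h3 : k = 2 * g - 1
      · rw [h3, phi_mid, map_one]
      · obtain ⟨m, rfl⟩ : ∃ m, k = 2 * g + m := ⟨k - 2 * g, by omega⟩
        rw [phi_rec f g hg, map_div₀, v.map_neg, v_two_mul_add_one hv h2, div_one]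
        apply v_sum_le hv _ _ zero_le_one
        intro j _
        have hj := j.2
        rw [map_mul, map_mul]
        have e1 := hf j
        have e2 := v_natCast_le hv (j + 2 * m)
        have e3 := ih (j + m - 1) (by omega)
        have e4 := v.nonneg (f.coeff j)
        have e5 := v.nonneg (((j + 2 * m : ℕ) : E))
        have e6 := v.nonneg (phi f g (j + m - 1))
        calc v (f.coeff j) * v (((j + 2 * m : ℕ) : E)) * v (phi f g (j + m - 1))
            ≤ 1 * 1 * 1 := by gcongr
          _ = 1 := by norm_num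

/-- The functional. -/
noncomputable def Phi (f : E[X]) (g : ℕ) : E[X] →ₗ[E] E :=
  Polynomial.lsum fun k => phi f g k • LinearMap.id

theorem Phi_monomial (f : E[X]) (g k : ℕ) (a : E) : Phi f g (monomial k a) = phi f g k * a := by
  rw [Phi, lsum_apply, sum_monomial_index]
  · simp
  · simp

theorem Phi_eq_sum (f : E[X]) (g : ℕ) (p : E[X]) :
    Phi f g p = ∑ k ∈ p.support, phi f g k * p.coeff k := by
  rw [Phi, lsum_apply, sum_def]
  rfl

theorem v_Phi_le {v : AbsoluteValue E ℝ} (hv : IsNonarchimedean v) (h2 : v 2 < 1) (f : E[X])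
    (hf : ∀ i, v (f.coeff i) ≤ 1) (g : ℕ) (hg : 1 ≤ g) (p : E[X]) :
    v (Phi f g p) ≤ gn v p := by
  rw [Phi_eq_sum]
  apply v_sum_le hv _ _ (gn_nonneg p)
  intro k _
  rw [map_mul]
  calc v (phi f g k) * v (p.coeff k) ≤ 1 * gn v p :=
        mul_le_mul (v_phi_le hv h2 f hf g hg k) (coeff_le p k) (v.nonneg _) zero_le_one
    _ = gn v p := one_mul _

/-- The operator `r ↦ 2 f r' + f' r`. -/
noncomputable def T2 (f : E[X]) (r : E[X]) : E[X] := 2 * f * derivative r + derivative f * r

theorem T2_add (f r s : E[X]) : T2 f (r + s) = T2 f r + T2 f s := by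
  simp only [T2, derivative_add]; ring

theorem T2_monomial (f : E[X]) (m : ℕ) (a : E) (d : ℕ) (hd : f.natDegree < d) :
    T2 f (monomial m a) = ∑ j ∈ Finset.range d,
      monomial (j + m - 1) (f.coeff j * ((j + 2 * m : ℕ) : E) * a) := by
  have hf : f = ∑ j ∈ Finset.range d, monomial j (f.coeff j) := as_sum_range' f d hd
  have hf' : derivative f = ∑ j ∈ Finset.range d, monomial (j - 1) (f.coeff j * j) := by
    conv_lhs => rw [hf]
    rw [derivative_sum]
    exact Finset.sum_congr rfl fun j _ => derivative_monomial _ _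
  have h1 : T2 f (monomial m a) = ∑ j ∈ Finset.range d,
      (2 * (monomial j (f.coeff j) * monomial (m - 1) (a * m)) +
        monomial (j - 1) (f.coeff j * j) * monomial m a) := by
    rw [Finset.sum_add_distrib, ← Finset.mul_sum, ← Finset.sum_mul, ← Finset.sum_mul, ← hf', ← hf,
      T2, derivative_monomial, mul_assoc]
  rw [h1]
  refine Finset.sum_congr rfl fun j _ => ?_
  rw [monomial_mul_monomial, monomial_mul_monomial]
  have e1 : monomial (j + (m - 1)) (f.coeff j * (a * (m : E))) =
      monomial (j + m - 1) (f.coeff j * (a * (m : E))) := by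
    rcases Nat.eq_zero_or_pos m with rfl | hm
    · simp
    · have : j + (m - 1) = j + m - 1 := by omega
      rw [this]
  have e2 : monomial (j - 1 + m) (f.coeff j * (j : E) * a) =
      monomial (j + m - 1) (f.coeff j * (j : E) * a) := by
    rcases Nat.eq_zero_or_pos j with rfl | hj
    · simp
    · have : j - 1 + m = j + m - 1 := by omega
      rw [this]
  rw [e1, e2]
  have e3 : (2 : E[X]) * monomial (j + m - 1) (f.coeff j * (a * (m : E))) =
      monomial (j + m - 1) (2 * (f.coeff j * (a * (m : E)))) := by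
    have : (2 : E[X]) = C 2 := (C_ofNat 2).symm
    rw [this, C_mul_monomial]
  rw [e3, ← map_add]
  congr 1
  push_cast
  ring

theorem Phi_T2 [CharZero E] (f : E[X]) (g : ℕ) (hg : 1 ≤ g) (hmon : f.Monic)
    (hdeg : f.natDegree = 2 * g + 1) (r : E[X]) : Phi f g (T2 f r) = 0 := by
  induction r using Polynomial.induction_on' with
  | add p q hp hq => rw [T2_add, map_add, hp, hq, add_zero]
  | monomial m a =>
    rw [T2_monomial f m a (2 * g + 2) (by omega), map_sum]
    simp only [Phi_monomial]
    rw [Finset.sum_range_succ]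
    have hlead : f.coeff (2 * g + 1) = 1 := by rw [← hdeg]; exact hmon
    have hidx : 2 * g + 1 + m - 1 = 2 * g + m := by omega
    rw [hlead, hidx, phi_rec f g hg, Finset.sum_range]
    have hodd : ((2 * (g + m) + 1 : ℕ) : E) ≠ 0 := Nat.cast_ne_zero.mpr (by omega)
    have hcast : ((2 * g + 1 + 2 * m : ℕ) : E) = ((2 * (g + m) + 1 : ℕ) : E) := by
      congr 1; ring
    rw [hcast]
    field_simp
    rw [Finset.mul_sum, ← sub_eq_add_neg, sub_eq_zero]
    refine Finset.sum_congr rfl fun j _ => ?_
    ring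

end

end Pool.Agent.MPab1e31.Hyp
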