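import Mathlib
import Pool.Agent.MPab1e31.HypPhi

/-!
The non-torsion lemma on hyperelliptic Jacobians.
-/

namespace Pool.Agent.MPab1e31.Hyp

open Polynomial

section

variable {E : Type*} [Field E]

/-- The Wronskian-type expression attached to `A + B y`, `y ^ 2 = f`. -/
noncomputable def W2 (f A B : E[X]) : E[X] :=
  2 * f * (A * derivative B - derivative A * B) + A * B * derivative f

theorem W2_sq (f A B : E[X]) :
    W2 f (A ^ 2 + f * B ^ 2) (2 * A * B) = 2 * (A ^ 2 - f * B ^ 2) * W2 f A B := by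
  have h2 : derivative (2 : E[X]) = 0 := derivative_ofNat 2
  simp only [W2, derivative_add, derivative_mul, derivative_pow, h2]
  push_cast
  simp only [C_ofNat, pow_one]
  ring

theorem W2_eq (f A B : E[X]) (a : E) :
    W2 f A B = C a * T2 f B + ((A - C a) * T2 f B - 2 * f * derivative (A - C a) * B) := by
  simp only [W2, T2, derivative_sub, derivative_C, sub_zero]
  ring

theorem gn_W2_error {v : AbsoluteValue E ℝ} (hv : IsNonarchimedean v) (hv2 : v 2 < 1)
    {f : E[X]} (hf : gn v f ≤ 1) (A B : E[X]) (a : E) :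
    gn v ((A - C a) * T2 f B - 2 * f * derivative (A - C a) * B) ≤ gn v (A - C a) * gn v B := by
  have h2 : gn v (2 : E[X]) ≤ 1 := by
    have : (2 : E[X]) = C 2 := (C_ofNat 2).symm
    rw [this, gn_C]; exact hv2.le
  have hT : gn v (T2 f B) ≤ gn v B := by
    refine (gn_add hv _ _).trans (max_le ?_ ?_)
    · rw [gn_mul hv, gn_mul hv]
      calc gn v (2 : E[X]) * gn v f * gn v (derivative B) ≤ 1 * 1 * gn v B := by
            gcongr
            · exact gn_nonneg _
            · exact gn_nonneg _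
            · exact gn_derivative_le hv B
        _ = gn v B := by norm_num
    · rw [gn_mul hv]
      calc gn v (derivative f) * gn v B ≤ 1 * gn v B := by
            gcongr
            · exact gn_nonneg _
            · exact (gn_derivative_le hv f).trans hf
        _ = gn v B := one_mul _
  refine (gn_sub hv _ _).trans (max_le ?_ ?_)
  · rw [gn_mul hv]
    exact mul_le_mul_of_nonneg_left hT (gn_nonneg _)
  · rw [gn_mul hv, gn_mul hv, gn_mul hv]
    have h3 := gn_derivative_le hv (A - C a)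
    have h4 := gn_nonneg (v := v) (derivative (A - C a))
    have h5 := gn_nonneg (v := v) B
    have h6 := gn_nonneg (v := v) f
    have h7 := gn_nonneg (v := v) (2 : E[X])
    calc gn v (2 : E[X]) * gn v f * gn v (derivative (A - C a)) * gn v B
        ≤ 1 * 1 * gn v (A - C a) * gn v B := by gcongr
      _ = gn v (A - C a) * gn v B := by norm_num

/-- Algebraic part: the polynomial `H`. -/
theorem exists_H [CharZero E] (f : E[X]) (g : ℕ) (hmon : f.Monic)
    (hdeg : f.natDegree = 2 * g + 1) (t : E) (hft : f.eval t ≠ 0) (A B : E[X]) (c : E) (hc : c ≠ 0)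
    (n : ℕ) (hn : n ≠ 0) (hN : A ^ 2 - f * B ^ 2 = C c * (X - C t) ^ n) (hB : B.eval t ≠ 0) :
    ∃ H : E[X], (X - C t) * W2 f A B = (A ^ 2 - f * B ^ 2) * H ∧ H.eval t ≠ 0 ∧
      H.natDegree ≤ g := by
  obtain ⟨m, rfl⟩ : ∃ m, n = m + 1 := ⟨n - 1, by omega⟩
  have hBne : B ≠ 0 := by rintro rfl; simp at hB
  have hfne : f ≠ 0 := hmon.ne_zero
  have hAt : A.eval t ≠ 0 := by
    intro h0
    have h1 := congrArg (eval t) hN
    simp only [eval_sub, eval_pow, eval_mul, eval_C, eval_X, sub_self, h0] at h1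
    have h2 : f.eval t * B.eval t ^ 2 = 0 := by
      have h3 : (0 : E) ^ (m + 1) = 0 := zero_pow (by omega)
      rw [h3] at h1
      have h4 : (0 : E) ^ 2 = 0 := zero_pow (by norm_num)
      rw [h4] at h1
      linear_combination -h1
    rcases mul_eq_zero.mp h2 with h3 | h3
    · exact hft h3
    · exact hB (pow_eq_zero_iff (by norm_num) |>.mp h3)
  have hAne : A ≠ 0 := by rintro rfl; simp at hAt
  -- the key identity
  have hder : derivative (A ^ 2 - f * B ^ 2) = 2 * A * derivative A - derivative f * B ^ 2 -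
      2 * f * B * derivative B := by
    simp only [derivative_sub, derivative_mul, derivative_pow]
    push_cast
    simp only [C_ofNat, pow_one]
    ring
  have hder2 : derivative (C c * (X - C t) ^ (m + 1)) =
      C c * (((m + 1 : ℕ) : E[X]) * (X - C t) ^ m) := by
    simp only [derivative_mul, derivative_C, zero_mul, zero_add, derivative_pow, derivative_sub,
      derivative_X, sub_zero, mul_one, Nat.add_sub_cancel]
    simp
  have hkey : B * W2 f A B = (X - C t) ^ m *
      (C c * (2 * (X - C t) * derivative A - ((m + 1 : ℕ) : E[X]) * A)) := by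
    have h1 : B * W2 f A B = 2 * (A ^ 2 - f * B ^ 2) * derivative A -
        A * derivative (A ^ 2 - f * B ^ 2) := by
      rw [hder, W2]; ring
    rw [h1, hN, hder2, pow_succ]; ring
  have hcop : IsCoprime ((X - C t) ^ m) B := by
    apply IsCoprime.pow_left
    rw [(irreducible_X_sub_C t).coprime_iff_not_dvd, dvd_iff_isRoot]
    exact hB
  have hdvd : (X - C t) ^ m ∣ W2 f A B := by
    have h1 : (X - C t) ^ m ∣ B * W2 f A B := by rw [hkey]; exact Dvd.intro _ rfl
    exact hcop.dvd_of_dvd_mul_left h1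
  obtain ⟨H', hH'⟩ := hdvd
  have hXt : (X - C t) ^ m ≠ 0 := pow_ne_zero _ (X_sub_C_ne_zero t)
  have hBH : B * H' = C c * (2 * (X - C t) * derivative A - ((m + 1 : ℕ) : E[X]) * A) := by
    apply mul_left_cancel₀ hXt
    rw [← hkey, hH']; ring
  have hH't : H'.eval t ≠ 0 := by
    intro h0
    have h1 := congrArg (eval t) hBH
    simp only [eval_mul, h0, mul_zero, eval_C, eval_sub, eval_X, sub_self, zero_mul,
      eval_natCast, zero_sub] at h1
    have h2 : c * (((m + 1 : ℕ) : E) * A.eval t) = 0 := by linear_combination h1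
    have h3 : ((m + 1 : ℕ) : E) ≠ 0 := Nat.cast_ne_zero.mpr (by omega)
    exact mul_ne_zero hc (mul_ne_zero h3 hAt) h2
  have hH'ne : H' ≠ 0 := by rintro rfl; simp at hH't
  refine ⟨C c⁻¹ * H', ?_, ?_, ?_⟩
  · rw [hN, hH']
    have h1 : (C c : E[X]) * C c⁻¹ = 1 := by rw [← C_mul, mul_inv_cancel₀ hc, C_1]
    calc (X - C t) * ((X - C t) ^ m * H') = (C c * C c⁻¹) * ((X - C t) ^ (m + 1) * H') := by
          rw [h1]; ring
      _ = C c * (X - C t) ^ (m + 1) * (C c⁻¹ * H') := by ring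
  · rw [eval_mul, eval_C]
    exact mul_ne_zero (inv_ne_zero hc) hH't
  · rw [natDegree_C_mul (inv_ne_zero hc)]
    -- degrees
    have hdA : (A ^ 2).natDegree = 2 * A.natDegree := natDegree_pow _ _
    have hdB : (f * B ^ 2).natDegree = 2 * g + 1 + 2 * B.natDegree := by
      rw [natDegree_mul hfne (pow_ne_zero _ hBne), hdeg, natDegree_pow]
    have hdN : (A ^ 2 - f * B ^ 2).natDegree = m + 1 := by
      rw [hN, natDegree_C_mul hc, natDegree_pow, natDegree_X_sub_C, mul_one]
    have h1 : 2 * A.natDegree ≤ m + 1 ∧ 2 * g + 1 + 2 * B.natDegree ≤ m + 1 := by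
      rcases lt_trichotomy (f * B ^ 2).natDegree (A ^ 2).natDegree with h | h | h
      · have := natDegree_sub_eq_left_of_natDegree_lt h
        omega
      · omega
      · have := natDegree_sub_eq_right_of_natDegree_lt h
        omega
    have hW : (W2 f A B).natDegree ≤ 2 * g + A.natDegree + B.natDegree := by
      have hdA' : (derivative A).natDegree ≤ A.natDegree - 1 := natDegree_derivative_le A
      have hdB' : (derivative B).natDegree ≤ B.natDegree - 1 := natDegree_derivative_le B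
      have hdf' : (derivative f).natDegree ≤ 2 * g := by
        have := natDegree_derivative_le f
        omega
      have e1 : (A * derivative B).natDegree + 1 ≤ A.natDegree + B.natDegree ∨
          A * derivative B = 0 := by
        rcases Nat.eq_zero_or_pos B.natDegree with h0 | h0
        · right
          rw [eq_C_of_natDegree_eq_zero h0, derivative_C, mul_zero]
        · left
          have := natDegree_mul_le (p := A) (q := derivative B)
          omega
      have e2 : (derivative A * B).natDegree + 1 ≤ A.natDegree + B.natDegree ∨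
          derivative A * B = 0 := by
        rcases Nat.eq_zero_or_pos A.natDegree with h0 | h0
        · right
          rw [eq_C_of_natDegree_eq_zero h0, derivative_C, zero_mul]
        · left
          have := natDegree_mul_le (p := derivative A) (q := B)
          omega
      have h2f : (2 * f : E[X]).natDegree ≤ 2 * g + 1 := by
        have : (2 : E[X]) = C 2 := (C_ofNat 2).symm
        rw [this, natDegree_C_mul two_ne_zero]
        omega
      have e3 : (2 * f * (A * derivative B)).natDegree ≤ 2 * g + A.natDegree + B.natDegree := by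
        rcases e1 with e1 | e1
        · have := natDegree_mul_le (p := 2 * f) (q := A * derivative B)
          omega
        · rw [e1, mul_zero, natDegree_zero]; omega
      have e4 : (2 * f * (derivative A * B)).natDegree ≤ 2 * g + A.natDegree + B.natDegree := by
        rcases e2 with e2 | e2
        · have := natDegree_mul_le (p := 2 * f) (q := derivative A * B)
          omega
        · rw [e2, mul_zero, natDegree_zero]; omega
      have e5 : (A * B * derivative f).natDegree ≤ 2 * g + A.natDegree + B.natDegree := by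
        have h5 := natDegree_mul_le (p := A * B) (q := derivative f)
        have h6 := natDegree_mul_le (p := A) (q := B)
        omega
      rw [W2, mul_sub]
      refine (natDegree_add_le _ _).trans (max_le ((natDegree_sub_le _ _).trans (max_le e3 e4)) e5)
    have hWd : (W2 f A B).natDegree = m + H'.natDegree := by
      rw [hH', natDegree_mul hXt hH'ne, natDegree_pow, natDegree_X_sub_C, mul_one]
    omega

/-- Shape of the solutions, from the parity of the degrees. -/
theorem gauss_shape {v : AbsoluteValue E ℝ} (hv : IsNonarchimedean v) (f : E[X]) (g : ℕ)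
    (hmon : f.Monic) (hdeg : f.natDegree = 2 * g + 1) (hint : ∀ i, v (f.coeff i) ≤ 1)
    (A B N : E[X]) (hN : A ^ 2 - f * B ^ 2 = N) (hN1 : gn v N = 1)
    (hNtop : ∀ k, 0 < k → v (N.coeff k) < 1) :
    gn v A = 1 ∧ gn v B < 1 ∧ gn v (A - C (A.coeff 0)) < 1 := by
  have hfne : f ≠ 0 := hmon.ne_zero
  have hlead : f.coeff (2 * g + 1) = 1 := by rw [← hdeg]; exact hmon
  have hf1 : gn v f = 1 := by
    refine le_antisymm (gn_le hint) ?_
    have := coeff_le (v := v) f (2 * g + 1)
    rwa [hlead, map_one] at this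
  have hftop : Top v f (2 * g + 1) := by
    refine ⟨by rw [hlead, map_one, hf1], fun k hk => ?_⟩
    rw [coeff_eq_zero_of_natDegree_lt (by omega), map_zero, hf1]
    exact one_pos
  have hP : gn v (A ^ 2) = gn v A ^ 2 := gn_pow hv A 2
  have hQ : gn v (f * B ^ 2) = gn v B ^ 2 := by rw [gn_mul hv, hf1, one_mul, gn_pow hv]
  have hcoeff : ∀ k, N.coeff k = (A ^ 2).coeff k - (f * B ^ 2).coeff k := by
    intro k; rw [← hN, coeff_sub]
  by_cases hcmp : gn v (f * B ^ 2) < gn v (A ^ 2)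
  · have h1 : gn v (A ^ 2) = 1 := by
      have h2 : gn v (A ^ 2 + -(f * B ^ 2)) = gn v (A ^ 2) :=
        gn_add_eq_of_lt hv (by rw [gn_neg]; exact hcmp)
      rw [← sub_eq_add_neg, hN, hN1] at h2
      exact h2.symm
    have hA1 : gn v A = 1 := by
      rw [hP] at h1
      have h0 := gn_nonneg (v := v) A
      nlinarith
    have hB1 : gn v B < 1 := by
      rw [h1, hQ] at hcmp
      have h0 := gn_nonneg (v := v) B
      nlinarith
    refine ⟨hA1, hB1, ?_⟩
    have hAne : A ≠ 0 := by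
      rintro rfl
      rw [gn_zero] at hA1
      exact zero_ne_one hA1
    obtain ⟨i, hi⟩ := exists_top (v := v) hAne
    have hi2 : Top v (A ^ 2) (2 * i) := hi.pow hv hAne 2
    have hi0 : i = 0 := by
      by_contra hne
      have h3 := hNtop (2 * i) (by omega)
      rw [hcoeff, sub_eq_add_neg, v_add_eq_of_lt hv] at h3
      · rw [hi2.1, h1] at h3
        exact lt_irrefl _ h3
      · rw [v.map_neg, hi2.1]
        exact lt_of_le_of_lt (coeff_le _ _) hcmp
    obtain ⟨k, hk⟩ := exists_coeff_eq (v := v) (A - C (A.coeff 0))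
    rw [hk]
    rcases Nat.eq_zero_or_pos k with rfl | hkpos
    · rw [coeff_sub, coeff_C_zero, sub_self, map_zero]; exact one_pos
    · rw [coeff_sub, coeff_C, if_neg (by omega), sub_zero, ← hA1]
      exact hi.2 k (by omega)
  · exfalso
    push Not at hcmp
    have hQpos : 1 ≤ gn v (f * B ^ 2) := by
      have h1 := gn_sub hv (A ^ 2) (f * B ^ 2)
      rw [hN, hN1] at h1
      rcases le_max_iff.mp h1 with h2 | h2
      · exact h2.trans hcmp
      · exact h2
    have hBne : B ≠ 0 := by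
      rintro rfl
      have h0 : f * (0 : E[X]) ^ 2 = 0 := by ring
      rw [h0, gn_zero] at hQpos
      linarith
    obtain ⟨j, hj⟩ := exists_top (v := v) hBne
    have hj2 : Top v (f * B ^ 2) (2 * g + 1 + 2 * j) :=
      hftop.mul hv hfne (pow_ne_zero _ hBne) (hj.pow hv hBne 2)
    have hmain : ∃ m, 0 < m ∧ v (N.coeff m) = gn v (f * B ^ 2) := by
      by_cases h3 : v ((A ^ 2).coeff (2 * g + 1 + 2 * j)) < gn v (f * B ^ 2)
      · refine ⟨2 * g + 1 + 2 * j, by omega, ?_⟩
        rw [hcoeff, ← v.map_neg, neg_sub, sub_eq_add_neg, v_add_eq_of_lt hv]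
        · exact hj2.1
        · rw [v.map_neg, hj2.1]; exact h3
      · push Not at h3
        have h4 : gn v (A ^ 2) = gn v (f * B ^ 2) :=
          le_antisymm hcmp (h3.trans (coeff_le _ _))
        have hAne : A ≠ 0 := by
          rintro rfl
          have h0 : (0 : E[X]) ^ 2 = 0 := by ring
          rw [h0, gn_zero] at h4
          linarith
        obtain ⟨i, hi⟩ := exists_top (v := v) hAne
        have hi2 : Top v (A ^ 2) (2 * i) := hi.pow hv hAne 2
        have hlt : 2 * g + 1 + 2 * j < 2 * i := by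
          by_contra hcon
          push Not at hcon
          have h5 : 2 * i < 2 * g + 1 + 2 * j := by omega
          have h6 := hi2.2 _ h5
          rw [h4] at h6
          exact absurd h3 (not_le.mpr h6)
        refine ⟨2 * i, by omega, ?_⟩
        rw [hcoeff, sub_eq_add_neg, v_add_eq_of_lt hv]
        · rw [hi2.1, h4]
        · rw [v.map_neg, hi2.1, h4]
          exact hj2.2 _ hlt
    obtain ⟨m, hm, hvm⟩ := hmain
    have h7 := hNtop m hm
    rw [hvm] at h7
    linarith

theorem gn_sub_C_coeff_le {v : AbsoluteValue E ℝ} (p : E[X]) :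
    gn v (p - C (p.coeff 0)) ≤ gn v p := by
  refine gn_le fun k => ?_
  rcases Nat.eq_zero_or_pos k with rfl | hkpos
  · rw [coeff_sub, coeff_C_zero, sub_self, map_zero]; exact gn_nonneg p
  · rw [coeff_sub, coeff_C, if_neg (by omega), sub_zero]; exact coeff_le p k

/-- The iteration. -/
theorem iterate {v : AbsoluteValue E ℝ} (hv : IsNonarchimedean v)
    {f : E[X]} (hf1 : gn v f ≤ 1) (L H A B N : E[X]) (hAB : A ^ 2 - f * B ^ 2 = N)
    (hW : L * W2 f A B = N * H) (hA1 : gn v A = 1) (κ : ℝ) (hκ1 : κ < 1) (hκ2 : v 2 ≤ κ)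
    (hκB : gn v B ≤ κ) (hκA : gn v (A - C (A.coeff 0)) ≤ κ) (hκN : gn v (N - 1) ≤ κ) (k : ℕ) :
    ∃ A' B' N' : E[X], A' ^ 2 - f * B' ^ 2 = N' ∧ L * W2 f A' B' = C (2 ^ k) * (N' * H) ∧
      gn v A' = 1 ∧ gn v B' = v 2 ^ k * gn v B ∧
      gn v (A' - C (A'.coeff 0)) ≤ κ ^ (k + 1) ∧ gn v (N' - 1) ≤ κ ^ (k + 1) := by
  have hκ0 : 0 ≤ κ := (v.nonneg _).trans hκ2
  have h2C : (2 : E[X]) = C 2 := (C_ofNat 2).symm
  have hgn2 : gn v (2 : E[X]) = v 2 := by rw [h2C, gn_C]
  induction k with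
  | zero => exact ⟨A, B, N, hAB, by simpa using hW, hA1, by simp, by simpa using hκA,
      by simpa using hκN⟩
  | succ k ih =>
    obtain ⟨A', B', N', h1, h2, h3, h4, h5, h6⟩ := ih
    have hB'κ : gn v B' ≤ κ ^ (k + 1) := by
      rw [h4, pow_succ]
      exact mul_le_mul (pow_le_pow_left₀ (v.nonneg _) hκ2 k) hκB (gn_nonneg _) (by positivity)
    have hκk : κ ^ (k + 1) ≤ κ := by
      rw [pow_succ]
      exact mul_le_of_le_one_left hκ0 (pow_le_one₀ hκ0 hκ1.le)
    have hB'1 : gn v B' < 1 := lt_of_le_of_lt (hB'κ.trans hκk) hκ1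
    have hfB : gn v (f * B' ^ 2) ≤ gn v B' ^ 2 := by
      rw [gn_mul hv, gn_pow hv]
      exact mul_le_of_le_one_left (by positivity) hf1
    have hfB1 : gn v (f * B' ^ 2) < 1 := by
      refine lt_of_le_of_lt hfB ?_
      have h0 := gn_nonneg (v := v) B'
      nlinarith
    have hBκ : gn v B' ^ 2 ≤ κ ^ (k + 1 + 1) := by
      have h0 := gn_nonneg (v := v) B'
      calc gn v B' ^ 2 = gn v B' * gn v B' := sq _
        _ ≤ κ ^ (k + 1) * κ := mul_le_mul hB'κ (hB'κ.trans hκk) h0 (by positivity)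
        _ = κ ^ (k + 1 + 1) := (pow_succ _ _).symm
    have hA0 : v (A'.coeff 0) ≤ 1 := by
      have := coeff_le (v := v) A' 0
      rwa [h3] at this
    refine ⟨A' ^ 2 + f * B' ^ 2, 2 * A' * B', N' ^ 2, ?_, ?_, ?_, ?_, ?_, ?_⟩
    · rw [← h1]; ring
    · have e1 : (C (2 ^ (k + 1)) : E[X]) = 2 * C (2 ^ k) := by
        rw [pow_succ, C_mul, h2C]; ring
      rw [W2_sq, h1, e1]
      calc L * (2 * N' * W2 f A' B') = 2 * N' * (L * W2 f A' B') := by ring
        _ = 2 * C (2 ^ k) * (N' ^ 2 * H) := by rw [h2]; ring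
    · rw [gn_add_eq_of_lt hv]
      · rw [gn_pow hv, h3, one_pow]
      · rw [gn_pow hv, h3, one_pow]; exact hfB1
    · rw [gn_mul hv, gn_mul hv, hgn2, h3, h4, pow_succ]; ring
    · have e2 : (A' ^ 2 + f * B' ^ 2) - C ((A' ^ 2 + f * B' ^ 2).coeff 0) =
          (A' - C (A'.coeff 0)) * ((A' - C (A'.coeff 0)) + 2 * C (A'.coeff 0)) +
          (f * B' ^ 2 - C ((f * B' ^ 2).coeff 0)) := by
        rw [coeff_add, C_add]
        have e3 : (A' ^ 2).coeff 0 = A'.coeff 0 ^ 2 := by
          rw [sq, mul_coeff_zero, sq]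
        rw [e3, C_pow]; ring
      rw [e2]
      refine (gn_add hv _ _).trans (max_le ?_ ?_)
      · rw [gn_mul hv, pow_succ]
        refine mul_le_mul h5 ?_ (gn_nonneg _) (by positivity)
        refine (gn_add hv _ _).trans (max_le (h5.trans hκk) ?_)
        rw [gn_mul hv, hgn2, gn_C]
        calc v 2 * v (A'.coeff 0) ≤ κ * 1 := mul_le_mul hκ2 hA0 (v.nonneg _) hκ0
          _ = κ := mul_one _
      · exact (gn_sub_C_coeff_le _).trans (hfB.trans hBκ)
    · have e4 : N' ^ 2 - 1 = (N' - 1) * ((N' - 1) + 2) := by ring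
      rw [e4, gn_mul hv, pow_succ]
      refine mul_le_mul h6 ?_ (gn_nonneg _) (by positivity)
      exact (gn_add hv _ _).trans (max_le (h6.trans hκk) (by rw [hgn2]; exact hκ2))

theorem telescope (t : E) (ht : t ≠ 0) (K : ℕ) :
    (X - C t) * ∑ j ∈ Finset.range K, monomial j (t⁻¹ ^ (j + 1)) =
      monomial K (t⁻¹ ^ K) - 1 := by
  induction K with
  | zero => simp
  | succ K ih =>
    rw [Finset.sum_range_succ, mul_add, ih]
    have e1 : (X - C t) * monomial K (t⁻¹ ^ (K + 1)) =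
        monomial (K + 1) (t⁻¹ ^ (K + 1)) - monomial K (t⁻¹ ^ K) := by
      rw [sub_mul, X_mul_monomial, C_mul_monomial, pow_succ]
      congr 2
      field_simp
    rw [e1]; ring

/-- The non-torsion lemma in normalised form. -/
theorem no_relation_aux [CharZero E] {v : AbsoluteValue E ℝ}
    (hv : IsNonarchimedean v) (hv2 : v 2 < 1) (f : E[X]) (g : ℕ) (hg : 1 ≤ g) (hmon : f.Monic)
    (hdeg : f.natDegree = 2 * g + 1) (hint : ∀ i, v (f.coeff i) ≤ 1) (t : E) (ht : 1 < v t)
    (A B : E[X]) (n : ℕ) (hn : n ≠ 0)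
    (hN : A ^ 2 - f * B ^ 2 = (1 - C t⁻¹ * X) ^ n) (hB : B.eval t ≠ 0) : False := by
  have ht0 : t ≠ 0 := by rintro rfl; rw [map_zero] at ht; linarith
  have hvt : v t⁻¹ < 1 := by rw [map_inv₀]; exact inv_lt_one_of_one_lt₀ ht
  have hvt0 : 0 < v t⁻¹ := v.pos (inv_ne_zero ht0)
  have hlead : f.coeff (2 * g + 1) = 1 := by rw [← hdeg]; exact hmon
  have hf1 : gn v f ≤ 1 := gn_le hint
  -- `f t ≠ 0`
  have hft : f.eval t ≠ 0 := by
    have h1 : f.eval t = t ^ (2 * g + 1) + ∑ j ∈ Finset.range (2 * g + 1), f.coeff j * t ^ j := by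
      rw [eval_eq_sum_range' (n := 2 * g + 2) (by omega), Finset.sum_range_succ, hlead, one_mul,
        add_comm]
    have h2 : v (∑ j ∈ Finset.range (2 * g + 1), f.coeff j * t ^ j) < v (t ^ (2 * g + 1)) := by
      have h0 : 0 < v (t ^ (2 * g + 1)) := v.pos (pow_ne_zero _ ht0)
      apply v_sum_lt hv _ _ h0
      intro j hj
      rw [Finset.mem_range] at hj
      rw [map_mul, map_pow, map_pow]
      calc v (f.coeff j) * v t ^ j ≤ 1 * v t ^ j :=
            mul_le_mul_of_nonneg_right (hint j) (by positivity)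
        _ = v t ^ j := one_mul _
        _ < v t ^ (2 * g + 1) := pow_lt_pow_right₀ ht hj
    intro h0
    have h3 := v_add_eq_of_lt hv h2
    rw [← h1, h0, map_zero] at h3
    exact (v.pos (pow_ne_zero (2 * g + 1) ht0)).ne h3
  -- the polynomial `H`
  have hu : (1 - C t⁻¹ * X : E[X]) = C (-t⁻¹) * (X - C t) := by
    rw [mul_sub, ← C_mul, C_neg]
    have : -t⁻¹ * t = -1 := by field_simp
    rw [this]; simp; ring
  have hN' : A ^ 2 - f * B ^ 2 = C ((-t⁻¹) ^ n) * (X - C t) ^ n := by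
    rw [hN, hu, mul_pow, C_pow]
  obtain ⟨H, hH1, hH2, hH3⟩ := exists_H f g hmon hdeg t hft A B ((-t⁻¹) ^ n)
    (pow_ne_zero _ (neg_ne_zero.mpr (inv_ne_zero ht0))) n hn hN' hB
  rw [hN] at hH1
  -- the norm `N`
  set N : E[X] := (1 - C t⁻¹ * X) ^ n with hNdef
  have hu1 : gn v (1 - C t⁻¹ * X - 1 : E[X]) ≤ v t⁻¹ := by
    have e1 : (1 - C t⁻¹ * X - 1 : E[X]) = -(C t⁻¹ * X) := by ring
    rw [e1, gn_neg, gn_mul hv, gn_C]
    have : gn v (X : E[X]) = 1 := by
      have := gn_X_pow (v := v) 1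
      rwa [pow_one] at this
    rw [this, mul_one]
  have hNm1 : ∀ m : ℕ, gn v ((1 - C t⁻¹ * X) ^ m - 1 : E[X]) ≤ v t⁻¹ ∧
      gn v ((1 - C t⁻¹ * X) ^ m : E[X]) ≤ 1 := by
    intro m
    induction m with
    | zero => simp [gn_zero, gn_one]
    | succ m ih =>
      have e1 : ((1 - C t⁻¹ * X) ^ (m + 1) - 1 : E[X]) =
          (1 - C t⁻¹ * X) ^ m * (1 - C t⁻¹ * X - 1) + ((1 - C t⁻¹ * X) ^ m - 1) := by ring
      have h1 : gn v ((1 - C t⁻¹ * X) ^ (m + 1) - 1 : E[X]) ≤ v t⁻¹ := by
        rw [e1]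
        refine (gn_add hv _ _).trans (max_le ?_ ih.1)
        rw [gn_mul hv]
        calc gn v ((1 - C t⁻¹ * X) ^ m : E[X]) * gn v (1 - C t⁻¹ * X - 1 : E[X])
            ≤ 1 * v t⁻¹ := mul_le_mul ih.2 hu1 (gn_nonneg _) zero_le_one
          _ = v t⁻¹ := one_mul _
      refine ⟨h1, ?_⟩
      have e2 : ((1 - C t⁻¹ * X) ^ (m + 1) : E[X]) = ((1 - C t⁻¹ * X) ^ (m + 1) - 1) + 1 := by ring
      rw [e2]
      exact (gn_add hv _ _).trans (max_le (h1.trans hvt.le) (by rw [gn_one]))
  have hNκ : gn v (N - 1) ≤ v t⁻¹ := (hNm1 n).1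
  have hN1 : gn v N = 1 := by
    have e1 : N = 1 + (N - 1) := by ring
    rw [e1, gn_add_eq_of_lt hv, gn_one]
    rw [gn_one]
    exact lt_of_le_of_lt hNκ hvt
  have hNtop : ∀ k, 0 < k → v (N.coeff k) < 1 := by
    intro k hk
    have h1 : N.coeff k = (N - 1).coeff k := by
      rw [coeff_sub, coeff_one, if_neg (by omega), sub_zero]
    rw [h1]
    exact lt_of_le_of_lt ((coeff_le _ _).trans hNκ) hvt
  obtain ⟨hA1, hB1, hA01⟩ := gauss_shape hv f g hmon hdeg hint A B N hN hN1 hNtop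
  -- the contraction constant
  set κ : ℝ := max (max (v 2) (gn v B)) (max (gn v (A - C (A.coeff 0))) (v t⁻¹)) with hκ
  have hκ1 : κ < 1 := max_lt (max_lt hv2 hB1) (max_lt hA01 hvt)
  have hκ2 : v 2 ≤ κ := (le_max_left _ _).trans (le_max_left _ _)
  have hκB : gn v B ≤ κ := (le_max_right _ _).trans (le_max_left _ _)
  have hκA : gn v (A - C (A.coeff 0)) ≤ κ := (le_max_left _ _).trans (le_max_right _ _)
  have hκN : gn v (N - 1) ≤ κ := hNκ.trans ((le_max_right _ _).trans (le_max_right _ _))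
  have hκ0 : 0 ≤ κ := (v.nonneg _).trans hκ2
  have h2pos : 0 < v (2 : E) := v.pos two_ne_zero
  -- decomposition of `H`
  set h₀ : E := H.eval t with hh₀
  obtain ⟨h₁, hh₁⟩ : (X - C t) ∣ H - C h₀ := by
    rw [dvd_iff_isRoot, IsRoot.def, eval_sub, eval_C, sub_self]
  have hh₁deg : h₁ = 0 ∨ h₁.natDegree + 1 ≤ g := by
    by_cases h0 : h₁ = 0
    · left; exact h0
    · right
      have e1 : (H - C h₀).natDegree = 1 + h₁.natDegree := by
        rw [hh₁, natDegree_mul (X_sub_C_ne_zero t) h0, natDegree_X_sub_C]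
      have e2 : (H - C h₀).natDegree ≤ H.natDegree := by
        refine (natDegree_sub_le _ _).trans ?_
        rw [natDegree_C]; simp
      omega
  have hΦh₁ : Phi f g h₁ = 0 := by
    rcases hh₁deg with h0 | h0
    · rw [h0, map_zero]
    · rw [Phi_eq_sum]
      refine Finset.sum_eq_zero fun k hk => ?_
      have h1 : k ≤ h₁.natDegree := le_natDegree_of_mem_supp k hk
      rw [phi_lt f g k (by omega), zero_mul]
  -- the geometric polynomial
  set S : E[X] := ∑ j ∈ Finset.range (2 * g + 1), monomial j (t⁻¹ ^ (j + 1)) with hS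
  have hS1 : (X - C t) * S = monomial (2 * g + 1) (t⁻¹ ^ (2 * g + 1)) - 1 := telescope t ht0 _
  have hΦS : v (Phi f g S) = v t⁻¹ ^ (2 * g) := by
    rw [hS, map_sum]
    simp only [Phi_monomial]
    rw [Finset.sum_range_succ]
    have e1 : ∑ j ∈ Finset.range (2 * g), phi f g j * t⁻¹ ^ (j + 1) = t⁻¹ ^ (2 * g) := by
      have e2 : 2 * g = (2 * g - 1) + 1 := by omega
      rw [e2, Finset.sum_range_succ, phi_mid, one_mul]
      have e3 : ∑ j ∈ Finset.range (2 * g - 1), phi f g j * t⁻¹ ^ (j + 1) = 0 :=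
        Finset.sum_eq_zero fun j hj => by
          rw [phi_lt f g j (Finset.mem_range.mp hj), zero_mul]
      rw [e3, zero_add]
    rw [e1, v_add_eq_of_lt hv, map_pow]
    rw [map_mul, map_pow, map_pow]
    calc v (phi f g (2 * g)) * v t⁻¹ ^ (2 * g + 1) ≤ 1 * v t⁻¹ ^ (2 * g + 1) :=
          mul_le_mul_of_nonneg_right (v_phi_le hv hv2 f hint g hg _) (by positivity)
      _ = v t⁻¹ ^ (2 * g + 1) := one_mul _
      _ < v t⁻¹ ^ (2 * g) := pow_lt_pow_right_of_lt_one₀ hvt0 hvt (by omega)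
  have hh₀pos : 0 < v h₀ := v.pos hH2
  have hδ : 0 < v h₀ * v t⁻¹ ^ (2 * g) := by positivity
  have hXt : gn v (X - C t : E[X]) = v t := by
    have hX1 : gn v (X : E[X]) = 1 := by
      have := gn_X_pow (v := v) 1
      rwa [pow_one] at this
    have e1 : (X - C t : E[X]) = -(C t) + X := by ring
    rw [e1, gn_add_eq_of_lt hv, gn_neg, gn_C]
    rw [gn_neg, gn_C, hX1]; exact ht
  -- main estimate
  have hmain : ∀ k : ℕ, v h₀ * v t⁻¹ ^ (2 * g) ≤ κ ^ (k + 1) * max 1 (gn v H) := by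
    intro k
    obtain ⟨A', B', N', i1, i2, i3, i4, i5, i6⟩ := iterate hv hf1 (X - C t) H A B N hN hH1 hA1
      κ hκ1 hκ2 hκB hκA hκN k
    have h2k : (2 : E) ^ k ≠ 0 := pow_ne_zero _ two_ne_zero
    have hCk : (C ((2 : E) ^ k)⁻¹ : E[X]) * C (2 ^ k) = 1 := by
      rw [← C_mul, inv_mul_cancel₀ h2k, C_1]
    set Y : E[X] := C ((2 : E) ^ k)⁻¹ * W2 f A' B' - h₁ + C h₀ * S with hY
    have hY1 : (X - C t) * Y = (N' - 1) * H + C h₀ * monomial (2 * g + 1) (t⁻¹ ^ (2 * g + 1)) := by
      calc (X - C t) * Y = C ((2 : E) ^ k)⁻¹ * ((X - C t) * W2 f A' B') - (X - C t) * h₁ +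
            C h₀ * ((X - C t) * S) := by rw [hY]; ring
        _ = (C ((2 : E) ^ k)⁻¹ * C (2 ^ k)) * (N' * H) - (H - C h₀) +
            C h₀ * (monomial (2 * g + 1) (t⁻¹ ^ (2 * g + 1)) - 1) := by
              rw [i2, ← hh₁, hS1]; ring
        _ = _ := by rw [hCk]; ring
    have hYn : gn v Y ≤ max (κ ^ (k + 1) * gn v H) (v h₀ * v t⁻¹ ^ (2 * g + 1)) := by
      have e1 : gn v Y ≤ gn v ((X - C t) * Y) := by
        rw [gn_mul hv, hXt]
        exact le_mul_of_one_le_left (gn_nonneg _) ht.le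
      refine e1.trans ?_
      rw [hY1]
      refine (gn_add hv _ _).trans (max_le_max ?_ ?_)
      · rw [gn_mul hv]
        exact mul_le_mul_of_nonneg_right i6 (gn_nonneg _)
      · rw [gn_mul hv, gn_C]
        have e2 : gn v (monomial (2 * g + 1) (t⁻¹ ^ (2 * g + 1))) = v t⁻¹ ^ (2 * g + 1) := by
          rw [← C_mul_X_pow_eq_monomial, gn_mul hv, gn_C, gn_X_pow, mul_one, map_pow]
        rw [e2]
    have hΦW : v (Phi f g (C ((2 : E) ^ k)⁻¹ * W2 f A' B')) ≤ κ ^ (k + 1) := by
      rw [W2_eq f A' B' (A'.coeff 0), mul_add, map_add]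
      have e1 : Phi f g (C ((2 : E) ^ k)⁻¹ * (C (A'.coeff 0) * T2 f B')) = 0 := by
        rw [← mul_assoc, ← C_mul, ← smul_eq_C_mul, map_smul, Phi_T2 f g hg hmon hdeg, smul_zero]
      rw [e1, zero_add]
      refine (v_Phi_le hv hv2 f hint g hg _).trans ?_
      rw [gn_mul hv, gn_C, map_inv₀, map_pow]
      have e2 := gn_W2_error hv hv2 hf1 A' B' (A'.coeff 0)
      have e3 : 0 < v (2 : E) ^ k := by positivity
      calc (v 2 ^ k)⁻¹ * gn v ((A' - C (A'.coeff 0)) * T2 f B' -
            2 * f * derivative (A' - C (A'.coeff 0)) * B')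
          ≤ (v 2 ^ k)⁻¹ * (gn v (A' - C (A'.coeff 0)) * gn v B') :=
            mul_le_mul_of_nonneg_left e2 (by positivity)
        _ = gn v (A' - C (A'.coeff 0)) * gn v B := by rw [i4]; field_simp
        _ ≤ κ ^ (k + 1) * 1 := mul_le_mul i5 hB1.le (gn_nonneg _) (by positivity)
        _ = κ ^ (k + 1) := mul_one _
    have hfin : v h₀ * v t⁻¹ ^ (2 * g) ≤
        max (κ ^ (k + 1)) (max (κ ^ (k + 1) * gn v H) (v h₀ * v t⁻¹ ^ (2 * g + 1))) := by
      have e1 : h₀ * Phi f g S = Phi f g Y - Phi f g (C ((2 : E) ^ k)⁻¹ * W2 f A' B') := by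
        have e0 : Phi f g (C h₀ * S) = h₀ * Phi f g S := by
          rw [← smul_eq_C_mul, map_smul, smul_eq_mul]
        rw [hY, map_add, map_sub, hΦh₁, e0]; ring
      rw [← hΦS, ← map_mul, e1, sub_eq_add_neg]
      refine (hv _ _).trans ?_
      rw [v.map_neg, max_comm]
      exact max_le_max hΦW ((v_Phi_le hv hv2 f hint g hg Y).trans hYn)
    have hlt : v h₀ * v t⁻¹ ^ (2 * g + 1) < v h₀ * v t⁻¹ ^ (2 * g) :=
      mul_lt_mul_of_pos_left (pow_lt_pow_right_of_lt_one₀ hvt0 hvt (by omega)) hh₀pos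
    rcases le_max_iff.mp hfin with e1 | e1
    · calc _ ≤ κ ^ (k + 1) * 1 := by rw [mul_one]; exact e1
        _ ≤ κ ^ (k + 1) * max 1 (gn v H) :=
          mul_le_mul_of_nonneg_left (le_max_left _ _) (by positivity)
    · rcases le_max_iff.mp e1 with e2 | e2
      · exact e2.trans (mul_le_mul_of_nonneg_left (le_max_right _ _) (by positivity))
      · exact absurd e2 (not_le.mpr hlt)
  have hM : 0 < max 1 (gn v H) := lt_of_lt_of_le one_pos (le_max_left _ _)
  obtain ⟨k, hk⟩ := exists_pow_lt_of_lt_one (div_pos hδ hM) hκ1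
  have h1 := hmain k
  have h2 : κ ^ (k + 1) ≤ κ ^ k := pow_le_pow_of_le_one hκ0 hκ1.le (Nat.le_succ k)
  rw [lt_div_iff₀ hM] at hk
  have h3 : κ ^ (k + 1) * max 1 (gn v H) ≤ κ ^ k * max 1 (gn v H) :=
    mul_le_mul_of_nonneg_right h2 hM.le
  linarith

/-- The non-torsion lemma: on `y ^ 2 = f x`, `f` monic of odd degree at least three with
`2`-adically integral coefficients, there is no function `A + B y` whose norm is a
constant times `(x - t) ^ n` with `n > 0`, `|t| > 1`, unless `x - t` divides `A` and `B`. -/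
theorem no_relation [CharZero E] [IsAlgClosed E] {v : AbsoluteValue E ℝ}
    (hv : IsNonarchimedean v) (hv2 : v 2 < 1) (f : E[X]) (g : ℕ) (hg : 1 ≤ g) (hmon : f.Monic)
    (hdeg : f.natDegree = 2 * g + 1) (hint : ∀ i, v (f.coeff i) ≤ 1) (t : E) (ht : 1 < v t)
    (A B : E[X]) (c : E) (hc : c ≠ 0) (n : ℕ) (hn : n ≠ 0)
    (hN : A ^ 2 - f * B ^ 2 = C c * (X - C t) ^ n) (hB : B.eval t ≠ 0) : False := by
  have ht0 : t ≠ 0 := by rintro rfl; rw [map_zero] at ht; linarith
  obtain ⟨γ, hγ⟩ := IsAlgClosed.exists_pow_nat_eq (c * (-t) ^ n) (n := 2) (by norm_num)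
  have hγ0 : γ ≠ 0 := by
    rintro rfl
    have h1 : c * (-t) ^ n ≠ 0 := mul_ne_zero hc (pow_ne_zero _ (neg_ne_zero.mpr ht0))
    apply h1
    rw [← hγ]; norm_num
  refine no_relation_aux hv hv2 f g hg hmon hdeg hint t ht (C γ⁻¹ * A) (C γ⁻¹ * B) n hn ?_ ?_
  · have h1 : (C γ⁻¹ * A) ^ 2 - f * (C γ⁻¹ * B) ^ 2 = C (γ⁻¹ ^ 2) * (A ^ 2 - f * B ^ 2) := by
      rw [C_pow]; ring
    have h2 : (1 - C t⁻¹ * X : E[X]) = C (-t⁻¹) * (X - C t) := by
      rw [mul_sub, ← C_mul, C_neg]
      have : -t⁻¹ * t = -1 := by field_simp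
      rw [this]; simp; ring
    rw [h1, hN, h2, mul_pow, ← mul_assoc, ← C_mul, ← C_pow]
    congr 2
    have h3 : (-t⁻¹) ^ n * (-t) ^ n = 1 := by
      rw [← mul_pow]
      have : -t⁻¹ * -t = 1 := by field_simp
      rw [this, one_pow]
    have h4 : γ⁻¹ ^ 2 * (c * (-t) ^ n) = 1 := by
      rw [← hγ]; field_simp
    calc γ⁻¹ ^ 2 * c = γ⁻¹ ^ 2 * c * ((-t⁻¹) ^ n * (-t) ^ n) := by rw [h3, mul_one]
      _ = (γ⁻¹ ^ 2 * (c * (-t) ^ n)) * (-t⁻¹) ^ n := by ring
      _ = (-t⁻¹) ^ n := by rw [h4, one_mul]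
  · rw [eval_mul, eval_C]
    exact mul_ne_zero (inv_ne_zero hγ0) hB

end

end Pool.Agent.MPab1e31.Hyp
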