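import Mathlib
import Pool.Agent.MPab1e31.HypNonTors

/-!
Ideals of points in the coordinate ring of an affine hyperelliptic curve `y ^ 2 = f x`.
-/

namespace Pool.Agent.MPab1e31.Hyp

open Polynomial

section

variable {E : Type*} [Field E]

/-- The coordinate ring of `y ^ 2 = f x`. -/
abbrev CRing (f : E[X]) : Type _ := AdjoinRoot (X ^ 2 - C f : E[X][X])

theorem monic_eq (f : E[X]) : (X ^ 2 - C f : E[X][X]).Monic := monic_X_pow_sub_C f (by norm_num)

theorem natDegree_eq (f : E[X]) : (X ^ 2 - C f : E[X][X]).natDegree = 2 :=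
  natDegree_X_pow_sub_C

theorem irreducible_eq (f : E[X]) (hodd : Odd f.natDegree) :
    Irreducible (X ^ 2 - C f : E[X][X]) := by
  by_contra hirr
  rw [(monic_eq f).not_irreducible_iff_exists_add_mul_eq_coeff (natDegree_eq f)] at hirr
  obtain ⟨c₁, c₂, h1, h2⟩ := hirr
  have h3 : (X ^ 2 - C f : E[X][X]).coeff 1 = 0 := by simp
  have h4 : (X ^ 2 - C f : E[X][X]).coeff 0 = -f := by simp
  rw [h4] at h1
  rw [h3] at h2
  have h5 : c₂ = -c₁ := by linear_combination -h2
  have h6 : f = c₁ ^ 2 := by rw [h5] at h1; linear_combination -h1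
  rw [h6, natDegree_pow] at hodd
  rcases hodd with ⟨k, hk⟩
  omega

theorem isDomain_CRing (f : E[X]) (hodd : Odd f.natDegree) : IsDomain (CRing f) :=
  AdjoinRoot.isDomain_of_prime (irreducible_eq f hodd).prime

/-- The element `A + B y`. -/
noncomputable def elt (f A B : E[X]) : CRing f :=
  AdjoinRoot.of _ A + AdjoinRoot.of _ B * AdjoinRoot.root (X ^ 2 - C f : E[X][X])

theorem root_sq (f : E[X]) :
    (AdjoinRoot.root (X ^ 2 - C f : E[X][X])) ^ 2 = AdjoinRoot.of (X ^ 2 - C f : E[X][X]) f := by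
  have h := AdjoinRoot.eval₂_root (X ^ 2 - C f : E[X][X])
  simp only [eval₂_sub, eval₂_X_pow, eval₂_C] at h
  exact sub_eq_zero.mp h

theorem elt_eq_mk (f A B : E[X]) :
    elt f A B = AdjoinRoot.mk (X ^ 2 - C f : E[X][X]) (C A + C B * X) := by
  simp [elt]

theorem elt_eq_zero {f A B : E[X]} (h : elt f A B = 0) : A = 0 ∧ B = 0 := by
  rw [elt_eq_mk, AdjoinRoot.mk_eq_zero] at h
  have hdeg : (C A + C B * X : E[X][X]).degree < (X ^ 2 - C f : E[X][X]).degree := by
    rw [degree_eq_natDegree (monic_eq f).ne_zero, natDegree_eq]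
    refine lt_of_le_of_lt (degree_add_le _ _) (max_lt ?_ ?_)
    · exact lt_of_le_of_lt degree_C_le (by norm_num)
    · exact lt_of_le_of_lt (degree_C_mul_X_le _) (by norm_num)
  have h0 : (C A + C B * X : E[X][X]) = 0 := by
    by_contra hne
    exact (monic_eq f).not_dvd_of_degree_lt hne hdeg h
  have hA := congrArg (fun p => coeff p 0) h0
  have hB := congrArg (fun p => coeff p 1) h0
  simp at hA hB
  exact ⟨hA, hB⟩

theorem exists_elt (f : E[X]) (r : CRing f) : ∃ A B : E[X], r = elt f A B := by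
  obtain ⟨p, rfl⟩ := AdjoinRoot.mk_surjective r
  have h1 : AdjoinRoot.mk (X ^ 2 - C f : E[X][X]) p =
      AdjoinRoot.mk (X ^ 2 - C f : E[X][X]) (p %ₘ (X ^ 2 - C f)) := by
    rw [AdjoinRoot.mk_eq_mk]
    exact ⟨p /ₘ (X ^ 2 - C f), by
      have := modByMonic_add_div p (X ^ 2 - C f : E[X][X])
      linear_combination this.symm⟩
  have hlt : (p %ₘ (X ^ 2 - C f)).natDegree < 2 := by
    have := natDegree_modByMonic_lt p (monic_eq f) (by
      intro h1
      have := natDegree_eq f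
      rw [h1, natDegree_one] at this
      omega)
    rwa [natDegree_eq] at this
  refine ⟨(p %ₘ (X ^ 2 - C f)).coeff 0, (p %ₘ (X ^ 2 - C f)).coeff 1, ?_⟩
  rw [h1, elt_eq_mk]
  congr 1
  conv_lhs => rw [as_sum_range' _ 2 hlt]
  rw [Finset.sum_range_succ, Finset.sum_range_one, monomial_zero_left, ← C_mul_X_eq_monomial]

theorem elt_add (f A B A' B' : E[X]) : elt f A B + elt f A' B' = elt f (A + A') (B + B') := by
  simp only [elt, map_add]; ring

theorem elt_mul (f A B A' B' : E[X]) :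
    elt f A B * elt f A' B' = elt f (A * A' + f * (B * B')) (A * B' + A' * B) := by
  have h := root_sq f
  simp only [elt, map_add, map_mul]
  linear_combination (AdjoinRoot.of (X ^ 2 - C f : E[X][X]) B *
    AdjoinRoot.of (X ^ 2 - C f : E[X][X]) B') * h

theorem elt_injective {f A B A' B' : E[X]} (h : elt f A B = elt f A' B') : A = A' ∧ B = B' := by
  have h1 : elt f (A - A') (B - B') = 0 := by
    have : elt f (A - A') (B - B') = elt f A B - elt f A' B' := by
      simp only [elt, map_sub]; ring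
    rw [this, h, sub_self]
  obtain ⟨h2, h3⟩ := elt_eq_zero h1
  exact ⟨sub_eq_zero.mp h2, sub_eq_zero.mp h3⟩

/-- The hyperelliptic involution. -/
noncomputable def conj (f : E[X]) : CRing f →+* CRing f :=
  AdjoinRoot.lift (AdjoinRoot.of _) (-AdjoinRoot.root _) (by
    have h := root_sq f
    simp only [eval₂_sub, eval₂_X_pow, eval₂_C, neg_sq, h, sub_self])

theorem conj_elt (f A B : E[X]) : conj f (elt f A B) = elt f A (-B) := by
  simp [conj, elt]

/-- The ideal of the point `(t, s)`. -/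
noncomputable def ptIdeal (f : E[X]) (t s : E) : Ideal (CRing f) :=
  Ideal.span {elt f (X - C t) 0, elt f (-C s) 1}

theorem map_conj_ptIdeal (f : E[X]) (t s : E) :
    (ptIdeal f t s).map (conj f) = ptIdeal f t (-s) := by
  rw [ptIdeal, Ideal.map_span, Set.image_pair, conj_elt, conj_elt, ptIdeal, neg_zero]
  have h1 : elt f (-C s) (-1) = -elt f (-C (-s)) 1 := by
    simp only [elt, map_neg, map_one]; ring
  rw [h1]
  apply le_antisymm
  · rw [Ideal.span_le]
    rintro _ (rfl | rfl)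
    · exact Ideal.subset_span (by simp)
    · exact neg_mem (Ideal.subset_span (by simp))
  · rw [Ideal.span_le]
    rintro _ (rfl | rfl)
    · exact Ideal.subset_span (by simp)
    · rw [SetLike.mem_coe, ← neg_mem_iff]
      exact Ideal.subset_span (by simp)

variable [CharZero E]

theorem ptIdeal_mul (f : E[X]) (t s : E) (hs : s ^ 2 = f.eval t) (hs0 : s ≠ 0) :
    ptIdeal f t s * ptIdeal f t (-s) = Ideal.span {elt f (X - C t) 0} := by
  obtain ⟨q, hq⟩ : (X - C t) ∣ f - C (f.eval t) := by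
    rw [dvd_iff_isRoot, IsRoot.def, eval_sub, eval_C, sub_self]
  have hy2 : elt f (-C s) 1 * elt f (-C (-s)) 1 = elt f (X - C t) 0 * elt f q 0 := by
    rw [elt_mul, elt_mul]
    congr 1
    · rw [← hq, ← hs, C_neg, C_pow]; ring
    · rw [C_neg]; ring
  apply le_antisymm
  · rw [ptIdeal, ptIdeal, Ideal.span_mul_span', Ideal.span_le]
    rintro _ ⟨a, (rfl | rfl), b, (rfl | rfl), rfl⟩
    · exact Ideal.mul_mem_right _ _ (Ideal.subset_span rfl)
    · exact Ideal.mul_mem_right _ _ (Ideal.subset_span rfl)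
    · exact Ideal.mul_mem_left _ _ (Ideal.subset_span rfl)
    · change elt f (-C s) 1 * elt f (-C (-s)) 1 ∈ Ideal.span {elt f (X - C t) 0}
      rw [hy2]
      exact Ideal.mul_mem_right _ _ (Ideal.subset_span rfl)
  · rw [Ideal.span_singleton_le_iff_mem]
    have hx1 : elt f (X - C t) 0 ∈ ptIdeal f t s := Ideal.subset_span (by simp)
    have hx2 : elt f (X - C t) 0 ∈ ptIdeal f t (-s) := Ideal.subset_span (by simp)
    have hy1 : elt f (-C s) 1 ∈ ptIdeal f t s := Ideal.subset_span (by simp)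
    have hy3 : elt f (-C (-s)) 1 ∈ ptIdeal f t (-s) := Ideal.subset_span (by simp)
    have e1 : elt f (X - C t) 0 = elt f (C (2 * s)⁻¹) 0 *
        (elt f (X - C t) 0 * elt f (-C (-s)) 1 - elt f (-C s) 1 * elt f (X - C t) 0) := by
      have h2s : (2 * s : E) ≠ 0 := mul_ne_zero two_ne_zero hs0
      have e2 : elt f (X - C t) 0 * elt f (-C (-s)) 1 - elt f (-C s) 1 * elt f (X - C t) 0 =
          elt f (C (2 * s) * (X - C t)) 0 := by
        rw [elt_mul, elt_mul, sub_eq_iff_eq_add, elt_add]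
        congr 1
        · simp only [C_neg, C_mul, C_ofNat]; ring
        · ring
      rw [e2, elt_mul]
      congr 1
      · rw [← mul_assoc, ← C_mul, inv_mul_cancel₀ h2s, C_1]; ring
      · ring
    rw [e1]
    exact Ideal.mul_mem_left _ _ (sub_mem (Ideal.mul_mem_mul hx1 hy3) (Ideal.mul_mem_mul hy1 hx2))

omit [CharZero E] in
/-- Evaluation at a point. -/
theorem exists_eval (f : E[X]) (t s : E) (hs : s ^ 2 = f.eval t) :
    ∃ ev : CRing f →+* E, ∀ A B : E[X], ev (elt f A B) = A.eval t + B.eval t * s := by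
  refine ⟨AdjoinRoot.lift (evalRingHom t) s (by
    simp only [eval₂_sub, eval₂_X_pow, eval₂_C, coe_evalRingHom, hs, sub_self]), ?_⟩
  intro A B
  simp [elt]

/-- If a power of the ideal of a point is principal, then there is a relation. -/
theorem exists_relation (f : E[X]) (hodd : Odd f.natDegree) (t s : E) (hs : s ^ 2 = f.eval t)
    (hs0 : s ≠ 0) (n : ℕ) (hn : n ≠ 0) (hprin : (ptIdeal f t s ^ n).IsPrincipal) :
    ∃ (A B : E[X]) (c : E), c ≠ 0 ∧ A ^ 2 - f * B ^ 2 = C c * (X - C t) ^ n ∧ B.eval t ≠ 0 := by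
  have hdom : IsDomain (CRing f) := isDomain_CRing f hodd
  obtain ⟨g, hg⟩ := hprin
  obtain ⟨A, B, rfl⟩ := exists_elt f g
  have hg' : ptIdeal f t s ^ n = Ideal.span {elt f A B} := hg
  have hgc : ptIdeal f t (-s) ^ n = Ideal.span {elt f A (-B)} := by
    rw [← map_conj_ptIdeal, ← Ideal.map_pow, hg', Ideal.map_span, Set.image_singleton, conj_elt]
  have hXne : elt f (X - C t) 0 ≠ 0 := by
    intro h0
    exact X_sub_C_ne_zero t (elt_eq_zero h0).1
  have hpow : ∀ m : ℕ, elt f (X - C t) 0 ^ m = elt f ((X - C t) ^ m) 0 := by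
    intro m
    induction m with
    | zero => simp [elt]
    | succ m ih => rw [pow_succ, ih, elt_mul, pow_succ]; congr 1 <;> ring
  have hnorm : elt f A B * elt f A (-B) = elt f (A ^ 2 - f * B ^ 2) 0 := by
    rw [elt_mul]; congr 1 <;> ring
  have hspan : Ideal.span {elt f (A ^ 2 - f * B ^ 2) 0} =
      Ideal.span {elt f ((X - C t) ^ n) 0} := by
    rw [← hnorm, ← Ideal.span_singleton_mul_span_singleton, ← hg', ← hgc, ← mul_pow,
      ptIdeal_mul f t s hs hs0, Ideal.span_singleton_pow, hpow]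
  rw [Ideal.span_singleton_eq_span_singleton] at hspan
  obtain ⟨u, hu⟩ := hspan.symm
  obtain ⟨a, b, hab⟩ := exists_elt f (u : CRing f)
  obtain ⟨a', b', hab'⟩ := exists_elt f ((u⁻¹ : (CRing f)ˣ) : CRing f)
  rw [hab, elt_mul] at hu
  obtain ⟨h1, h2⟩ := elt_injective hu
  have hp0 : (X - C t : E[X]) ^ n ≠ 0 := pow_ne_zero _ (X_sub_C_ne_zero t)
  have hb : b = 0 := by
    have h3 : (X - C t) ^ n * b = 0 := by linear_combination h2
    exact (mul_eq_zero.mp h3).resolve_left hp0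
  have haa' : a * a' = 1 := by
    have h3 : (u : CRing f) * ((u⁻¹ : (CRing f)ˣ) : CRing f) = 1 := u.mul_inv
    have h4 : (1 : CRing f) = elt f 1 0 := by simp [elt]
    rw [hab, hab', hb, elt_mul, h4] at h3
    have := (elt_injective h3).1
    linear_combination this
  obtain ⟨c, hc, hca⟩ := Polynomial.isUnit_iff.mp (IsUnit.of_mul_eq_one _ haa')
  have hc0 : c ≠ 0 := hc.ne_zero
  have hN : A ^ 2 - f * B ^ 2 = C c * (X - C t) ^ n := by
    rw [hca]; linear_combination -h1
  refine ⟨A, B, c, hc0, hN, ?_⟩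
  intro hBt
  -- then `x - t` divides `A` and `B`
  have hAt : A.eval t = 0 := by
    have h3 := congrArg (eval t) hN
    simp only [eval_sub, eval_pow, eval_mul, eval_C, eval_X, sub_self, hBt] at h3
    rw [zero_pow hn] at h3
    have h4 : A.eval t ^ 2 = 0 := by linear_combination h3
    exact pow_eq_zero_iff (by norm_num) |>.mp h4
  obtain ⟨A₁, hA₁⟩ := dvd_iff_isRoot.mpr hAt
  obtain ⟨B₁, hB₁⟩ := dvd_iff_isRoot.mpr hBt
  have hfac : elt f A B = elt f (X - C t) 0 * elt f A₁ B₁ := by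
    rw [elt_mul, hA₁, hB₁]; congr 1 <;> ring
  obtain ⟨m, rfl⟩ : ∃ m, n = m + 1 := ⟨n - 1, by omega⟩
  have h5 : Ideal.span {elt f (X - C t) 0} * ptIdeal f t s ^ m =
      Ideal.span {elt f (X - C t) 0} * (Ideal.span {elt f A₁ B₁} * ptIdeal f t (-s)) := by
    calc Ideal.span {elt f (X - C t) 0} * ptIdeal f t s ^ m
        = ptIdeal f t s ^ (m + 1) * ptIdeal f t (-s) := by
          rw [← ptIdeal_mul f t s hs hs0, pow_succ (ptIdeal f t s) m, mul_assoc, mul_assoc,
            mul_comm (ptIdeal f t (-s)) (ptIdeal f t s ^ m), ← mul_assoc,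
            mul_comm (ptIdeal f t s) (ptIdeal f t s ^ m), mul_assoc]
      _ = _ := by
          rw [hg', hfac, ← Ideal.span_singleton_mul_span_singleton, mul_assoc]
  have h6 : ptIdeal f t s ^ m = Ideal.span {elt f A₁ B₁} * ptIdeal f t (-s) :=
    (Ideal.span_singleton_mul_right_inj hXne).mp h5
  have h7 : elt f (-C s) 1 ^ m ∈ ptIdeal f t (-s) := by
    have h8 : elt f (-C s) 1 ^ m ∈ ptIdeal f t s ^ m :=
      Ideal.pow_mem_pow (Ideal.subset_span (by simp)) m
    have h8' : Ideal.span {elt f A₁ B₁} * ptIdeal f t (-s) ≤ ptIdeal f t (-s) :=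
      Ideal.mul_le_right
    exact h8' (h6 ▸ h8)
  obtain ⟨ev, hev⟩ := exists_eval f t (-s) (by rw [neg_sq]; exact hs)
  have h9 : ptIdeal f t (-s) ≤ RingHom.ker ev := by
    rw [ptIdeal, Ideal.span_le]
    rintro _ (rfl | rfl)
    · rw [SetLike.mem_coe, RingHom.mem_ker, hev]; simp
    · rw [SetLike.mem_coe, RingHom.mem_ker, hev]; simp
  have h10 : ev (elt f (-C s) 1 ^ m) = 0 := RingHom.mem_ker.mp (h9 h7)
  rw [map_pow, hev] at h10
  have h12 : (eval t (-C s) + eval t 1 * -s : E) ≠ 0 := by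
    simp only [eval_neg, eval_C, eval_one, one_mul]
    have : (-s + -s : E) = -(2 * s) := by ring
    rw [this]
    exact neg_ne_zero.mpr (mul_ne_zero two_ne_zero hs0)
  exact pow_ne_zero m h12 h10

omit [CharZero E] in
theorem eval_ne_zero_of_large {v : AbsoluteValue E ℝ} (hv : IsNonarchimedean v) (f : E[X])
    (hmon : f.Monic) (hint : ∀ i, v (f.coeff i) ≤ 1) (t : E) (ht : 1 < v t) : f.eval t ≠ 0 := by
  have ht0 : t ≠ 0 := by rintro rfl; rw [map_zero] at ht; linarith
  have h1 : f.eval t = t ^ f.natDegree + ∑ j ∈ Finset.range f.natDegree, f.coeff j * t ^ j := by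
    rw [eval_eq_sum_range, Finset.sum_range_succ, hmon.coeff_natDegree, one_mul, add_comm]
  have h2 : v (∑ j ∈ Finset.range f.natDegree, f.coeff j * t ^ j) < v (t ^ f.natDegree) := by
    have h0 : 0 < v (t ^ f.natDegree) := v.pos (pow_ne_zero _ ht0)
    apply v_sum_lt hv _ _ h0
    intro j hj
    rw [Finset.mem_range] at hj
    rw [map_mul, map_pow, map_pow]
    calc v (f.coeff j) * v t ^ j ≤ 1 * v t ^ j :=
          mul_le_mul_of_nonneg_right (hint j) (by positivity)
      _ = v t ^ j := one_mul _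
      _ < v t ^ f.natDegree := pow_lt_pow_right₀ ht hj
  intro h0
  have h3 := v_add_eq_of_lt hv h2
  rw [← h1, h0, map_zero] at h3
  exact (v.pos (pow_ne_zero f.natDegree ht0)).ne h3

/-- Points of a hyperelliptic curve with `2`-adically large abscissa are non-torsion in the class
group of the coordinate ring. -/
theorem hyp_nontorsion [IsAlgClosed E] {v : AbsoluteValue E ℝ} (hv : IsNonarchimedean v)
    (hv2 : v 2 < 1) (f : E[X]) (hmon : f.Monic) (hodd : Odd f.natDegree)
    (h3 : 3 ≤ f.natDegree) :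
    ∃ K : ℝ, ∀ t s : E, s ^ 2 = f.eval t → K < v t →
      s ≠ 0 ∧ ∀ n : ℕ, n ≠ 0 → ¬ (ptIdeal f t s ^ n).IsPrincipal := by
  obtain ⟨g, hg⟩ := hodd
  have hg1 : 1 ≤ g := by omega
  have h2pos : 0 < v (2 : E) := v.pos two_ne_zero
  set M : ℝ := max 1 (gn v f) with hM
  have hM0 : 0 < M := lt_of_lt_of_le one_pos (le_max_left _ _)
  obtain ⟨k, hk⟩ := exists_pow_lt_of_lt_one (one_div_pos.mpr hM0) hv2
  set μ : E := (2 ^ k)⁻¹ with hμ
  have hμ0 : μ ≠ 0 := inv_ne_zero (pow_ne_zero _ two_ne_zero)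
  have hvμ : v μ = (v 2 ^ k)⁻¹ := by rw [hμ, map_inv₀, map_pow]
  have hMμ : M ≤ v μ := by
    rw [hvμ, le_inv_comm₀ hM0 (by positivity), ← one_div]
    exact hk.le
  have hμ1 : 1 ≤ v μ := (le_max_left _ _).trans hMμ
  have hfμ : gn v f ≤ v μ := (le_max_right _ _).trans hMμ
  -- the scaled polynomial
  set f₁ : E[X] := scaleRoots f μ⁻¹ with hf₁
  have hcoeff : ∀ i, f₁.coeff i = f.coeff i * μ⁻¹ ^ (f.natDegree - i) := fun i =>
    coeff_scaleRoots f μ⁻¹ i
  have hmon₁ : f₁.Monic := by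
    rw [hf₁]; exact (monic_scaleRoots_iff _).mpr hmon
  have hdeg₁ : f₁.natDegree = 2 * g + 1 := by rw [hf₁, natDegree_scaleRoots, hg]
  have hint₁ : ∀ i, v (f₁.coeff i) ≤ 1 := by
    intro i
    rcases lt_trichotomy i f.natDegree with h | h | h
    · rw [hcoeff, map_mul, map_pow, map_inv₀]
      obtain ⟨d, hd⟩ : ∃ d, f.natDegree - i = d + 1 := ⟨f.natDegree - i - 1, by omega⟩
      rw [hd, pow_succ]
      have e1 : (v μ)⁻¹ ^ d ≤ 1 := pow_le_one₀ (by positivity) (inv_le_one_of_one_le₀ hμ1)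
      have e2 : v (f.coeff i) * (v μ)⁻¹ ≤ 1 := by
        rw [← div_eq_mul_inv, div_le_one (by linarith)]
        exact (coeff_le f i).trans hfμ
      have e3 : 0 ≤ v (f.coeff i) * (v μ)⁻¹ := mul_nonneg (v.nonneg _) (by positivity)
      calc v (f.coeff i) * ((v μ)⁻¹ ^ d * (v μ)⁻¹) = (v (f.coeff i) * (v μ)⁻¹) * (v μ)⁻¹ ^ d := by
            ring
        _ ≤ 1 * 1 := mul_le_mul e2 e1 (by positivity) zero_le_one
        _ = 1 := one_mul 1
    · rw [h, hcoeff, Nat.sub_self, pow_zero, mul_one, hmon.coeff_natDegree, map_one]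
    · rw [hcoeff, coeff_eq_zero_of_natDegree_lt h, zero_mul, map_zero]; exact zero_le_one
  have hcomp : f.comp (C μ * X) = C (μ ^ (2 * g + 1)) * f₁ := by
    ext j
    rw [comp_C_mul_X_coeff, coeff_C_mul, hcoeff, hg]
    rcases le_or_gt j (2 * g + 1) with h | h
    · have e1 : μ ^ (2 * g + 1) = μ ^ j * μ ^ (2 * g + 1 - j) := by
        rw [← pow_add]; congr 1; omega
      have e3 : μ ^ (2 * g + 1 - j) * μ⁻¹ ^ (2 * g + 1 - j) = 1 := by
        rw [← mul_pow, mul_inv_cancel₀ hμ0, one_pow]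
      rw [e1]
      linear_combination (-(f.coeff j * μ ^ j)) * e3
    · rw [coeff_eq_zero_of_natDegree_lt (by omega)]; ring
  obtain ⟨ν, hν⟩ := IsAlgClosed.exists_pow_nat_eq (μ ^ (2 * g + 1)) (n := 2) (by norm_num)
  have hν0 : ν ≠ 0 := by
    rintro rfl
    have : μ ^ (2 * g + 1) ≠ 0 := pow_ne_zero _ hμ0
    apply this
    rw [← hν]; norm_num
  refine ⟨v μ, fun t s hs ht => ?_⟩
  have htμ : 1 < v (t / μ) := by
    rw [map_div₀, lt_div_iff₀ (by linarith), one_mul]; exact ht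
  have hft : f.eval t ≠ 0 := by
    have e1 := eval_ne_zero_of_large hv f₁ hmon₁ hint₁ (t / μ) htμ
    have e2 := congrArg (eval (t / μ)) hcomp
    rw [eval_comp, eval_mul, eval_mul, eval_C, eval_C, eval_X, mul_div_cancel₀ t hμ0] at e2
    rw [e2]
    exact mul_ne_zero (pow_ne_zero _ hμ0) e1
  have hs0 : s ≠ 0 := by
    rintro rfl
    apply hft
    rw [← hs]; norm_num
  refine ⟨hs0, fun n hn hprin => ?_⟩
  obtain ⟨A, B, c, hc, hN, hB⟩ := exists_relation f ⟨g, hg⟩ t s hs hs0 n hn hprin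
  refine no_relation hv hv2 f₁ g hg1 hmon₁ hdeg₁ hint₁ (t / μ) htμ (A.comp (C μ * X))
    (C ν * B.comp (C μ * X)) (c * μ ^ n) (mul_ne_zero hc (pow_ne_zero _ hμ0)) n hn ?_ ?_
  · have e1 := congrArg (fun p => p.comp (C μ * X)) hN
    simp only [sub_comp, mul_comp, pow_comp, C_comp, X_comp, hcomp] at e1
    have e2 : (C μ * X - C t : E[X]) = C μ * (X - C (t / μ)) := by
      rw [mul_sub, ← C_mul, mul_div_cancel₀ t hμ0]
    rw [e2, mul_pow, ← C_pow, ← mul_assoc, ← C_mul] at e1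
    rw [← e1, ← hν, C_pow]; ring
  · rw [eval_mul, eval_C, eval_comp, eval_mul, eval_C, eval_X, mul_div_cancel₀ t hμ0]
    exact mul_ne_zero hν0 hB

end

end Pool.Agent.MPab1e31.Hyp
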