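import Mathlib
import Pool.Agent.MPab1e31.HypIdeal

/-!
Comparison of a real `2`-adic absolute value on an algebraic closure with an adic valuation of a
number field.
-/

namespace Pool.Agent.MPab1e31.Hyp

open Polynomial IsDedekindDomain NumberField

open scoped WithZero

/-- A `2`-adic absolute value. -/
theorem exists_abs (E : Type*) [Field E] [CharZero E] [Algebra.IsAlgebraic ℚ E] :
    ∃ v : AbsoluteValue E ℝ, IsNonarchimedean v ∧ v 2 < 1 := by
  let j : E →ₐ[ℚ] PadicAlgCl 2 := IsAlgClosed.lift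
  let v₀ : AbsoluteValue (PadicAlgCl 2) ℝ := IsAbsoluteValue.toAbsoluteValue norm
  refine ⟨v₀.comp (f := j.toRingHom) j.toRingHom.injective, ?_, ?_⟩
  · intro a b
    change ‖j (a + b)‖ ≤ max ‖j a‖ ‖j b‖
    rw [map_add]
    exact PadicAlgCl.isNonarchimedean 2 _ _
  · change ‖j 2‖ < 1
    rw [map_ofNat]
    have h1 : ((2 : ℚ_[2]) : PadicAlgCl 2) = 2 := map_ofNat (algebraMap ℚ_[2] (PadicAlgCl 2)) 2
    rw [← h1, PadicAlgCl.norm_extends]
    have h2 := Padic.norm_p (p := 2)
    have h3 : ((2 : ℕ) : ℚ_[2]) = 2 := by norm_num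
    rw [h3] at h2
    rw [h2]; norm_num

theorem abs_le_one_of_isIntegral {E : Type*} [Field E] {v : AbsoluteValue E ℝ}
    (hv : IsNonarchimedean v) {a : E} (ha : IsIntegral ℤ a) : v a ≤ 1 := by
  by_contra hlt
  push Not at hlt
  obtain ⟨p, hp, hpa⟩ := ha
  refine eval_ne_zero_of_large hv (p.map (algebraMap ℤ E)) (hp.map _) ?_ a hlt ?_
  · intro i
    rw [coeff_map]
    change v ((p.coeff i : ℤ) : E) ≤ 1
    rcases Int.eq_nat_or_neg (p.coeff i) with ⟨n, hn | hn⟩
    · rw [hn]; exact_mod_cast v_natCast_le hv n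
    · rw [hn, Int.cast_neg, v.map_neg]; exact_mod_cast v_natCast_le hv n
  · rw [eval_map]; exact hpa

/-- The comparison of valuations. -/
theorem exists_bridge {L E : Type*} [Field L] [NumberField L] [Field E] [Algebra L E]
    {v : AbsoluteValue E ℝ} (hv : IsNonarchimedean v) (hv2 : v 2 < 1) :
    ∃ P : HeightOneSpectrum (𝓞 L), P.valuation L 2 < 1 ∧
      (∀ y : L, P.valuation L y < 1 → v (algebraMap L E y) < 1) ∧
      ∀ K : ℝ, ∃ C : ℤᵐ⁰, ∀ x : L, C < P.valuation L x → K < v (algebraMap L E x) := by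
  have hint : ∀ a : 𝓞 L, v (algebraMap L E a) ≤ 1 := by
    intro a
    apply abs_le_one_of_isIntegral hv
    exact (RingOfIntegers.isIntegral_coe a).map (Algebra.ofId L E |>.restrictScalars ℤ)
  -- the prime ideal
  let I : Ideal (𝓞 L) :=
    { carrier := {a | v (algebraMap L E a) < 1}
      zero_mem' := by simp
      add_mem' := by
        intro a b ha hb
        change v (algebraMap L E ((a + b : 𝓞 L) : L)) < 1
        have : ((a + b : 𝓞 L) : L) = (a : L) + (b : L) := rfl
        rw [this, map_add]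
        exact lt_of_le_of_lt (hv _ _) (max_lt ha hb)
      smul_mem' := by
        intro c a ha
        change v (algebraMap L E ((c * a : 𝓞 L) : L)) < 1
        have : ((c * a : 𝓞 L) : L) = (c : L) * (a : L) := rfl
        rw [this, map_mul, map_mul]
        calc v (algebraMap L E c) * v (algebraMap L E a) ≤ 1 * v (algebraMap L E a) :=
              mul_le_mul_of_nonneg_right (hint c) (v.nonneg _)
          _ < 1 := by rw [one_mul]; exact ha }
  have hI : ∀ a : 𝓞 L, a ∈ I ↔ v (algebraMap L E a) < 1 := fun a => Iff.rfl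
  have hprime : I.IsPrime := by
    rw [Ideal.isPrime_iff]
    constructor
    · rw [Ne, Ideal.eq_top_iff_one, hI]
      have : (((1 : 𝓞 L)) : L) = 1 := rfl
      rw [this, map_one, map_one]; exact lt_irrefl _
    · intro a b hab
      by_contra hcon
      push Not at hcon
      rw [hI, not_lt] at hcon
      obtain ⟨h1, h2⟩ := hcon
      rw [hI, not_lt] at h2
      rw [hI] at hab
      have : ((a * b : 𝓞 L) : L) = (a : L) * (b : L) := rfl
      rw [this, map_mul, map_mul] at hab
      nlinarith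
  have h2I : (2 : 𝓞 L) ∈ I := by
    rw [hI]
    have : (((2 : 𝓞 L)) : L) = 2 := rfl
    rw [this, map_ofNat]; exact hv2
  have hbot : I ≠ ⊥ := by
    intro h0
    rw [h0, Ideal.mem_bot] at h2I
    exact two_ne_zero h2I
  let P : HeightOneSpectrum (𝓞 L) := ⟨I, hprime, hbot⟩
  have hP2 : P.valuation L 2 < 1 := by
    have h1 : (2 : L) = algebraMap (𝓞 L) L 2 := rfl
    rw [h1, HeightOneSpectrum.valuation_lt_one_iff_mem]
    exact h2I
  have hlt : ∀ y : L, P.valuation L y < 1 → v (algebraMap L E y) < 1 := by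
    intro y hy
    obtain ⟨a, d, had⟩ := P.exists_primeCompl_mul_eq_of_integer (K := L) y hy.le
    have hd : v (algebraMap L E ((d : 𝓞 L) : L)) = 1 := by
      refine le_antisymm (hint _) ?_
      rw [← not_lt, ← hI]
      exact d.2
    have hdP : P.valuation L (algebraMap (𝓞 L) L d) = 1 :=
      (P.valuation_eq_one_iff_notMem (K := L)).mpr d.2
    have haP : P.valuation L (algebraMap (𝓞 L) L a) < 1 := by
      rw [← had, map_mul, hdP, mul_one]; exact hy
    have haI : a ∈ I := (HeightOneSpectrum.valuation_lt_one_iff_mem P a).mp haP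
    have h1 : v (algebraMap L E (y * algebraMap (𝓞 L) L d)) < 1 := by
      rw [had]; exact haI
    rw [map_mul, map_mul] at h1
    have h2 : v (algebraMap L E (algebraMap (𝓞 L) L d)) = 1 := hd
    rwa [h2, mul_one] at h1
  refine ⟨P, hP2, hlt, fun K => ?_⟩
  have h2pos : 0 < v (2 : E) := by
    apply v.pos
    have : (2 : E) = algebraMap L E 2 := (map_ofNat _ 2).symm
    rw [this, Ne, map_eq_zero]
    exact two_ne_zero
  have hMpos : (0 : ℝ) < max 1 K := lt_of_lt_of_le one_pos (le_max_left _ _)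
  obtain ⟨k, hk⟩ := exists_pow_lt_of_lt_one (one_div_pos.mpr hMpos) hv2
  refine ⟨P.valuation L ((2 ^ k)⁻¹), fun x hx => ?_⟩
  have hx0 : x ≠ 0 := by
    rintro rfl
    rw [map_zero] at hx
    exact not_lt_zero hx
  have h1 : P.valuation L ((2 ^ k)⁻¹ * x⁻¹) < 1 := by
    rw [map_mul, map_inv₀ _ x]
    have hx' : P.valuation L x ≠ 0 := (Valuation.ne_zero_iff _).mpr hx0
    calc P.valuation L ((2 ^ k)⁻¹) * (P.valuation L x)⁻¹
        < P.valuation L x * (P.valuation L x)⁻¹ := by
          exact mul_lt_mul_of_pos_right hx (by simpa using zero_lt_iff.mpr hx')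
      _ = 1 := mul_inv_cancel₀ hx'
  have h2 := hlt _ h1
  have hvx : 0 < v (algebraMap L E x) := v.pos ((_root_.map_ne_zero _).mpr hx0)
  rw [map_mul, map_mul, map_inv₀, map_inv₀, map_inv₀, map_inv₀, map_pow, map_pow, map_ofNat] at h2
  rw [← div_eq_mul_inv, div_lt_one hvx] at h2
  refine lt_of_le_of_lt ?_ h2
  rw [lt_div_iff₀ (by positivity)] at hk
  calc K ≤ max 1 K := le_max_right _ _
    _ ≤ (v 2 ^ k)⁻¹ := by
      rw [← one_div, le_div_iff₀ (by positivity), mul_comm]; exact hk.le

end Pool.Agent.MPab1e31.Hyp
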