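import Pool.Agent.MPab1e31.HypPoint
import Pool.Agent.MPab1e31.Final

/-!
# Infinite rank of the class groups of hyperelliptic coordinate rings
-/

open scoped WithZero TensorProduct

open NumberField IsDedekindDomain Polynomial

namespace Pool.Agent.MPab1e31

section Points

variable {F₀ K Ω : Type*} [Field F₀] [NumberField F₀] [Field K] [Field Ω]
    [Algebra F₀ K] [Algebra K Ω] [Algebra F₀ Ω] [IsScalarTower F₀ K Ω]
    [Algebra.IsAlgebraic F₀ K] [IsAlgClosed Ω] [Algebra.IsAlgebraic K Ω]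

/-- Independent Galois invariant classes over the algebraic closure. -/
theorem hyp_exists_points [CharZero Ω] (hfg : IsTopFG (Ω ≃ₐ[K] Ω)) (f₀ : F₀[X]) (hmon : f₀.Monic)
    (hodd : Odd f₀.natDegree) (h3 : 3 ≤ f₀.natDegree)
    [IsDomain (QA Ω (f₀.map (algebraMap F₀ Ω)))] (m : ℕ) :
    ∃ v : Fin m → Additive (ICl (QA Ω (f₀.map (algebraMap F₀ Ω)))), LinearIndependent ℤ v ∧
      ∀ (k : Fin m) (γ : Ω ≃ₐ[K] Ω), rho f₀ (γ.restrictScalars F₀) (v k) = v k := by
  classical
  have : Algebra.IsAlgebraic F₀ Ω := Algebra.IsAlgebraic.trans F₀ K Ω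
  have : Algebra.IsAlgebraic ℚ Ω := Algebra.IsAlgebraic.trans ℚ F₀ Ω
  set L : IntermediateField F₀ Ω := IntermediateField.adjoin F₀ (f₀.rootSet Ω) with hL
  have hsplit : f₀.IsSplittingField F₀ L :=
    IntermediateField.adjoin_rootSet_isSplittingField (IsAlgClosed.splits _)
  have : FiniteDimensional F₀ L := Polynomial.IsSplittingField.finiteDimensional L f₀
  have : Normal F₀ L := Normal.of_isSplittingField f₀
  have : NumberField L := NumberField.of_module_finite F₀ L
  set p : Polynomial L := f₀.map (algebraMap F₀ L) with hp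
  have hps : p.Splits := Polynomial.IsSplittingField.splits L f₀
  have hdeg : p.natDegree = f₀.natDegree := by
    rw [hp, Polynomial.natDegree_map]
  have hpmon : p.Monic := hmon.map _
  have hcard : Odd (Multiset.card p.roots) := by
    rw [← hps.natDegree_eq_card_roots, hdeg]
    exact hodd
  set g : Polynomial Ω := f₀.map (algebraMap F₀ Ω) with hg
  have hpg : p.map (algebraMap L Ω) = g := by
    rw [hp, Polynomial.map_map, hg, ← IsScalarTower.algebraMap_eq]
  -- the value of the polynomial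
  have hval : ∀ (x : L) (s : Ω), s ^ 2 = (p.roots.map fun e : L => (x : Ω) - (e : Ω)).prod →
      s ^ 2 = g.eval (x : Ω) := by
    intro x s hs
    have h1 : (p.roots.map fun e : L => (x : Ω) - (e : Ω)).prod =
        algebraMap L Ω ((p.roots.map (x - ·)).prod) := by
      rw [map_multiset_prod, Multiset.map_map]
      rfl
    have h2 := hps.eval_eq_prod_roots x
    rw [hpmon.leadingCoeff, one_mul] at h2
    have h5 : (p.map (algebraMap L Ω)).eval (x : Ω) = algebraMap L Ω (p.eval x) := by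
      rw [Polynomial.eval_map]
      exact Polynomial.eval₂_at_apply (algebraMap L Ω) x
    rw [hs, h1, ← h2, ← hpg, h5]
  obtain ⟨v, hv, hv2⟩ := Hyp.exists_abs Ω
  obtain ⟨P, hP2, -, hPC⟩ := Hyp.exists_bridge (L := L) (E := Ω) hv hv2
  obtain ⟨ϖ, hϖ⟩ := P.valuation_exists_uniformizer L
  have hgmon : g.Monic := hmon.map _
  have hgdeg : g.natDegree = f₀.natDegree := Polynomial.natDegree_map _
  obtain ⟨C₀, hC₀⟩ := Hyp.hyp_nontorsion hv hv2 g hgmon (by rw [hgdeg]; exact hodd)
    (by rw [hgdeg]; exact h3)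
  obtain ⟨C, hC⟩ := hPC C₀
  refine exists_independent (rho f₀) L hfg p.roots hcard (pcl g) ?_ ?_ (P.valuation L) ϖ hϖ C ?_ m
  · intro x s _
    exact pcl_neg g _ _
  · intro γ hγ x s _
    rw [rho_pcl, hγ x x.2]
  · intro x hx s hs n hn
    have h1 := hval x s hs
    obtain ⟨h2, h4⟩ := hC₀ (x : Ω) s h1 (hC x hx)
    exact pcl_nontorsion g h1 h2 h4 n hn

/-- Independent classes over `K`. -/
theorem hyp_exists_classes [CharZero Ω] [CharZero K] (hfg : IsTopFG (Ω ≃ₐ[K] Ω)) (f₀ : F₀[X])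
    (hmon : f₀.Monic) (hodd : Odd f₀.natDegree) (h3 : 3 ≤ f₀.natDegree) (f : K[X])
    (hf : f₀.map (algebraMap F₀ K) = f) [IsDomain (QA K f)] (m : ℕ) :
    ∃ v : Fin m → Additive (ICl (QA K f)), LinearIndependent ℤ v := by
  classical
  have : IsAlgClosure K Ω := ⟨inferInstance, inferInstance⟩
  have : Normal K Ω := IsAlgClosure.normal K Ω
  have : IsGalois K Ω := ⟨⟩
  have hdom : IsDomain (QA Ω (f₀.map (algebraMap F₀ Ω))) := by
    refine qa_isDomain ?_
    rw [Polynomial.natDegree_map]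
    exact hodd
  obtain ⟨v, hv, hfix⟩ := hyp_exists_points (K := K) hfg f₀ hmon hodd h3 m
  have hfg' : f.map (algebraMap K Ω) = f₀.map (algebraMap F₀ Ω) := by
    rw [← hf, Polynomial.map_map, ← IsScalarTower.algebraMap_eq]
  have key : ∀ k : Fin m, ∃ n : ℕ, 0 < n ∧ ∃ d : ICl (QA K f),
      clMap (qmap (algebraMap K Ω) hfg') (qmap_injective _ _) d = (v k).toMul ^ n := by
    intro k
    refine exists_pow_of_fixed' f _ hfg' (v k).toMul fun γ h => ?_
    have h1 := hfix k γ
    rw [rho_apply] at h1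
    exact Additive.ofMul.injective h1
  choose n hn d hd using key
  refine ⟨fun k => Additive.ofMul (d k), ?_⟩
  set E : Additive (ICl (QA K f)) →ₗ[ℤ] Additive (ICl (QA Ω (f₀.map (algebraMap F₀ Ω)))) :=
    (clMap (qmap (algebraMap K Ω) hfg') (qmap_injective _ _)).toAdditive.toIntLinearMap with hE
  have hEd : ∀ k, E (Additive.ofMul (d k)) = (n k : ℤ) • v k := by
    intro k
    show Additive.ofMul (clMap (qmap (algebraMap K Ω) hfg') (qmap_injective _ _) (d k)) = _
    rw [hd, ofMul_pow, ofMul_toMul, natCast_zsmul]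
  refine LinearIndependent.of_comp E ?_
  rw [linearIndependent_iff'] at hv ⊢
  intro s c hc k hk
  have h1 : ∑ i ∈ s, (c i * (n i : ℤ)) • v i = 0 := by
    rw [← hc]
    refine Finset.sum_congr rfl fun i _ => ?_
    rw [mul_smul, ← hEd]
    rfl
  have h2 := hv s _ h1 k hk
  have h4 : (n k : ℤ) ≠ 0 := by exact_mod_cast (hn k).ne'
  exact (mul_eq_zero.mp h2).resolve_right h4

end Points

section Final

/-- A monic polynomial over an algebraic extension of `ℚ` is defined over a number field. -/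
lemma exists_model_poly (K : Type*) [Field K] [CharZero K] [Algebra.IsAlgebraic ℚ K] (f : K[X])
    (hmon : f.Monic) :
    ∃ (F₀ : IntermediateField ℚ K) (_ : FiniteDimensional ℚ F₀) (f₀ : Polynomial F₀),
      f₀.Monic ∧ f₀.map (algebraMap F₀ K) = f := by
  classical
  set F₀ : IntermediateField ℚ K := IntermediateField.adjoin ℚ (f.coeffs : Set K) with hF₀
  have hfin : FiniteDimensional ℚ F₀ :=
    IntermediateField.finiteDimensional_adjoin (S := (f.coeffs : Set K))
      fun x _ => (Algebra.IsAlgebraic.isAlgebraic (R := ℚ) x).isIntegral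
  have hmem : ∀ i, f.coeff i ∈ F₀ := by
    intro i
    by_cases h0 : f.coeff i = 0
    · rw [h0]
      exact zero_mem _
    · exact IntermediateField.subset_adjoin ℚ _ (Polynomial.coeff_mem_coeffs h0)
  have h1 : f ∈ Polynomial.lifts (algebraMap F₀ K) := by
    rw [Polynomial.lifts_iff_coeff_lifts]
    intro n
    exact ⟨⟨f.coeff n, hmem n⟩, rfl⟩
  obtain ⟨f₀, hf₀⟩ := (Polynomial.mem_lifts _).mp h1
  refine ⟨F₀, hfin, f₀, ?_, hf₀⟩
  rw [← hf₀] at hmon
  exact Polynomial.monic_of_injective (algebraMap F₀ K).injective hmon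

/-- The monic case, for the group of ideal classes. -/
theorem hyp_classes_monic (K : Type*) [Field K] [CharZero K] [Algebra.IsAlgebraic ℚ K]
    (hK : IsTopFG (AlgebraicClosure K ≃ₐ[K] AlgebraicClosure K)) (f : K[X]) (hmon : f.Monic)
    (hodd : Odd f.natDegree) (h3 : 3 ≤ f.natDegree) [IsDomain (QA K f)] (m : ℕ) :
    ∃ v : Fin m → Additive (ICl (QA K f)), LinearIndependent ℤ v := by
  obtain ⟨F₀, hfin, f₀, hmon₀, hf₀⟩ := exists_model_poly K f hmon
  have : NumberField F₀ := ⟨⟩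
  have : Algebra.IsAlgebraic F₀ K := Algebra.IsAlgebraic.tower_top (K := ℚ) F₀
  have hdeg : f₀.natDegree = f.natDegree := by
    rw [← hf₀, Polynomial.natDegree_map]
  have : CharZero (AlgebraicClosure K) := charZero_of_injective_algebraMap
    (algebraMap K (AlgebraicClosure K)).injective
  exact hyp_exists_classes (F₀ := F₀) (Ω := AlgebraicClosure K) hK f₀ hmon₀
    (by rw [hdeg]; exact hodd) (by rw [hdeg]; exact h3) f hf₀ m

end Final

section Scale

variable {k : Type*} [Field k]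

/-- Rescaling of the coordinates. -/
noncomputable def scaleHom (f f₁ : k[X]) (a : k) (c : k)
    (h : f₁ * C (c ^ 2) = f.comp (C a * X)) : QA k f →+* QA k f₁ where
  toFun z := ⟨z.re.comp (C a * X), z.im.comp (C a * X) * C c⟩
  map_one' := by
    ext <;> simp [QuadraticAlgebra.re_one, QuadraticAlgebra.im_one]
  map_zero' := by
    ext <;> simp
  map_add' z w := by
    refine QuadraticAlgebra.ext ?_ ?_
    · simp
    · simp [add_mul]
  map_mul' z w := by
    refine QuadraticAlgebra.ext ?_ ?_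
    · rw [QuadraticAlgebra.re_mul, QuadraticAlgebra.re_mul]
      show (z.re * w.re + f * z.im * w.im).comp (C a * X) = _
      rw [add_comp, mul_comp, mul_comp, mul_comp, ← h, C_pow]
      ring
    · rw [QuadraticAlgebra.im_mul, QuadraticAlgebra.im_mul]
      show (z.re * w.im + z.im * w.re + 0 * z.im * w.im).comp (C a * X) * C c = _
      rw [add_comp, add_comp, mul_comp, mul_comp]
      simp only [zero_mul, zero_comp, add_zero]
      ring

lemma scaleHom_scaleHom (f f₁ : k[X]) (a c a' c' : k)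
    (h : f₁ * C (c ^ 2) = f.comp (C a * X)) (h' : f * C (c' ^ 2) = f₁.comp (C a' * X))
    (ha : a * a' = 1) (hc : c * c' = 1) (z : QA k f) :
    scaleHom f₁ f a' c' h' (scaleHom f f₁ a c h z) = z := by
  have h1 : ∀ p : k[X], (p.comp (C a * X)).comp (C a' * X) = p := by
    intro p
    rw [comp_assoc, mul_comp, C_comp, X_comp, ← mul_assoc, ← C_mul, ha, C_1, one_mul, comp_X]
  refine QuadraticAlgebra.ext ?_ ?_
  · exact h1 _
  · show (z.im.comp (C a * X) * C c).comp (C a' * X) * C c' = z.im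
    rw [mul_comp, h1, C_comp, mul_assoc, ← C_mul, hc, C_1, mul_one]

/-- Every `f` of odd degree can be made monic. -/
lemma exists_monic_model (f : k[X]) (hodd : Odd f.natDegree) :
    ∃ f₁ : k[X], f₁.Monic ∧ f₁.natDegree = f.natDegree ∧ Nonempty (QA k f₁ ≃+* QA k f) := by
  obtain ⟨m, hm⟩ := hodd
  have hf0 : f ≠ 0 := by
    rintro rfl
    rw [natDegree_zero] at hm
    omega
  set a := f.leadingCoeff with ha
  have ha0 : a ≠ 0 := leadingCoeff_ne_zero.mpr hf0
  set f₁ : k[X] := f.comp (C a⁻¹ * X) * C ((a ^ m) ^ 2) with hf₁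
  have hd1 : (C a⁻¹ * X : k[X]).natDegree = 1 := natDegree_C_mul_X _ (inv_ne_zero ha0)
  have hlc : (f.comp (C a⁻¹ * X)).leadingCoeff = a * (a⁻¹) ^ (2 * m + 1) := by
    rw [leadingCoeff_comp (by rw [hd1]; exact one_ne_zero), leadingCoeff_C_mul_X, hm]
  have hdeg : f₁.natDegree = f.natDegree := by
    rw [hf₁, natDegree_mul_C (pow_ne_zero _ (pow_ne_zero _ ha0)), natDegree_comp, hd1, mul_one]
  have hmon : f₁.Monic := by
    rw [Monic, hf₁, leadingCoeff_mul, hlc, leadingCoeff_C]
    have e1 : a * a⁻¹ ^ (2 * m + 1) * (a ^ m) ^ 2 = (a * a⁻¹) ^ (2 * m + 1) := by ring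
    rw [e1, mul_inv_cancel₀ ha0, one_pow]
  have h1 : f₁ * C (((a⁻¹) ^ m) ^ 2) = f.comp (C a⁻¹ * X) := by
    rw [hf₁, mul_assoc, ← C_mul, ← mul_pow, ← mul_pow, mul_inv_cancel₀ ha0, one_pow, one_pow, C_1,
      mul_one]
  have h2 : f * C ((a ^ m) ^ 2) = f₁.comp (C a * X) := by
    rw [hf₁, mul_comp, C_comp, comp_assoc, mul_comp, C_comp, X_comp, ← mul_assoc, ← C_mul,
      inv_mul_cancel₀ ha0, C_1, one_mul, comp_X]
  refine ⟨f₁, hmon, hdeg, ⟨RingEquiv.ofRingHom (scaleHom f₁ f a (a ^ m) h2)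
    (scaleHom f f₁ a⁻¹ ((a⁻¹) ^ m) h1) ?_ ?_⟩⟩
  · refine RingHom.ext fun z => ?_
    exact scaleHom_scaleHom f f₁ _ _ _ _ h1 h2 (inv_mul_cancel₀ ha0)
      (by rw [← mul_pow, inv_mul_cancel₀ ha0, one_pow]) z
  · refine RingHom.ext fun z => ?_
    exact scaleHom_scaleHom f₁ f _ _ _ _ h2 h1 (mul_inv_cancel₀ ha0)
      (by rw [← mul_pow, mul_inv_cancel₀ ha0, one_pow]) z

end Scale

section Result

/-- **Infinite rank for hyperelliptic curves.** -/
theorem hyp_infinite_rank (K : Type*) [Field K] [CharZero K] [Algebra.IsAlgebraic ℚ K]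
    (hK : IsTopFG (AlgebraicClosure K ≃ₐ[K] AlgebraicClosure K)) (f : K[X])
    (hodd : Odd f.natDegree) (h3 : 3 ≤ f.natDegree)
    [IsDomain (AdjoinRoot (X ^ 2 - C f : K[X][X]))] :
    ¬ Module.Finite ℚ (ℚ ⊗[ℤ] Additive (ClassGroup (AdjoinRoot (X ^ 2 - C f : K[X][X])))) := by
  obtain ⟨f₁, hmon, hdeg, ⟨e⟩⟩ := exists_monic_model f hodd
  have hdom : IsDomain (QA K f₁) := qa_isDomain (by rw [hdeg]; exact hodd)
  refine not_finite_of_independent fun m => ?_
  obtain ⟨v, hv⟩ := hyp_classes_monic K hK f₁ hmon (by rw [hdeg]; exact hodd)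
    (by rw [hdeg]; exact h3) m
  set e' : QA K f₁ ≃+* AdjoinRoot (X ^ 2 - C f : K[X][X]) := e.trans (qaEquiv f) with he'
  set Φ : ICl (QA K f₁) →* ClassGroup (AdjoinRoot (X ^ 2 - C f : K[X][X])) :=
    (ClassGroup.mulEquiv e').toMonoidHom.comp toClassGroup with hΦ
  have hΦi : Function.Injective Φ := by
    rw [hΦ]
    exact (ClassGroup.mulEquiv e').injective.comp toClassGroup_injective
  refine ⟨fun k => Φ.toAdditive (v k), ?_⟩
  exact hv.map_injOn Φ.toAdditive.toIntLinearMap (hΦi.injOn)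

end Result

end Pool.Agent.MPab1e31
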