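import Pool.Agent.MPab1e31.FixedClass
import Pool.Agent.MPab1e31.HypBridge

/-!
# Classes of points on a hyperelliptic curve
-/

open Polynomial

namespace Pool.Agent.MPab1e31

section Equiv

variable {k : Type*} [Field k] (f : k[X])

/-- The two models of the coordinate ring. -/
noncomputable def qaHom : QA k f →+* Hyp.CRing f where
  toFun z := Hyp.elt f z.re z.im
  map_one' := by
    rw [QuadraticAlgebra.re_one, QuadraticAlgebra.im_one, Hyp.elt, map_one, map_zero, zero_mul,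
      add_zero]
  map_zero' := by
    rw [QuadraticAlgebra.re_zero, QuadraticAlgebra.im_zero, Hyp.elt, map_zero, zero_mul, add_zero]
  map_add' z w := by
    rw [Hyp.elt_add]
    rfl
  map_mul' z w := by
    rw [Hyp.elt_mul, QuadraticAlgebra.re_mul, QuadraticAlgebra.im_mul]
    congr 1
    · ring
    · ring

/-- The two models of the coordinate ring are isomorphic. -/
noncomputable def qaEquiv : QA k f ≃+* Hyp.CRing f :=
  RingEquiv.ofBijective (qaHom f) ⟨fun z w h => by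
    obtain ⟨h1, h2⟩ := Hyp.elt_injective (show Hyp.elt f z.re z.im = Hyp.elt f w.re w.im from h)
    exact QuadraticAlgebra.ext h1 h2, fun r => by
    obtain ⟨A, B, rfl⟩ := Hyp.exists_elt f r
    exact ⟨⟨A, B⟩, rfl⟩⟩

lemma qaEquiv_mk (A B : k[X]) : qaEquiv f ⟨A, B⟩ = Hyp.elt f A B := rfl

/-- The ideal of the point `(t, s)`. -/
noncomputable def ptI (t s : k) : Ideal (QA k f) :=
  Ideal.span {(⟨X - C t, 0⟩ : QA k f), (⟨-C s, 1⟩ : QA k f)}

lemma map_ptI (t s : k) : (ptI f t s).map (qaEquiv f : QA k f →+* Hyp.CRing f) =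
    Hyp.ptIdeal f t s := by
  rw [ptI, Ideal.map_span, Set.image_pair]
  rfl

lemma map_qaEquiv_injective {I J : Ideal (QA k f)}
    (h : I.map (qaEquiv f : QA k f →+* Hyp.CRing f) =
      J.map (qaEquiv f : QA k f →+* Hyp.CRing f)) : I = J := by
  have h2 : ∀ I : Ideal (QA k f), (I.map (qaEquiv f : QA k f →+* Hyp.CRing f)).comap
      (qaEquiv f : QA k f →+* Hyp.CRing f) = I := fun I =>
    Ideal.comap_map_of_bijective (qaEquiv f : QA k f →+* Hyp.CRing f) (qaEquiv f).bijective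
  rw [← h2 I, h, h2 J]

lemma ptI_mul [CharZero k] {t s : k} (hs : s ^ 2 = f.eval t) (hs0 : s ≠ 0) :
    ptI f t s * ptI f t (-s) = Ideal.span {(⟨X - C t, 0⟩ : QA k f)} := by
  apply map_qaEquiv_injective
  rw [Ideal.map_mul, map_ptI, map_ptI, Hyp.ptIdeal_mul f t s hs hs0, Ideal.map_span,
    Set.image_singleton]
  rfl

lemma mk_ne_zero (t : k) : (⟨X - C t, 0⟩ : QA k f) ≠ 0 := by
  intro h
  exact X_sub_C_ne_zero t (congrArg QuadraticAlgebra.re h)

lemma ptI_mem [CharZero k] [IsDomain (QA k f)] {t s : k} (hs : s ^ 2 = f.eval t) (hs0 : s ≠ 0) :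
    ptI f t s ∈ InvIdeals (QA k f) :=
  ⟨ptI f t (-s), _, mk_ne_zero f t, ptI_mul f hs hs0⟩

end Equiv

section MapPt

variable {k k' : Type*} [Field k] [Field k']

lemma map_qmap_ptI (g : k →+* k') {f : k[X]} {f' : k'[X]} (h : f.map g = f') (t s : k) :
    (ptI f t s).map (qmap g h) = ptI f' (g t) (g s) := by
  rw [ptI, ptI, Ideal.map_span, Set.image_pair]
  congr 2
  · exact QuadraticAlgebra.ext (by simp) (by simp)
  · congr 1
    exact QuadraticAlgebra.ext (by simp) (by simp)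

end MapPt

section Class

variable {Ω : Type*} [Field Ω] [CharZero Ω] (g : Polynomial Ω) [IsDomain (QA Ω g)]

open Classical in
/-- The class of the point `(t, s)`. -/
noncomputable def pcl (t s : Ω) : Additive (ICl (QA Ω g)) :=
  if h : s ^ 2 = g.eval t ∧ s ≠ 0 then Additive.ofMul (cls (ptI g t s) (ptI_mem g h.1 h.2)) else 0

lemma pcl_pos {t s : Ω} (h : s ^ 2 = g.eval t) (h0 : s ≠ 0) :
    pcl g t s = Additive.ofMul (cls (ptI g t s) (ptI_mem g h h0)) := dif_pos ⟨h, h0⟩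

lemma pcl_neg (t s : Ω) : pcl g t (-s) = -pcl g t s := by
  by_cases h : s ^ 2 = g.eval t ∧ s ≠ 0
  · have h' : (-s) ^ 2 = g.eval t := by rw [neg_sq, h.1]
    rw [pcl_pos g h.1 h.2, pcl_pos g h' (neg_ne_zero.mpr h.2), eq_neg_iff_add_eq_zero, add_comm,
      ← ofMul_mul, ← cls_mul, ← ofMul_one]
    congr 1
    rw [cls_eq_one]
    exact ⟨_, mk_ne_zero g t, ptI_mul g h.1 h.2⟩
  · have h' : ¬((-s) ^ 2 = g.eval t ∧ -s ≠ 0) := by
      rwa [neg_sq, neg_ne_zero]
    rw [pcl, pcl, dif_neg h, dif_neg h', neg_zero]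

lemma pcl_nontorsion {t s : Ω} (h : s ^ 2 = g.eval t) (h0 : s ≠ 0)
    (hn : ∀ n : ℕ, n ≠ 0 → ¬ (Hyp.ptIdeal g t s ^ n).IsPrincipal) (n : ℤ) (hn0 : n ≠ 0) :
    n • pcl g t s ≠ 0 := by
  have key : ∀ n : ℕ, n ≠ 0 → n • pcl g t s ≠ 0 := by
    intro n hn0 h1
    rw [pcl_pos g h h0, ← ofMul_pow, ← cls_pow, ← ofMul_one] at h1
    have h2 := Additive.ofMul.injective h1
    rw [cls_eq_one] at h2
    obtain ⟨z, -, hz⟩ := h2
    refine hn n hn0 ⟨qaEquiv g z, ?_⟩
    rw [← map_ptI, ← Ideal.map_pow, hz, Ideal.map_span, Set.image_singleton]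
    rfl
  rcases Int.natAbs_eq n with h1 | h1
  · rw [h1, natCast_zsmul]
    exact key _ (Int.natAbs_ne_zero.mpr hn0)
  · rw [h1, neg_smul, natCast_zsmul, neg_ne_zero]
    exact key _ (Int.natAbs_ne_zero.mpr hn0)

end Class

section Rho

variable {F₀ Ω : Type*} [Field F₀] [Field Ω] [Algebra F₀ Ω] (f₀ : F₀[X])
  [IsDomain (QA Ω (f₀.map (algebraMap F₀ Ω)))]

/-- The action of automorphisms on ideal classes. -/
noncomputable def rho : (Ω ≃ₐ[F₀] Ω) →*
    AddMonoid.End (Additive (ICl (QA Ω (f₀.map (algebraMap F₀ Ω))))) where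
  toFun γ := (actCl f₀ γ).toAdditive
  map_one' := by
    refine AddMonoidHom.ext fun c => ?_
    show Additive.ofMul (actCl f₀ 1 c.toMul) = c
    have h1 : act f₀ (1 : Ω ≃ₐ[F₀] Ω) = RingHom.id _ := by
      refine RingHom.ext fun z => ?_
      exact QuadraticAlgebra.ext (Polynomial.map_id) (Polynomial.map_id)
    have h2 : ∀ c : ICl (QA Ω (f₀.map (algebraMap F₀ Ω))), actCl f₀ 1 c = c := by
      intro c
      obtain ⟨I, hI, rfl⟩ := cls_surj c
      rw [actCl, clMap_cls]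
      congr 1
      rw [h1]
      exact Ideal.map_id I
    rw [h2]
    rfl
  map_mul' γ γ' := by
    refine AddMonoidHom.ext fun c => ?_
    show Additive.ofMul (actCl f₀ (γ * γ') c.toMul) =
      Additive.ofMul (actCl f₀ γ (actCl f₀ γ' c.toMul))
    congr 1
    generalize c.toMul = d
    obtain ⟨I, hI, rfl⟩ := cls_surj d
    rw [actCl, actCl, actCl, clMap_cls, clMap_cls, clMap_cls]
    congr 1
    rw [act_mul, Ideal.map_map]

lemma rho_apply (γ : Ω ≃ₐ[F₀] Ω) (c : Additive (ICl (QA Ω (f₀.map (algebraMap F₀ Ω))))) :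
    rho f₀ γ c = Additive.ofMul (actCl f₀ γ c.toMul) := rfl

lemma eval_aut (γ : Ω ≃ₐ[F₀] Ω) (t : Ω) :
    (f₀.map (algebraMap F₀ Ω)).eval (γ t) = γ ((f₀.map (algebraMap F₀ Ω)).eval t) := by
  rw [eval_map_algebraMap, eval_map_algebraMap]
  exact aeval_algHom_apply (γ : Ω →ₐ[F₀] Ω) t f₀

lemma rho_pcl [CharZero Ω] (γ : Ω ≃ₐ[F₀] Ω) (t s : Ω) :
    rho f₀ γ (pcl (f₀.map (algebraMap F₀ Ω)) t s) =
      pcl (f₀.map (algebraMap F₀ Ω)) (γ t) (γ s) := by
  by_cases h : s ^ 2 = (f₀.map (algebraMap F₀ Ω)).eval t ∧ s ≠ 0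
  · have h' : (γ s) ^ 2 = (f₀.map (algebraMap F₀ Ω)).eval (γ t) := by
      rw [eval_aut, ← h.1, map_pow]
    have h0' : γ s ≠ 0 := (map_ne_zero_iff _ γ.injective).mpr h.2
    rw [pcl_pos _ h.1 h.2, pcl_pos _ h' h0', rho_apply]
    congr 1
    show clMap (act f₀ γ) (act_injective f₀ γ) (cls _ _) = _
    rw [clMap_cls]
    congr 1
    exact map_qmap_ptI _ _ _ _
  · have h' : ¬((γ s) ^ 2 = (f₀.map (algebraMap F₀ Ω)).eval (γ t) ∧ γ s ≠ 0) := by
      rintro ⟨h1, h2⟩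
      refine h ⟨?_, ?_⟩
      · rw [eval_aut, ← map_pow] at h1
        exact γ.injective h1
      · rintro rfl
        exact h2 (map_zero γ)
    rw [pcl, pcl, dif_neg h, dif_neg h', map_zero]

end Rho

section Fixed

variable {K Ω : Type*} [Field K] [Field Ω] [Algebra K Ω] [IsGalois K Ω]

/-- A positive power of a Galois invariant ideal class comes from the base. -/
theorem exists_pow_of_fixed' (f : K[X]) [IsDomain (QA K f)] (g : Polynomial Ω)
    (hg : f.map (algebraMap K Ω) = g) [IsDomain (QA Ω g)] (c : ICl (QA Ω g))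
    (hc : ∀ (γ : Ω ≃ₐ[K] Ω) (h : g.map (γ : Ω →+* Ω) = g),
      clMap (qmap (γ : Ω →+* Ω) h) (qmap_injective _ _) c = c) :
    ∃ n : ℕ, 0 < n ∧ ∃ d : ICl (QA K f),
      clMap (qmap (algebraMap K Ω) hg) (qmap_injective _ _) d = c ^ n := by
  subst hg
  exact exists_pow_of_fixed f c fun γ => hc γ _

end Fixed

end Pool.Agent.MPab1e31
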