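import Mathlib

/-!
# The group of classes of invertible integral ideals of a domain
-/

open scoped nonZeroDivisors

namespace Pool.Agent.MPab1e31

variable (S : Type*) [CommRing S] [IsDomain S]

/-- The monoid of invertible integral ideals. -/
def InvIdeals : Submonoid (Ideal S) where
  carrier := {I | ∃ (J : Ideal S) (h : S), h ≠ 0 ∧ I * J = Ideal.span {h}}
  one_mem' := ⟨1, 1, one_ne_zero, by simp⟩
  mul_mem' := by
    rintro I I' ⟨J, h, hh, e⟩ ⟨J', h', hh', e'⟩
    refine ⟨J * J', h * h', mul_ne_zero hh hh', ?_⟩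
    rw [mul_mul_mul_comm, e, e', Ideal.span_singleton_mul_span_singleton]

variable {S}

lemma mem_invIdeals {I : Ideal S} :
    I ∈ InvIdeals S ↔ ∃ (J : Ideal S) (h : S), h ≠ 0 ∧ I * J = Ideal.span {h} := Iff.rfl

lemma span_mem_invIdeals {a : S} (ha : a ≠ 0) : Ideal.span {a} ∈ InvIdeals S :=
  ⟨1, a, ha, mul_one _⟩

lemma invIdeals_ne_bot {I : Ideal S} (hI : I ∈ InvIdeals S) : I ≠ ⊥ := by
  rintro rfl
  obtain ⟨J, h, hh, e⟩ := hI
  rw [Ideal.bot_mul] at e
  exact hh (Ideal.span_singleton_eq_bot.mp e.symm)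

lemma invIdeals_cancel {I : Ideal S} (hI : I ∈ InvIdeals S) {A B : Ideal S} (h : I * A = I * B) :
    A = B := by
  obtain ⟨J, x, hx, e⟩ := hI
  have h1 : Ideal.span {x} * A = Ideal.span {x} * B := by
    rw [← e, mul_comm I J, mul_assoc, mul_assoc, h]
  exact (Ideal.span_singleton_mul_right_inj hx).mp h1

variable (S)

/-- Two ideals are equivalent when they differ by a principal fractional ideal. -/
def idealCon : Con (InvIdeals S) where
  r I J := ∃ a b : S, a ≠ 0 ∧ b ≠ 0 ∧ Ideal.span {a} * (I : Ideal S) = Ideal.span {b} * (J : Ideal S)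
  iseqv := by
    refine ⟨fun I => ⟨1, 1, one_ne_zero, one_ne_zero, rfl⟩, ?_, ?_⟩
    · rintro I J ⟨a, b, ha, hb, e⟩
      exact ⟨b, a, hb, ha, e.symm⟩
    · rintro I J K ⟨a, b, ha, hb, e⟩ ⟨c, d, hc, hd, e'⟩
      refine ⟨c * a, b * d, mul_ne_zero hc ha, mul_ne_zero hb hd, ?_⟩
      rw [← Ideal.span_singleton_mul_span_singleton, ← Ideal.span_singleton_mul_span_singleton,
        mul_assoc, e, mul_left_comm, e', mul_assoc]
  mul' := by
    rintro I J I' J' ⟨a, b, ha, hb, e⟩ ⟨c, d, hc, hd, e'⟩
    refine ⟨a * c, b * d, mul_ne_zero ha hc, mul_ne_zero hb hd, ?_⟩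
    rw [← Ideal.span_singleton_mul_span_singleton, ← Ideal.span_singleton_mul_span_singleton,
      Submonoid.coe_mul, Submonoid.coe_mul, mul_mul_mul_comm, e, e', mul_mul_mul_comm]

/-- The ideal class group (invertible integral ideals modulo principal ones). -/
abbrev ICl := (idealCon S).Quotient

lemma ICl.isUnit (c : ICl S) : IsUnit c := by
  induction c using Con.induction_on with
  | H I =>
    obtain ⟨J, h, hh, e⟩ := I.2
    have hJ : J ∈ InvIdeals S := ⟨I, h, hh, by rw [mul_comm, e]⟩
    refine IsUnit.of_mul_eq_one ((⟨J, hJ⟩ : InvIdeals S) : ICl S) ?_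
    rw [← Con.coe_mul, ← Con.coe_one, Con.eq]
    refine ⟨1, h, one_ne_zero, hh, ?_⟩
    rw [Submonoid.coe_mul, Submonoid.coe_one, mul_one, e, Ideal.span_singleton_one, Ideal.top_mul]

noncomputable instance : CommGroup (ICl S) :=
  { (inferInstance : CommMonoid (ICl S)), commGroupOfIsUnit (ICl.isUnit S) with }

variable {S}

/-- The class of an ideal. -/
def cls (I : Ideal S) (hI : I ∈ InvIdeals S) : ICl S := ((⟨I, hI⟩ : InvIdeals S) : ICl S)

lemma cls_surj (c : ICl S) : ∃ (I : Ideal S) (hI : I ∈ InvIdeals S), c = cls I hI := by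
  induction c using Con.induction_on with
  | H I => exact ⟨I, I.2, rfl⟩

lemma cls_eq_cls {I J : Ideal S} (hI : I ∈ InvIdeals S) (hJ : J ∈ InvIdeals S) :
    cls I hI = cls J hJ ↔
      ∃ a b : S, a ≠ 0 ∧ b ≠ 0 ∧ Ideal.span {a} * I = Ideal.span {b} * J :=
  Con.eq _

lemma cls_mul {I J : Ideal S} (hI : I ∈ InvIdeals S) (hJ : J ∈ InvIdeals S) :
    cls (I * J) (mul_mem hI hJ) = cls I hI * cls J hJ := rfl

lemma cls_pow {I : Ideal S} (hI : I ∈ InvIdeals S) (n : ℕ) :
    cls (I ^ n) (pow_mem hI n) = cls I hI ^ n := by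
  induction n with
  | zero => rfl
  | succ n ih =>
    rw [pow_succ (cls I hI), ← ih, ← cls_mul]
    congr 1

lemma cls_prod {ι : Type*} (s : Finset ι) (I : ι → Ideal S) (hI : ∀ i, I i ∈ InvIdeals S) :
    cls (∏ i ∈ s, I i) (prod_mem fun i _ => hI i) = ∏ i ∈ s, cls (I i) (hI i) := by
  classical
  induction s using Finset.induction_on with
  | empty => rfl
  | insert a s ha ih =>
    have h1 : ∏ i ∈ insert a s, cls (I i) (hI i) = cls (I a) (hI a) * ∏ i ∈ s, cls (I i) (hI i) :=
      Finset.prod_insert ha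
    rw [h1, ← ih, ← cls_mul]
    congr 1
    exact Finset.prod_insert ha

lemma cls_eq_one {I : Ideal S} (hI : I ∈ InvIdeals S) :
    cls I hI = 1 ↔ ∃ z : S, z ≠ 0 ∧ I = Ideal.span {z} := by
  have h1 : (1 : ICl S) = cls (1 : Ideal S) (one_mem _) := rfl
  rw [h1, cls_eq_cls]
  constructor
  · rintro ⟨a, b, ha, hb, e⟩
    rw [mul_one] at e
    have hba : b ∈ Ideal.span {a} * I := by
      rw [e]
      exact Ideal.mem_span_singleton_self b
    obtain ⟨z, hz, hzb⟩ := Ideal.mem_span_singleton_mul.mp hba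
    refine ⟨z, ?_, ?_⟩
    · rintro rfl
      rw [mul_zero] at hzb
      exact hb hzb.symm
    · rw [← hzb, ← Ideal.span_singleton_mul_span_singleton] at e
      exact (Ideal.span_singleton_mul_right_inj ha).mp e
  · rintro ⟨z, hz, rfl⟩
    exact ⟨1, z, one_ne_zero, hz, by rw [mul_one, Ideal.span_singleton_one, Ideal.top_mul]⟩

section Map

variable {T : Type*} [CommRing T] [IsDomain T] {U : Type*} [CommRing U] [IsDomain U]

lemma map_mem_invIdeals (f : S →+* T) (hf : Function.Injective f) {I : Ideal S}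
    (hI : I ∈ InvIdeals S) : I.map f ∈ InvIdeals T := by
  obtain ⟨J, h, hh, e⟩ := hI
  refine ⟨J.map f, f h, (map_ne_zero_iff f hf).mpr hh, ?_⟩
  rw [← Ideal.map_mul, e, Ideal.map_span, Set.image_singleton]

/-- The map on ideal classes induced by an injective ring homomorphism. -/
def clMap (f : S →+* T) (hf : Function.Injective f) : ICl S →* ICl T :=
  (idealCon S).lift
    { toFun := fun I => cls ((I : Ideal S).map f) (map_mem_invIdeals f hf I.2)
      map_one' := by
        rw [cls_eq_one]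
        refine ⟨1, one_ne_zero, ?_⟩
        rw [Submonoid.coe_one, Ideal.one_eq_top, Ideal.map_top, Ideal.span_singleton_one]
      map_mul' := fun I J => by
        rw [← cls_mul]
        congr 1
        exact Ideal.map_mul f _ _ }
    (by
      rintro I J ⟨a, b, ha, hb, e⟩
      show cls _ _ = cls _ _
      rw [cls_eq_cls]
      refine ⟨f a, f b, (map_ne_zero_iff f hf).mpr ha, (map_ne_zero_iff f hf).mpr hb, ?_⟩
      have h1 := congrArg (Ideal.map f) e
      rwa [Ideal.map_mul, Ideal.map_mul, Ideal.map_span, Ideal.map_span, Set.image_singleton,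
        Set.image_singleton] at h1)

lemma clMap_cls (f : S →+* T) (hf : Function.Injective f) {I : Ideal S} (hI : I ∈ InvIdeals S) :
    clMap f hf (cls I hI) = cls (I.map f) (map_mem_invIdeals f hf hI) := rfl

lemma clMap_id : clMap (RingHom.id S) Function.injective_id = MonoidHom.id (ICl S) := by
  refine MonoidHom.ext fun c => ?_
  obtain ⟨I, hI, rfl⟩ := cls_surj c
  rw [clMap_cls]
  show _ = cls I hI
  congr 1
  exact Ideal.map_id I

lemma clMap_clMap (f : S →+* T) (hf : Function.Injective f) (g : T →+* U)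
    (hg : Function.Injective g) (c : ICl S) :
    clMap g hg (clMap f hf c) = clMap (g.comp f) (hg.comp hf) c := by
  obtain ⟨I, hI, rfl⟩ := cls_surj c
  rw [clMap_cls, clMap_cls, clMap_cls]
  congr 1
  exact Ideal.map_map f g

end Map

section ClassGroup

lemma isUnit_coe {I : Ideal S} (hI : I ∈ InvIdeals S) :
    IsUnit (FractionalIdeal.coeIdealHom S⁰ (FractionRing S) I) := by
  obtain ⟨J, h, hh, e⟩ := hI
  have hh' : algebraMap S (FractionRing S) h ≠ 0 :=
    (map_ne_zero_iff _ (IsFractionRing.injective S (FractionRing S))).mpr hh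
  have h1 : IsUnit (FractionalIdeal.coeIdealHom S⁰ (FractionRing S) (I * J)) := by
    rw [e]
    show IsUnit ((Ideal.span {h} : Ideal S) : FractionalIdeal S⁰ (FractionRing S))
    rw [FractionalIdeal.coeIdeal_span_singleton]
    refine IsUnit.of_mul_eq_one (FractionalIdeal.spanSingleton S⁰ (algebraMap S (FractionRing S) h)⁻¹) ?_
    rw [FractionalIdeal.spanSingleton_mul_spanSingleton, mul_inv_cancel₀ hh',
      FractionalIdeal.spanSingleton_one]
  rw [map_mul] at h1
  exact isUnit_of_mul_isUnit_left h1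

/-- From ideal classes to Mathlib's class group. -/
noncomputable def toClassGroup : ICl S →* ClassGroup S :=
  (idealCon S).lift
    ((ClassGroup.mk (R := S) (K := FractionRing S)).comp
      (IsUnit.liftRight ((FractionalIdeal.coeIdealHom S⁰ (FractionRing S)).toMonoidHom.comp
        (InvIdeals S).subtype) fun I => isUnit_coe I.2))
    (by
      rintro I J ⟨a, b, ha, hb, e⟩
      exact (ClassGroup.mk_eq_mk_of_coe_ideal (R := S)
        (I := IsUnit.liftRight ((FractionalIdeal.coeIdealHom S⁰ (FractionRing S)).toMonoidHom.comp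
        (InvIdeals S).subtype) (fun I => isUnit_coe I.2) I)
        (J := IsUnit.liftRight ((FractionalIdeal.coeIdealHom S⁰ (FractionRing S)).toMonoidHom.comp
        (InvIdeals S).subtype) (fun I => isUnit_coe I.2) J)
        (I' := (I : Ideal S)) (J' := (J : Ideal S)) rfl rfl).mpr ⟨a, b, ha, hb, e⟩)

lemma toClassGroup_injective : Function.Injective (toClassGroup (S := S)) := by
  intro c d
  obtain ⟨I, hI, rfl⟩ := cls_surj c
  obtain ⟨J, hJ, rfl⟩ := cls_surj d
  intro h
  rw [cls_eq_cls]
  exact (ClassGroup.mk_eq_mk_of_coe_ideal (R := S)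
        (I := IsUnit.liftRight ((FractionalIdeal.coeIdealHom S⁰ (FractionRing S)).toMonoidHom.comp
        (InvIdeals S).subtype) (fun I => isUnit_coe I.2) ⟨I, hI⟩)
        (J := IsUnit.liftRight ((FractionalIdeal.coeIdealHom S⁰ (FractionRing S)).toMonoidHom.comp
        (InvIdeals S).subtype) (fun I => isUnit_coe I.2) ⟨J, hJ⟩)
        (I' := I) (J' := J) rfl rfl).mp h

end ClassGroup

end Pool.Agent.MPab1e31
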