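import Pool.Agent.MPab1e31.Defs

/-!
# The subgroup of elements with a square root in `K L` has finite index in `Lˣ`
-/

open scoped Pointwise

namespace Pool.Agent.MPab1e31

section Dense

variable {K Ω : Type*} [Field K] [Field Ω] [Algebra K Ω]

/-- A dense subgroup realises every automorphism on a finite extension. -/
lemma exists_mem_of_dense {Δ : Subgroup (Ω ≃ₐ[K] Ω)} (hΔ : Dense (Δ : Set (Ω ≃ₐ[K] Ω)))
    (E : IntermediateField K Ω) [FiniteDimensional K E] (γ : Ω ≃ₐ[K] Ω) :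
    ∃ δ ∈ Δ, ∀ e ∈ E, δ e = γ e := by
  have hopen : IsOpen (γ • (E.fixingSubgroup : Set (Ω ≃ₐ[K] Ω))) :=
    (IntermediateField.fixingSubgroup_isOpen E).smul γ
  have hne : (γ • (E.fixingSubgroup : Set (Ω ≃ₐ[K] Ω))).Nonempty :=
    ⟨γ • 1, Set.smul_mem_smul_set (one_mem E.fixingSubgroup)⟩
  obtain ⟨δ, hδ1, hδ2⟩ := hΔ.inter_open_nonempty _ hopen hne
  obtain ⟨η, hη, rfl⟩ := hδ1
  refine ⟨_, hδ2, fun e he => ?_⟩
  show γ (η e) = γ e
  have h1 : η e = e := (IntermediateField.mem_fixingSubgroup_iff E η).mp hη e he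
  rw [h1]

end Dense

section Index

variable {F₀ K Ω : Type*} [Field F₀] [Field K] [Field Ω]
    [Algebra F₀ K] [Algebra K Ω] [Algebra F₀ Ω] [IsScalarTower F₀ K Ω]
    (L : IntermediateField F₀ Ω)

/-- The automorphisms over `K` which are trivial on `L`. -/
def stab (K : Type*) [Field K] [Algebra F₀ K] [Algebra K Ω] [IsScalarTower F₀ K Ω] :
    Subgroup (Ω ≃ₐ[K] Ω) where
  carrier := {γ | ∀ l ∈ L, γ l = l}
  mul_mem' := by
    intro a b ha hb l hl
    show a (b l) = l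
    rw [hb l hl, ha l hl]
  one_mem' := fun l _ => rfl
  inv_mem' := by
    intro a ha l hl
    show a.symm l = l
    rw [AlgEquiv.symm_apply_eq, ha l hl]

lemma mem_stab {γ : Ω ≃ₐ[K] Ω} : γ ∈ stab L K ↔ ∀ l ∈ L, γ l = l := Iff.rfl

lemma stab_finiteIndex [FiniteDimensional F₀ L] : (stab L K).FiniteIndex := by
  classical
  have hfin : Finite ((Ω ≃ₐ[K] Ω) ⧸ stab L K) := by
    let f : (Ω ≃ₐ[K] Ω) → (L →ₐ[F₀] Ω) := fun γ =>
      ((γ.restrictScalars F₀ : Ω ≃ₐ[F₀] Ω) : Ω →ₐ[F₀] Ω).comp L.val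
    have hf : ∀ γ γ' : Ω ≃ₐ[K] Ω, f γ = f γ' ↔ γ⁻¹ * γ' ∈ stab L K := by
      intro γ γ'
      rw [mem_stab]
      constructor
      · intro h l hl
        have h1 : γ l = γ' l := DFunLike.congr_fun h (⟨l, hl⟩ : L)
        show γ.symm (γ' l) = l
        rw [← h1, AlgEquiv.symm_apply_apply]
      · intro h
        ext l
        have h1 := h l l.2
        have h2 : γ.symm (γ' l) = l := h1
        rw [AlgEquiv.symm_apply_eq] at h2
        exact h2.symm
    have : Finite (L →ₐ[F₀] Ω) := inferInstance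
    refine Finite.of_injective (β := L →ₐ[F₀] Ω) (Quotient.lift f ?_) ?_
    · intro a b hab
      rw [hf]
      exact QuotientGroup.leftRel_apply.mp hab
    · intro a b
      refine Quotient.inductionOn₂ a b fun γ γ' h => ?_
      exact Quotient.sound (QuotientGroup.leftRel_apply.mpr ((hf γ γ').mp h))
  exact Subgroup.finiteIndex_of_finite_quotient

/-- The units with a square root fixed by the automorphisms over `K` which are trivial on `L`. -/
def sqSub (K : Type*) [Field K] [Algebra F₀ K] [Algebra K Ω] [IsScalarTower F₀ K Ω] :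
    Subgroup Lˣ where
  carrier := {u | ∃ v : Ω, v ^ 2 = ((u : L) : Ω) ∧ ∀ γ ∈ stab L K, γ v = v}
  mul_mem' := by
    rintro a b ⟨v, hv, hv'⟩ ⟨w, hw, hw'⟩
    refine ⟨v * w, ?_, fun γ hγ => by rw [map_mul, hv' γ hγ, hw' γ hγ]⟩
    rw [mul_pow, hv, hw]
    rfl
  one_mem' := ⟨1, by simp, fun γ _ => map_one γ⟩
  inv_mem' := by
    rintro a ⟨v, hv, hv'⟩
    refine ⟨v⁻¹, ?_, fun γ hγ => by rw [map_inv₀, hv' γ hγ]⟩
    rw [inv_pow, hv, Units.val_inv_eq_inv_val]
    rfl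

lemma mem_sqSub {u : Lˣ} :
    u ∈ sqSub L K ↔ ∃ v : Ω, v ^ 2 = ((u : L) : Ω) ∧ ∀ γ ∈ stab L K, γ v = v := Iff.rfl

/-- Module Index. -/
theorem exists_finiteIndex [CharZero F₀] [IsAlgClosed Ω]
    [Algebra.IsAlgebraic K Ω] (hfg : IsTopFG (Ω ≃ₐ[K] Ω)) [FiniteDimensional F₀ L] :
    ∃ H : Subgroup Lˣ, H.FiniteIndex ∧ ∀ u ∈ H, ∃ v : Ω, v ^ 2 = ((u : L) : Ω) ∧
      ∀ γ : Ω ≃ₐ[K] Ω, (∀ l ∈ L, γ l = l) → γ v = v := by
  classical
  refine ⟨sqSub L K, ?_, fun u hu => hu⟩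
  obtain ⟨S, hS⟩ := hfg
  set Δ : Subgroup (Ω ≃ₐ[K] Ω) := Subgroup.closure (S : Set (Ω ≃ₐ[K] Ω)) with hΔ
  have hΔfg : Group.FG Δ := by
    rw [Group.fg_iff_subgroup_fg]
    exact ⟨S, rfl⟩
  have := stab_finiteIndex (K := K) L
  have hfg2 : Group.FG ((stab L K).subgroupOf Δ) := inferInstance
  obtain ⟨T, hT⟩ := (Group.fg_iff_subgroup_fg _).mp hfg2
  -- elements of `Δ` trivial on `L`, fixing a `q`
  have hfix : ∀ q : Ω, (∀ t ∈ T, (t : Ω ≃ₐ[K] Ω) q = q) → ∀ γ ∈ stab L K, γ q = q := by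
    intro q hq
    -- first the intersection with `Δ`
    have h1 : ∀ δ ∈ Δ, δ ∈ stab L K → δ q = q := by
      intro δ hδ hδL
      have h2 : (⟨δ, hδ⟩ : Δ) ∈ Subgroup.closure (T : Set Δ) := by
        rw [hT]
        exact hδL
      have h3 : ∀ d ∈ Subgroup.closure (T : Set Δ), ((d : Δ) : Ω ≃ₐ[K] Ω) q = q := by
        intro d hd
        induction hd using Subgroup.closure_induction with
        | mem x hx => exact hq x hx
        | one => rfl
        | mul x y _ _ hx hy =>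
          show (x : Ω ≃ₐ[K] Ω) ((y : Ω ≃ₐ[K] Ω) q) = q
          rw [hy, hx]
        | inv x _ hx =>
          show (x : Ω ≃ₐ[K] Ω).symm q = q
          rw [AlgEquiv.symm_apply_eq, hx]
      exact h3 _ h2
    -- density
    intro γ hγ
    have hmod : Module.Finite F₀ (Subalgebra.toSubmodule L.toSubalgebra) :=
      inferInstanceAs (Module.Finite F₀ L)
    obtain ⟨B, hB⟩ := Module.Finite.iff_fg.mp hmod
    set E : IntermediateField K Ω := IntermediateField.adjoin K ((insert q B : Finset Ω) : Set Ω)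
      with hE
    have : FiniteDimensional K E := IntermediateField.finiteDimensional_adjoin
      fun x _ => (Algebra.IsAlgebraic.isAlgebraic (R := K) x).isIntegral
    obtain ⟨δ, hδ, hδE⟩ := exists_mem_of_dense hS E γ
    have hqE : q ∈ E := IntermediateField.subset_adjoin K _ (by simp)
    have hLE : ∀ l ∈ L, l ∈ E := by
      have h4 : Subalgebra.toSubmodule L.toSubalgebra ≤
          Subalgebra.toSubmodule (E.restrictScalars F₀).toSubalgebra := by
        rw [← hB, Submodule.span_le]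
        intro b hb
        exact IntermediateField.subset_adjoin K _ (by simp [Finset.mem_coe.mp hb])
      exact fun l hl => h4 hl
    have hδL : δ ∈ stab L K := by
      intro l hl
      rw [hδE l (hLE l hl), hγ l hl]
    rw [← hδE q hqE]
    exact h1 δ hδ hδL
  -- colours
  have hroot : ∀ u : Lˣ, ∃ v : Ω, v ^ 2 = ((u : L) : Ω) := fun u =>
    IsAlgClosed.exists_pow_nat_eq _ two_pos
  choose r hr using hroot
  have hr0 : ∀ u, r u ≠ 0 := by
    intro u h0
    have h1 := hr u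
    rw [h0, zero_pow two_ne_zero] at h1
    have h2 : ((u : L) : Ω) ≠ 0 := by
      intro h3
      exact u.ne_zero (Subtype.ext h3)
    exact h2 h1.symm
  have hsign : ∀ (t : (stab L K).subgroupOf Δ) (u : Lˣ),
      ((t : Δ) : Ω ≃ₐ[K] Ω) (r u) = r u ∨ ((t : Δ) : Ω ≃ₐ[K] Ω) (r u) = -r u := by
    intro t u
    rw [← sq_eq_sq_iff_eq_or_eq_neg, ← map_pow, hr]
    exact t.2 _ (SetLike.coe_mem _)
  have hTmem : ∀ t ∈ T, t ∈ (stab L K).subgroupOf Δ := by
    intro t ht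
    rw [← hT]
    exact Subgroup.subset_closure ht
  let col : Lˣ → (T → Prop) := fun u t => ((t : Δ) : Ω ≃ₐ[K] Ω) (r u) = r u
  have hcol : ∀ u u' : Lˣ, col u = col u' → u⁻¹ * u' ∈ sqSub L K := by
    intro u u' h
    refine ⟨(r u)⁻¹ * r u', ?_, hfix _ fun t ht => ?_⟩
    · rw [mul_pow, inv_pow, hr, hr, Units.val_mul, Units.val_inv_eq_inv_val]
      rfl
    · have h1 : (((t : Δ) : Ω ≃ₐ[K] Ω) (r u) = r u) = (((t : Δ) : Ω ≃ₐ[K] Ω) (r u') = r u') :=
        congrFun h ⟨t, ht⟩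
      rw [map_mul, map_inv₀]
      rcases hsign ⟨t, hTmem t ht⟩ u with h2 | h2
      · have h2' : ((t : Δ) : Ω ≃ₐ[K] Ω) (r u) = r u := h2
        have h3 : ((t : Δ) : Ω ≃ₐ[K] Ω) (r u') = r u' := h1 ▸ h2'
        rw [h2', h3]
      · have h2' : ((t : Δ) : Ω ≃ₐ[K] Ω) (r u) = -r u := h2
        rcases hsign ⟨t, hTmem t ht⟩ u' with h4 | h4
        · have h4' : ((t : Δ) : Ω ≃ₐ[K] Ω) (r u') = r u' := h4
          have h3 : ((t : Δ) : Ω ≃ₐ[K] Ω) (r u) = r u := h1 ▸ h4'
          rw [h3, h4']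
        · have h4' : ((t : Δ) : Ω ≃ₐ[K] Ω) (r u') = -r u' := h4
          rw [h2', h4', inv_neg, neg_mul_neg]
  have hfin : Finite (Lˣ ⧸ sqSub L K) := by
    have : Finite (T → Prop) := inferInstance
    refine Finite.of_injective (β := T → Prop) (fun q => col (Quotient.out q)) ?_
    intro a b hab
    have h1 := hcol _ _ hab
    have h2 : (QuotientGroup.mk (Quotient.out a) : Lˣ ⧸ sqSub L K) =
      QuotientGroup.mk (Quotient.out b) := QuotientGroup.eq.mpr h1
    have h3 : (QuotientGroup.mk (Quotient.out a) : Lˣ ⧸ sqSub L K) = a := QuotientGroup.out_eq' a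
    have h4 : (QuotientGroup.mk (Quotient.out b) : Lˣ ⧸ sqSub L K) = b := QuotientGroup.out_eq' b
    rw [h3, h4] at h2
    exact h2
  exact Subgroup.finiteIndex_of_finite_quotient

end Index

end Pool.Agent.MPab1e31
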