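import Pool.Agent.MPab1e31.HJ
import Pool.Agent.MPab1e31.Char
import Pool.Agent.MPab1e31.Flip
import Pool.Agent.MPab1e31.Index

/-!
# Independent traces
-/

open scoped WithZero

namespace Pool.Agent.MPab1e31

section Pigeon

variable {F₀ L : Type*} [Field F₀] [Field L] [NumberField L] [Algebra F₀ L]
  [FiniteDimensional F₀ L]

/-- Characters with an element in a given subgroup of finite index. -/
theorem exists_char_mem (H : Subgroup Lˣ) [H.FiniteIndex] (Z : Finset Lˣ) :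
    ∃ (χ : Lˣ →* ℤˣ) (g : Lˣ), g ∈ H ∧ (∀ z ∈ Z, χ z = 1) ∧ χ g = -1 ∧
      ∀ σ : L ≃ₐ[F₀] L, σ ≠ 1 → χ (Units.map (σ : L →* L) g) = 1 := by
  classical
  have key := fun Z : Finset Lˣ => exists_char (F₀ := F₀) (L := L) Z
  choose X p h1 h2 h3 using key
  set step : Finset Lˣ → Finset Lˣ := fun Z' =>
    Z' ∪ (Finset.univ : Finset (L ≃ₐ[F₀] L)).image
      (fun σ : L ≃ₐ[F₀] L => Units.map (σ : L →* L) (p Z'))
    with hstep
  set Zs : ℕ → Finset Lˣ := fun n => step^[n] Z with hZs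
  have hsucc : ∀ n, Zs (n + 1) = step (Zs n) := fun n => Function.iterate_succ_apply' step n Z
  have hmono1 : ∀ n, Zs n ⊆ Zs (n + 1) := by
    intro n
    rw [hsucc, hstep]
    exact Finset.subset_union_left
  have hmono : Monotone Zs := monotone_nat_of_le_succ hmono1
  have hp : ∀ j i, j < i → ∀ σ : L ≃ₐ[F₀] L, Units.map (σ : L →* L) (p (Zs j)) ∈ Zs i := by
    intro j i hji σ
    have h4 : Units.map (σ : L →* L) (p (Zs j)) ∈ Zs (j + 1) := by
      rw [hsucc, hstep]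
      exact Finset.mem_union_right _ (Finset.mem_image_of_mem _ (Finset.mem_univ σ))
    exact hmono (Nat.succ_le_of_lt hji) h4
  obtain ⟨i, j, hij, heq⟩ : ∃ i j : ℕ, j < i ∧
      (QuotientGroup.mk (p (Zs j)) : Lˣ ⧸ H) = QuotientGroup.mk (p (Zs i)) := by
    obtain ⟨a, b, hab, h⟩ := Finite.exists_ne_map_eq_of_infinite
      (fun n : ℕ => (QuotientGroup.mk (p (Zs n)) : Lˣ ⧸ H))
    rcases lt_or_gt_of_ne hab with h' | h'
    · exact ⟨b, a, h', h⟩
    · exact ⟨a, b, h', h.symm⟩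
  refine ⟨X (Zs i), (p (Zs j))⁻¹ * p (Zs i), QuotientGroup.eq.mp heq, ?_, ?_, ?_⟩
  · intro z hz
    exact h1 _ z (hmono (Nat.zero_le i) hz)
  · have h4 : X (Zs i) (p (Zs j)) = 1 := by
      have h5 := h1 (Zs i) _ (hp j i hij 1)
      have h6 : Units.map ((1 : L ≃ₐ[F₀] L) : L →* L) (p (Zs j)) = p (Zs j) := by
        ext
        rfl
      rwa [h6] at h5
    rw [map_mul, map_inv, h4, inv_one, one_mul, h2]
  · intro σ hσ
    rw [map_mul, map_mul, map_inv, map_inv, h1 (Zs i) _ (hp j i hij σ), inv_one, one_mul,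
      h3 _ σ hσ]

end Pigeon

section Prod

lemma prod_mem_coset {L : Type*} [Field L] (H : Subgroup Lˣ) (g : Lˣ) (x : L) (S : Multiset L)
    (h : ∀ e ∈ S, ∃ h ∈ H, x - e = ((g * h : Lˣ) : L)) :
    ∃ h ∈ H, (S.map fun e => x - e).prod = ((g ^ (Multiset.card S) * h : Lˣ) : L) := by
  induction S using Multiset.induction_on with
  | empty => exact ⟨1, H.one_mem, by simp⟩
  | cons a S ih =>
    obtain ⟨h1, hh1, e1⟩ := h a (Multiset.mem_cons_self a S)
    obtain ⟨h2, hh2, e2⟩ := ih fun e he => h e (Multiset.mem_cons_of_mem he)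
    refine ⟨h1 * h2, H.mul_mem hh1 hh2, ?_⟩
    rw [Multiset.map_cons, Multiset.prod_cons, e1, e2, Multiset.card_cons, pow_succ,
      ← Units.val_mul]
    congr 1
    rw [mul_comm (g ^ Multiset.card S) g]
    exact mul_mul_mul_comm g h1 (g ^ Multiset.card S) h2

end Prod

section Val

/-- forcing `x` to be large. -/
lemma lt_of_parity {L : Type*} [Field L] (w : Valuation L ℤᵐ⁰) {x a : L} (ha : a ≠ 0) {ε : ℤˣ}
    (hx0 : x ≠ 0) (hx : parity w (Units.mk0 x hx0) = ε) (hxa0 : x - a ≠ 0)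
    (hxa : parity w (Units.mk0 (x - a) hxa0) = ε) (haε : parity w (Units.mk0 a ha) ≠ ε) :
    w a < w x := by
  by_contra hle
  push Not at hle
  have hne : w x ≠ w a := by
    intro h
    apply haε
    rw [← hx]
    show (WithZero.log (w a)).negOnePow = (WithZero.log (w x)).negOnePow
    rw [h]
  have hlt : w x < w a := lt_of_le_of_ne hle hne
  have h1 : w (x - a) = w a := Valuation.map_sub_eq_of_lt_right w hlt
  apply haε
  rw [← hxa]
  show (WithZero.log (w a)).negOnePow = (WithZero.log (w (x - a))).negOnePow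
  rw [h1]

lemma exists_large {L : Type*} [Field L] (w : Valuation L ℤᵐ⁰) (ϖ : L)
    (hϖ : w ϖ = WithZero.exp (-1)) (C : ℤᵐ⁰) (ε : ℤˣ) :
    ∃ (a : L) (ha : a ≠ 0), C < w a ∧ parity w (Units.mk0 a ha) ≠ ε := by
  have hϖ0 : ϖ ≠ 0 := by
    rintro rfl
    rw [map_zero] at hϖ
    exact WithZero.exp_ne_zero hϖ.symm
  have hpow : ∀ k : ℕ, w ((ϖ⁻¹) ^ k) = WithZero.exp (k : ℤ) := by
    intro k
    rw [map_pow, map_inv₀, hϖ, ← WithZero.exp_neg, neg_neg, ← WithZero.exp_nsmul]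
    simp
  have hC : ∃ k : ℕ, C < WithZero.exp (k : ℤ) := by
    rcases eq_or_ne C 0 with rfl | hC
    · exact ⟨0, WithZero.exp_pos⟩
    · refine ⟨(WithZero.log C).toNat + 1, ?_⟩
      rw [← WithZero.log_lt_iff_lt_exp hC]
      have := Int.self_le_toNat (WithZero.log C)
      push_cast
      omega
  obtain ⟨k, hk⟩ := hC
  have hk2 : C < WithZero.exp ((k + 1 : ℕ) : ℤ) := by
    refine hk.trans ?_
    rw [WithZero.exp_lt_exp]
    push_cast
    omega
  have hp : ∀ (j : ℕ) (h : (ϖ⁻¹) ^ j ≠ 0), parity w (Units.mk0 ((ϖ⁻¹) ^ j) h) =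
      ((j : ℤ)).negOnePow := by
    intro j h
    show (WithZero.log (w ((ϖ⁻¹) ^ j))).negOnePow = _
    rw [hpow, WithZero.log_exp]
  have hne : ∀ j : ℕ, (ϖ⁻¹) ^ j ≠ 0 := fun j => pow_ne_zero _ (inv_ne_zero hϖ0)
  by_cases h1 : ((k : ℤ)).negOnePow = ε
  · refine ⟨(ϖ⁻¹) ^ (k + 1), hne _, by rw [hpow]; exact hk2, ?_⟩
    rw [hp, Nat.cast_succ, Int.negOnePow_succ, h1]
    intro h2
    have h3 : ε = 1 ∨ ε = -1 := Int.units_eq_one_or ε
    rcases h3 with rfl | rfl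
    · exact absurd h2 (by decide)
    · exact absurd h2 (by decide)
  · exact ⟨(ϖ⁻¹) ^ k, hne _, by rw [hpow]; exact hk, by rw [hp]; exact h1⟩

end Val

section Orbit

variable {F₀ K Ω : Type*} [Field F₀] [Field K] [Field Ω]
    [Algebra F₀ K] [Algebra K Ω] [Algebra F₀ Ω] [IsScalarTower F₀ K Ω]
    {A : Type*} [AddCommGroup A] (ρ : (Ω ≃ₐ[F₀] Ω) →* AddMonoid.End A)
    (L : IntermediateField F₀ Ω) [FiniteDimensional F₀ L] [Normal F₀ L]

omit [FiniteDimensional F₀ L] [Normal F₀ L] in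
lemma rho_mul (g h : Ω ≃ₐ[F₀] Ω) (P : A) : ρ (g * h) P = ρ g (ρ h P) := by
  rw [map_mul]
  rfl

omit [FiniteDimensional F₀ L] in
/-- The image of an element only depends on the restriction to `L`. -/
lemma rho_eq_of_restrict {P : A}
    (hP : ∀ γ : Ω ≃ₐ[K] Ω, (∀ l ∈ L, γ l = l) → ρ (γ.restrictScalars F₀) P = P)
    (γ γ' : Ω ≃ₐ[K] Ω)
    (h : (γ.restrictScalars F₀).restrictNormal L = (γ'.restrictScalars F₀).restrictNormal L) :
    ρ (γ.restrictScalars F₀) P = ρ (γ'.restrictScalars F₀) P := by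
  have h1 : ∀ l ∈ L, γ l = γ' l := by
    intro l hl
    have h2 := AlgEquiv.restrictNormal_commutes (γ.restrictScalars F₀) L ⟨l, hl⟩
    have h3 := AlgEquiv.restrictNormal_commutes (γ'.restrictScalars F₀) L ⟨l, hl⟩
    rw [h, h3] at h2
    exact h2.symm
  have h4 : ρ ((γ'⁻¹ * γ).restrictScalars F₀) P = P := by
    refine hP _ fun l hl => ?_
    show γ'⁻¹ (γ l) = l
    rw [h1 l hl]
    exact AlgEquiv.symm_apply_apply γ' l
  have h5 : γ.restrictScalars F₀ = γ'.restrictScalars F₀ * (γ'⁻¹ * γ).restrictScalars F₀ := by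
    ext a
    show γ a = γ' (γ'⁻¹ (γ a))
    exact (AlgEquiv.apply_symm_apply γ' (γ a)).symm
  rw [h5, rho_mul, h4]

lemma orbit_finite {P : A}
    (hP : ∀ γ : Ω ≃ₐ[K] Ω, (∀ l ∈ L, γ l = l) → ρ (γ.restrictScalars F₀) P = P) :
    (Set.range fun γ : Ω ≃ₐ[K] Ω => ρ (γ.restrictScalars F₀) P).Finite := by
  classical
  set r : (Ω ≃ₐ[K] Ω) → (L ≃ₐ[F₀] L) := fun γ => (γ.restrictScalars F₀).restrictNormal L
  have hf : Function.FactorsThrough (fun γ : Ω ≃ₐ[K] Ω => ρ (γ.restrictScalars F₀) P) r :=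
    fun γ γ' h => rho_eq_of_restrict ρ L hP γ γ' h
  refine (Set.finite_range (Function.extend r
    (fun γ : Ω ≃ₐ[K] Ω => ρ (γ.restrictScalars F₀) P) (fun _ => 0))).subset ?_
  rintro _ ⟨γ, rfl⟩
  exact ⟨r γ, hf.extend_apply _ γ⟩

end Orbit

section Step

variable {F₀ K Ω : Type*} [Field F₀] [NumberField F₀] [Field K] [Field Ω]
    [Algebra F₀ K] [Algebra K Ω] [Algebra F₀ Ω] [IsScalarTower F₀ K Ω]
    [Algebra.IsAlgebraic F₀ K] [IsAlgClosed Ω] [Algebra.IsAlgebraic K Ω]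
    {A : Type*} [AddCommGroup A] (ρ : (Ω ≃ₐ[F₀] Ω) →* AddMonoid.End A)
    (L : IntermediateField F₀ Ω) [FiniteDimensional F₀ L] [Normal F₀ L]

/-- One step: a point with infinite order conjugates whose trace is moved by an automorphism
fixing given square roots. -/
theorem exists_step (hfg : IsTopFG (Ω ≃ₐ[K] Ω))
    (S : Multiset L) (hS : Odd (Multiset.card S)) (φ : Ω → Ω → A)
    (hneg : ∀ (x : L) (s : Ω), s ^ 2 = (S.map fun e : L => (x : Ω) - (e : Ω)).prod → φ x (-s) = -φ x s)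
    (hequiv : ∀ g : Ω ≃ₐ[F₀] Ω, (∀ l ∈ L, g l = l) → ∀ (x : L) (s : Ω),
      s ^ 2 = (S.map fun e : L => (x : Ω) - (e : Ω)).prod → ρ g (φ x s) = φ x (g s))
    (w : Valuation L ℤᵐ⁰) (ϖ : L) (hϖ : w ϖ = WithZero.exp (-1)) (C : ℤᵐ⁰)
    (hnt : ∀ x : L, C < w x → ∀ s : Ω,
      s ^ 2 = (S.map fun e : L => (x : Ω) - (e : Ω)).prod → ∀ n : ℤ, n ≠ 0 → n • φ x s ≠ 0)
    (Z : Finset Lˣ) :
    ∃ (T P : A) (Z' : Finset Lˣ),
      (∀ n : ℤ, n ≠ 0 → n • P ≠ 0) ∧
      (∀ γ : Ω ≃ₐ[K] Ω, ρ (γ.restrictScalars F₀) T = T) ∧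
      (∀ g : Ω ≃ₐ[F₀] Ω, (∀ l ∈ L, g l = l) →
        (∀ z ∈ Z', ∀ r : Ω, r ^ 2 = ((z : L) : Ω) → g r = r) → ρ g T = T) ∧
      ∃ g : Ω ≃ₐ[F₀] Ω, (∀ l ∈ L, g l = l) ∧ (∀ z ∈ Z, ∀ r : Ω, r ^ 2 = ((z : L) : Ω) → g r = r) ∧
        ρ g T = T - (2 : ℤ) • P := by
  classical
  have : NumberField L := NumberField.of_module_finite F₀ L
  have : CharZero L := inferInstance
  have : Algebra.IsAlgebraic F₀ Ω := Algebra.IsAlgebraic.trans F₀ K Ω
  have : Algebra.IsAlgebraic L Ω := Algebra.IsAlgebraic.tower_top (K := F₀) L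
  obtain ⟨H, hHfin, hH⟩ := exists_finiteIndex (K := K) L hfg
  obtain ⟨χ, g₀, hg₀, hχZ, hχg, hχσ⟩ := exists_char_mem (F₀ := F₀) H Z
  set H' : Subgroup Lˣ := H ⊓ ((⨅ σ : L ≃ₐ[F₀] L, (χ.comp (Units.map (σ : L →* L))).ker) ⊓
    (parity w).ker) with hH'
  have : (⨅ σ : L ≃ₐ[F₀] L, (χ.comp (Units.map (σ : L →* L))).ker).FiniteIndex :=
    Subgroup.finiteIndex_iInf fun σ => inferInstance
  have : H'.FiniteIndex := inferInstance
  obtain ⟨a, ha, hCa, hap⟩ := exists_large w ϖ hϖ C (parity w g₀)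
  obtain ⟨x, hx⟩ := exists_shift H' (insert 0 (insert (-a) (S.toFinset.image fun e => -e))) g₀
  have hx1 : ∀ e ∈ S, ∃ h ∈ H', x - e = ((g₀ * h : Lˣ) : L) := by
    intro e he
    have := hx (-e) (by
      refine Finset.mem_insert_of_mem (Finset.mem_insert_of_mem ?_)
      exact Finset.mem_image_of_mem _ (Multiset.mem_toFinset.mpr he))
    rwa [← sub_eq_add_neg] at this
  have hpar : ∀ h ∈ H', parity w (g₀ * h) = parity w g₀ := by
    intro h hh
    rw [map_mul, (MonoidHom.mem_ker).mp hh.2.2, mul_one]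
  -- largeness
  have hCx : C < w x := by
    obtain ⟨h1, hh1, e1⟩ := hx 0 (Finset.mem_insert_self _ _)
    obtain ⟨h2, hh2, e2⟩ := hx (-a) (Finset.mem_insert_of_mem (Finset.mem_insert_self _ _))
    rw [add_zero] at e1
    rw [← sub_eq_add_neg] at e2
    have hx0 : x ≠ 0 := by rw [e1]; exact Units.ne_zero _
    have hxa : x - a ≠ 0 := by rw [e2]; exact Units.ne_zero _
    refine hCa.trans (lt_of_parity w ha (ε := parity w g₀) hx0 ?_ hxa ?_ hap)
    · have : Units.mk0 x hx0 = g₀ * h1 := Units.ext e1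
      rw [this, hpar h1 hh1]
    · have : Units.mk0 (x - a) hxa = g₀ * h2 := Units.ext e2
      rw [this, hpar h2 hh2]
  -- the value
  obtain ⟨h, hh, hprod⟩ := prod_mem_coset H' g₀ x S hx1
  set u : Lˣ := g₀ ^ (Multiset.card S) * h with hu
  have hprodΩ : (S.map fun e : L => (x : Ω) - (e : Ω)).prod = ((u : L) : Ω) := by
    rw [← hprod]
    have h1 := map_multiset_prod (algebraMap L Ω) (S.map fun e => x - e)
    rw [Multiset.map_map] at h1
    exact h1.symm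
  have huH : u ∈ H := H.mul_mem (H.pow_mem hg₀ _) hh.1
  obtain ⟨s, hs, hsγ⟩ := hH u huH
  have hs' : s ^ 2 = (S.map fun e : L => (x : Ω) - (e : Ω)).prod := by rw [hs, hprodΩ]
  have hχh : ∀ σ : L ≃ₐ[F₀] L, χ (Units.map (σ : L →* L) h) = 1 := by
    intro σ
    have h1 := (Subgroup.mem_iInf.mp hh.2.1) σ
    exact (MonoidHom.mem_ker).mp h1
  have hunit1 : ∀ y : Lˣ, Units.map ((1 : L ≃ₐ[F₀] L) : L →* L) y = y := by
    intro y
    ext
    rfl
  have hχu : χ u = -1 := by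
    have h1 := hχh 1
    rw [hunit1] at h1
    rw [hu, map_mul, h1, mul_one, map_pow, hχg, hS.neg_one_pow]
  have hχσu : ∀ σ : L ≃ₐ[F₀] L, σ ≠ 1 → χ (Units.map (σ : L →* L) u) = 1 := by
    intro σ hσ
    rw [hu, map_mul, map_mul, hχh, mul_one, map_pow, map_pow, hχσ σ hσ, one_pow]
  set P : A := φ x s with hP
  have hPnt : ∀ n : ℤ, n ≠ 0 → n • P ≠ 0 := hnt x hCx s hs'
  have hPfix : ∀ γ : Ω ≃ₐ[K] Ω, (∀ l ∈ L, γ l = l) → ρ (γ.restrictScalars F₀) P = P := by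
    intro γ hγ
    have h1 := hequiv (γ.restrictScalars F₀) hγ x s hs'
    rw [hP, h1]
    congr 1
    exact hsγ γ hγ
  have hfin := orbit_finite (K := K) ρ L hPfix
  set O : Finset A := hfin.toFinset with hO
  have hmemO : ∀ Q, Q ∈ O ↔ ∃ γ : Ω ≃ₐ[K] Ω, ρ (γ.restrictScalars F₀) P = Q := by
    intro Q
    rw [hO, Set.Finite.mem_toFinset]
    rfl
  have hPO : P ∈ O := by
    rw [hmemO]
    refine ⟨1, ?_⟩
    exact hPfix 1 fun l _ => rfl
  -- action of an automorphism over `L` on the conjugates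
  have hconj : ∀ g : Ω ≃ₐ[F₀] Ω, (∀ l ∈ L, g l = l) → ∀ γ : Ω ≃ₐ[K] Ω, g (γ s) = γ s →
      ρ g (ρ (γ.restrictScalars F₀) P) = ρ (γ.restrictScalars F₀) P := by
    intro g hg γ hgs
    set γ₀ : Ω ≃ₐ[F₀] Ω := γ.restrictScalars F₀ with hγ₀
    have hγL : ∀ l ∈ L, γ₀ l ∈ L := by
      intro l hl
      have h2 := AlgEquiv.restrictNormal_commutes γ₀ L ⟨l, hl⟩
      have h3 : γ₀ l = ((γ₀.restrictNormal L ⟨l, hl⟩ : L) : Ω) := h2.symm
      rw [h3]
      exact SetLike.coe_mem _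
    have h4 : ρ (γ₀⁻¹ * g * γ₀) P = P := by
      have h5 := hequiv (γ₀⁻¹ * g * γ₀) (by
        intro l hl
        show γ₀⁻¹ (g (γ₀ l)) = l
        rw [hg _ (hγL l hl)]
        exact AlgEquiv.symm_apply_apply γ₀ l) x s hs'
      have h6 : (γ₀⁻¹ * g * γ₀) s = s := by
        show γ₀⁻¹ (g (γ₀ s)) = s
        have h7 : g (γ₀ s) = γ₀ s := hgs
        rw [h7]
        exact AlgEquiv.symm_apply_apply γ₀ s
      rw [h6] at h5
      exact h5
    have h8 : g * γ₀ = γ₀ * (γ₀⁻¹ * g * γ₀) := by group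
    rw [← rho_mul, h8, rho_mul, h4]
  -- squares of the conjugates of `s`
  have hγs : ∀ γ : Ω ≃ₐ[K] Ω, (γ s) ^ 2 =
      (((Units.map (((γ.restrictScalars F₀).restrictNormal L : L ≃ₐ[F₀] L) : L →* L) u : Lˣ) : L) :
        Ω) := by
    intro γ
    rw [← map_pow, hs]
    exact (AlgEquiv.restrictNormal_commutes (γ.restrictScalars F₀) L (u : L)).symm
  set Zc : Finset Lˣ := (Finset.univ : Finset (L ≃ₐ[F₀] L)).image
    (fun σ : L ≃ₐ[F₀] L => Units.map (σ : L →* L) u) with hZc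
  refine ⟨∑ Q ∈ O, Q, P, Zc, hPnt, ?_, ?_, ?_⟩
  · -- invariance
    intro γ
    rw [map_sum]
    refine Finset.sum_bij (fun Q _ => ρ (γ.restrictScalars F₀) Q) ?_ ?_ ?_ ?_
    · intro Q hQ
      rw [hmemO] at hQ ⊢
      obtain ⟨γ', rfl⟩ := hQ
      refine ⟨γ * γ', ?_⟩
      rw [← rho_mul]
      rfl
    · intro Q _ Q' _ hQQ
      have h1 := congrArg (ρ ((γ⁻¹).restrictScalars F₀)) hQQ
      rw [← rho_mul, ← rho_mul] at h1
      have h2 : (γ⁻¹).restrictScalars F₀ * γ.restrictScalars F₀ = 1 := by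
        ext y
        exact AlgEquiv.symm_apply_apply γ y
      rw [h2, map_one] at h1
      exact h1
    · intro Q hQ
      rw [hmemO] at hQ
      obtain ⟨γ', rfl⟩ := hQ
      refine ⟨ρ ((γ⁻¹ * γ').restrictScalars F₀) P, (hmemO _).mpr ⟨_, rfl⟩, ?_⟩
      rw [← rho_mul]
      congr 2
      ext y
      exact AlgEquiv.apply_symm_apply γ (γ' y)
    · intro Q _
      rfl
  · -- fixed by automorphisms fixing the square roots
    intro g hgL hgZ
    rw [map_sum]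
    refine Finset.sum_congr rfl fun Q hQ => ?_
    rw [hmemO] at hQ
    obtain ⟨γ, rfl⟩ := hQ
    refine hconj g hgL γ (hgZ _ ?_ _ (hγs γ))
    exact Finset.mem_image_of_mem _ (Finset.mem_univ _)
  · -- the flip
    obtain ⟨g, hg1, hg2⟩ := exists_flip χ (Z ∪ Zc.filter fun z => χ z = 1) (by
      intro z hz
      rcases Finset.mem_union.mp hz with hz | hz
      · exact hχZ z hz
      · exact (Finset.mem_filter.mp hz).2) u hχu s hs
    set g' : Ω ≃ₐ[F₀] Ω := g.restrictScalars F₀ with hg'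
    have hgL : ∀ l ∈ L, g' l = l := fun l hl => g.commutes ⟨l, hl⟩
    refine ⟨g', hgL, fun z hz r hr => hg2 z (Finset.mem_union_left _ hz) r hr, ?_⟩
    have hgP : ρ g' P = -P := by
      have h1 := hequiv g' hgL x s hs'
      have h2 : g' s = -s := hg1
      rw [hP, h1, h2, hneg x s hs']
    have hgQ : ∀ Q ∈ O.erase P, ρ g' Q = Q := by
      intro Q hQ
      obtain ⟨hne, hQO⟩ := Finset.mem_erase.mp hQ
      rw [hmemO] at hQO
      obtain ⟨γ, rfl⟩ := hQO
      refine hconj g' hgL γ (hg2 _ ?_ _ (hγs γ))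
      refine Finset.mem_union_right _ (Finset.mem_filter.mpr
        ⟨Finset.mem_image_of_mem _ (Finset.mem_univ _), ?_⟩)
      apply hχσu
      intro h1
      apply hne
      have h2 : (γ.restrictScalars F₀).restrictNormal L =
          ((1 : Ω ≃ₐ[K] Ω).restrictScalars F₀).restrictNormal L := by
        rw [h1]
        ext y
        exact (AlgEquiv.restrictNormal_commutes ((1 : Ω ≃ₐ[K] Ω).restrictScalars F₀) L y).symm
      rw [rho_eq_of_restrict ρ L hPfix γ 1 h2]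
      exact hPfix 1 fun l _ => rfl
    rw [← Finset.add_sum_erase O (fun Q => Q) hPO, map_add, hgP, map_sum,
      Finset.sum_congr rfl hgQ, two_smul]
    abel

/-- Module Main (abstract form). `φ x s` is the image in `A` of the point `(x, s)` of
the hyperelliptic curve `s² = ∏ (x - e)`. -/
theorem exists_independent (hfg : IsTopFG (Ω ≃ₐ[K] Ω))
    (S : Multiset L) (hS : Odd (Multiset.card S)) (φ : Ω → Ω → A)
    (hneg : ∀ (x : L) (s : Ω), s ^ 2 = (S.map fun e : L => (x : Ω) - (e : Ω)).prod → φ x (-s) = -φ x s)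
    (hequiv : ∀ g : Ω ≃ₐ[F₀] Ω, (∀ l ∈ L, g l = l) → ∀ (x : L) (s : Ω),
      s ^ 2 = (S.map fun e : L => (x : Ω) - (e : Ω)).prod → ρ g (φ x s) = φ x (g s))
    (w : Valuation L ℤᵐ⁰) (ϖ : L) (hϖ : w ϖ = WithZero.exp (-1)) (C : ℤᵐ⁰)
    (hnt : ∀ x : L, C < w x → ∀ s : Ω,
      s ^ 2 = (S.map fun e : L => (x : Ω) - (e : Ω)).prod → ∀ n : ℤ, n ≠ 0 → n • φ x s ≠ 0) :
    ∀ m : ℕ, ∃ v : Fin m → A, LinearIndependent ℤ v ∧
      ∀ (k : Fin m) (γ : Ω ≃ₐ[K] Ω), ρ (γ.restrictScalars F₀) (v k) = v k := by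
  classical
  have key : ∀ m : ℕ, ∃ (v : Fin m → A) (Z : Finset Lˣ), LinearIndependent ℤ v ∧
      (∀ (k : Fin m) (γ : Ω ≃ₐ[K] Ω), ρ (γ.restrictScalars F₀) (v k) = v k) ∧
      ∀ g : Ω ≃ₐ[F₀] Ω, (∀ l ∈ L, g l = l) → (∀ z ∈ Z, ∀ r : Ω, r ^ 2 = ((z : L) : Ω) → g r = r) →
        ∀ k, ρ g (v k) = v k := by
    intro m
    induction m with
    | zero =>
      exact ⟨Fin.elim0, ∅, linearIndependent_empty_type, fun k => k.elim0, fun _ _ _ k => k.elim0⟩
    | succ m ih =>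
      obtain ⟨v, Z, hv, hvγ, hvg⟩ := ih
      obtain ⟨T, P, Z', hP, hTγ, hTg, g, hgL, hgZ, hgT⟩ :=
        exists_step ρ L hfg S hS φ hneg hequiv w ϖ hϖ C hnt Z
      refine ⟨Fin.cons T v, Z ∪ Z', ?_, ?_, ?_⟩
      · refine hv.finCons' T v ?_
        intro c y hy hc
        have hgy : ρ g y = y := by
          refine Submodule.span_induction ?_ ?_ ?_ ?_ hy
          · rintro _ ⟨k, rfl⟩
            exact hvg g hgL hgZ k
          · exact map_zero _
          · intro a b _ _ ha hb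
            rw [map_add, ha, hb]
          · intro n a _ ha
            rw [map_zsmul, ha]
        have h1 : c • T + y = 0 := hc
        have h2 := congrArg (ρ g) h1
        rw [map_add, map_zsmul, hgT, hgy, map_zero, smul_sub] at h2
        have h3 : (c * 2) • P = 0 := by
          have h4 : c • T - c • (2 : ℤ) • P + y = (c • T + y) - (c * 2) • P := by
            rw [mul_smul]
            abel
          rw [h4, h1, zero_sub, neg_eq_zero] at h2
          exact h2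
        by_contra hc0
        exact hP (c * 2) (mul_ne_zero hc0 two_ne_zero) h3
      · intro k γ
        refine Fin.cases ?_ (fun j => ?_) k
        · exact hTγ γ
        · exact hvγ j γ
      · intro g' hg'L hg'Z k
        refine Fin.cases ?_ (fun j => ?_) k
        · exact hTg g' hg'L fun z hz => hg'Z z (Finset.mem_union_right _ hz)
        · exact hvg g' hg'L (fun z hz => hg'Z z (Finset.mem_union_left _ hz)) j
  intro m
  obtain ⟨v, Z, h1, h2, -⟩ := key m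
  exact ⟨v, h1, h2⟩

end Step

end Pool.Agent.MPab1e31
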